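import Mathlib

set_option autoImplicit false
open MeasureTheory Set Filter Submodule
open scoped ENNReal Topology ComplexConjugate

namespace Pool.Agent.Helper67.BLT

section Density

variable {Ω : Type*} [MeasurableSpace Ω] {μ : Measure Ω}

/-- A bounded operator on `L²` that acts on a total family as `F ↦ u · (F ∘ T)` acts in this way on
all of `L²`. -/
theorem ae_eq_mul_comp {ι : Type*} (e : ι → Lp ℂ 2 μ)
    (he : (span ℂ (range e)).topologicalClosure = ⊤) (A : Lp ℂ 2 μ →L[ℂ] Lp ℂ 2 μ)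
    (T : Ω → Ω) (hT : MeasurePreserving T μ μ) (u : Ω → ℂ)
    (h : ∀ i, (A (e i) : Ω → ℂ) =ᵐ[μ] fun z => u z * (e i : Ω → ℂ) (T z)) (F : Lp ℂ 2 μ) :
    (A F : Ω → ℂ) =ᵐ[μ] fun z => u z * (F : Ω → ℂ) (T z) := by
  let S : Submodule ℂ (Lp ℂ 2 μ) :=
    { carrier := {F | (A F : Ω → ℂ) =ᵐ[μ] fun z => u z * (F : Ω → ℂ) (T z)}
      add_mem' := by
        intro a b ha hb
        simp only [Set.mem_ofPred_eq] at ha hb ⊢
        rw [map_add]
        have h1 := Lp.coeFn_add (A a) (A b)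
        have h2 := hT.quasiMeasurePreserving.ae (Lp.coeFn_add a b)
        filter_upwards [ha, hb, h1, h2] with z h1 h2 h3 h4
        rw [h3, Pi.add_apply, h1, h2, h4, Pi.add_apply, mul_add]
      zero_mem' := by
        simp only [Set.mem_ofPred_eq, map_zero]
        have h2 := hT.quasiMeasurePreserving.ae (Lp.coeFn_zero ℂ 2 μ)
        filter_upwards [Lp.coeFn_zero ℂ 2 μ, h2] with z h1 h2
        rw [h1, h2]; simp
      smul_mem' := by
        intro c a ha
        simp only [Set.mem_ofPred_eq] at ha ⊢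
        rw [map_smul]
        have h1 := Lp.coeFn_smul c (A a)
        have h2 := hT.quasiMeasurePreserving.ae (Lp.coeFn_smul c a)
        filter_upwards [ha, h1, h2] with z h1 h3 h4
        rw [h3, Pi.smul_apply, h1, h4, Pi.smul_apply, smul_eq_mul, smul_eq_mul]
        ring }
  have hclosed : IsClosed (S : Set (Lp ℂ 2 μ)) := by
    apply IsSeqClosed.isClosed
    intro G G0 hG hlim
    change (A G0 : Ω → ℂ) =ᵐ[μ] fun z => u z * (G0 : Ω → ℂ) (T z)
    have hlimA : Tendsto (fun n => A (G n)) atTop (𝓝 (A G0)) := (A.continuous.tendsto G0).comp hlim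
    have hm1 := tendstoInMeasure_of_tendsto_Lp hlimA
    obtain ⟨ns, hns, hae1⟩ := hm1.exists_seq_tendsto_ae
    have hlimT : Tendsto (fun n => Lp.compMeasurePreserving T hT (G (ns n))) atTop
        (𝓝 (Lp.compMeasurePreserving T hT G0)) :=
      ((Lp.isometry_compMeasurePreserving hT).continuous.tendsto G0).comp
        (hlim.comp hns.tendsto_atTop)
    have hm2 := tendstoInMeasure_of_tendsto_Lp hlimT
    obtain ⟨ms, hms, hae2⟩ := hm2.exists_seq_tendsto_ae
    have hc1 : ∀ᵐ z ∂μ, ∀ n, (Lp.compMeasurePreserving T hT (G (ns n)) : Ω → ℂ) z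
        = (G (ns n) : Ω → ℂ) (T z) := by
      rw [ae_all_iff]
      intro n
      exact Lp.coeFn_compMeasurePreserving (G (ns n)) hT
    have hc2 := Lp.coeFn_compMeasurePreserving G0 hT
    have hc3 : ∀ᵐ z ∂μ, ∀ n, (A (G n) : Ω → ℂ) z = u z * (G n : Ω → ℂ) (T z) := by
      rw [ae_all_iff]
      intro n
      exact hG n
    filter_upwards [hae1, hae2, hc1, hc2, hc3] with z h1 h2 h3 h4 h5
    have h6 : Tendsto (fun n => (A (G (ns (ms n))) : Ω → ℂ) z) atTop (𝓝 ((A G0 : Ω → ℂ) z)) :=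
      h1.comp hms.tendsto_atTop
    have h7 : Tendsto (fun n => (A (G (ns (ms n))) : Ω → ℂ) z) atTop
        (𝓝 (u z * (G0 : Ω → ℂ) (T z))) := by
      have h8 : (fun n => (A (G (ns (ms n))) : Ω → ℂ) z) =
          fun n => u z * (Lp.compMeasurePreserving T hT (G (ns (ms n))) : Ω → ℂ) z := by
        ext n
        rw [h5, h3]
      rw [h8]
      rw [h4] at h2
      exact h2.const_mul (u z)
    exact tendsto_nhds_unique h6 h7
  have hle : (span ℂ (range e)) ≤ S := by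
    rw [span_le]
    rintro _ ⟨i, rfl⟩
    exact h i
  have htop : (⊤ : Submodule ℂ (Lp ℂ 2 μ)) ≤ S := by
    rw [← he]
    exact Submodule.topologicalClosure_minimal _ hle hclosed
  exact htop (Submodule.mem_top : F ∈ ⊤)

/-- If `F ↦ u · (F ∘ T)` is bounded by `C` on `L²` (with `T` invertible and measure preserving),
then `|u| ≤ C` almost everywhere. -/
theorem norm_le_of_mul_comp_bound [IsFiniteMeasure μ] (A : Lp ℂ 2 μ →L[ℂ] Lp ℂ 2 μ)
    (T : Ω ≃ᵐ Ω) (hT : MeasurePreserving T μ μ) (u : Ω → ℂ) (hu : AEStronglyMeasurable u μ)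
    (h : ∀ F : Lp ℂ 2 μ, (A F : Ω → ℂ) =ᵐ[μ] fun z => u z * (F : Ω → ℂ) (T z)) (C : ℝ) (hC : 0 ≤ C)
    (hA : ‖A‖ ≤ C) : ∀ᵐ z ∂μ, ‖u z‖ ≤ C := by
  have key : ∀ D : Set Ω, MeasurableSet D → ∫⁻ z in D, ‖u z‖ₑ ^ 2 ∂μ ≤ ∫⁻ z in D, ENNReal.ofReal C ^ 2 ∂μ := by
    intro D hD
    have hD' : MeasurableSet (T.symm ⁻¹' D) := T.symm.measurable hD
    let F : Lp ℂ 2 μ := indicatorConstLp 2 hD' (measure_ne_top μ _) (1:ℂ)
    have h1 := h F
    have h2 : ∫⁻ z, ‖(A F : Ω → ℂ) z‖ₑ ^ 2 ∂μ = ∫⁻ z in D, ‖u z‖ₑ ^ 2 ∂μ := by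
      rw [← lintegral_indicator hD]
      apply lintegral_congr_ae
      have h3 : ∀ᵐ z ∂μ, (F : Ω → ℂ) (T z) = (T.symm ⁻¹' D).indicator (fun _ => (1:ℂ)) (T z) :=
        hT.quasiMeasurePreserving.ae indicatorConstLp_coeFn
      filter_upwards [h1, h3] with z h1 h3
      rw [h1, h3]
      by_cases hz : z ∈ D
      · simp [hz, indicator]
      · simp [hz, indicator]
    have h4 : ‖A F‖ₑ ^ 2 = ∫⁻ z, ‖(A F : Ω → ℂ) z‖ₑ ^ 2 ∂μ := by
      rw [Lp.enorm_def, eLpNorm_eq_lintegral_rpow_enorm_toReal (by norm_num) (by norm_num)]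
      simp only [ENNReal.toReal_ofNat, ENNReal.rpow_ofNat, one_div]
      rw [← ENNReal.rpow_natCast, ← ENNReal.rpow_mul]
      norm_num
    have h5 : ‖F‖ₑ ^ 2 = μ D := by
      rw [Lp.enorm_def, eLpNorm_eq_lintegral_rpow_enorm_toReal (by norm_num) (by norm_num)]
      simp only [ENNReal.toReal_ofNat, ENNReal.rpow_ofNat, one_div]
      rw [← ENNReal.rpow_natCast, ← ENNReal.rpow_mul]
      have h6 : ∫⁻ z, ‖(F : Ω → ℂ) z‖ₑ ^ 2 ∂μ = μ (T.symm ⁻¹' D) := by
        rw [← lintegral_indicator_one hD']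
        apply lintegral_congr_ae
        have h3 : ∀ᵐ z ∂μ, (F : Ω → ℂ) z = (T.symm ⁻¹' D).indicator (fun _ => (1:ℂ)) z :=
          indicatorConstLp_coeFn
        filter_upwards [h3] with z h3
        rw [h3]
        by_cases hz : z ∈ T.symm ⁻¹' D
        · simp [hz]
        · simp [hz]
      rw [h6]
      have h7 : μ (T.symm ⁻¹' D) = μ D := by
        have := hT.symm.measure_preimage hD.nullMeasurableSet
        exact this
      rw [h7]
      norm_num
    have h8 : ‖A F‖ₑ ≤ ENNReal.ofReal C * ‖F‖ₑ := by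
      rw [← ofReal_norm, ← ofReal_norm, ← ENNReal.ofReal_mul hC]
      apply ENNReal.ofReal_le_ofReal
      calc ‖A F‖ ≤ ‖A‖ * ‖F‖ := A.le_opNorm F
        _ ≤ C * ‖F‖ := by gcongr
    rw [← h2, ← h4, setLIntegral_const, ← h5, ← mul_pow]
    gcongr
  have h9 := ae_le_of_forall_setLIntegral_le_of_sigmaFinite₀ (μ := μ) (f := fun z => ‖u z‖ₑ ^ 2)
    (g := fun _ => ENNReal.ofReal C ^ 2) (by fun_prop) (fun D hD _ => key D hD)
  filter_upwards [h9] with z hz
  have h10 : ‖u z‖ₑ ≤ ENNReal.ofReal C := by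
    by_contra hcon
    push Not at hcon
    exact absurd hz (not_le.2 (ENNReal.pow_lt_pow_left (by norm_num) hcon))
  rwa [← ofReal_norm, ENNReal.ofReal_le_ofReal_iff hC] at h10

end Density

end Pool.Agent.Helper67.BLT
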