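import Mathlib

set_option autoImplicit false
open MeasureTheory Set Filter
open scoped ENNReal Topology ComplexConjugate

namespace Pool.Agent.Helper67.BLT

variable {Ω : Type*} [MeasurableSpace Ω] {μ : Measure Ω}

lemma integral_comp_mp {T : Ω → Ω} (hT : MeasurePreserving T μ μ) {E : Type*} [NormedAddCommGroup E]
    [NormedSpace ℝ E] {f : Ω → E} (hf : AEStronglyMeasurable f μ) :
    ∫ z, f (T z) ∂μ = ∫ z, f z ∂μ := by
  have h := integral_map (μ := μ) (φ := T) hT.measurable.aemeasurable (f := f)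
    (by rw [hT.map_eq]; exact hf)
  rw [hT.map_eq] at h
  exact h.symm

lemma integrable_of_bound [IsFiniteMeasure μ] {E : Type*} [NormedAddCommGroup E] {f : Ω → E}
    (hf : AEStronglyMeasurable f μ) (C : ℝ) (hC : ∀ᵐ z ∂μ, ‖f z‖ ≤ C) : Integrable f μ :=
  Integrable.of_bound hf C hC

/-- pointwise facts -/
lemma re_one_sub_of_norm_one {a : ℂ} (ha : ‖a‖ = 1) : (1 - a).re = ‖1 - a‖ ^ 2 / 2 := by
  have h1 : ‖a‖ ^ 2 = a.re ^ 2 + a.im ^ 2 := by
    rw [← Complex.normSq_eq_norm_sq, Complex.normSq_apply]; ring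
  have h2 : ‖1 - a‖ ^ 2 = (1 - a.re) ^ 2 + a.im ^ 2 := by
    rw [← Complex.normSq_eq_norm_sq, Complex.normSq_apply]
    simp; ring
  rw [ha] at h1
  simp only [Complex.sub_re, Complex.one_re]
  nlinarith

lemma im_mul_bound {u D : ℂ} (hu : ‖u‖ = 1) (hD : D.re = ‖D‖ ^ 2 / 2) :
    |((1 - u) * D).im| ≤ (1/2) * (‖1 - u‖ ^ 2 * ‖D‖) + ‖D‖ ^ 2 := by
  rw [Complex.mul_im, re_one_sub_of_norm_one hu, hD]
  have h1 : |D.im| ≤ ‖D‖ := Complex.abs_im_le_norm D
  have h2 : |(1 - u).im| ≤ ‖1 - u‖ := Complex.abs_im_le_norm _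
  have h3 : ‖1 - u‖ ≤ 2 := by
    calc ‖1 - u‖ ≤ ‖(1:ℂ)‖ + ‖u‖ := norm_sub_le _ _
      _ = 2 := by rw [hu]; norm_num
  calc |‖1 - u‖ ^ 2 / 2 * D.im + (1 - u).im * (‖D‖ ^ 2 / 2)| 
      ≤ |‖1 - u‖ ^ 2 / 2 * D.im| + |(1 - u).im * (‖D‖ ^ 2 / 2)| := abs_add_le _ _
    _ = ‖1 - u‖ ^ 2 / 2 * |D.im| + |(1 - u).im| * (‖D‖ ^ 2 / 2) := by
        rw [abs_mul, abs_mul, abs_of_nonneg (by positivity : 0 ≤ ‖1 - u‖ ^ 2 / 2),
          abs_of_nonneg (by positivity : 0 ≤ ‖D‖ ^ 2 / 2)]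
    _ ≤ ‖1 - u‖ ^ 2 / 2 * ‖D‖ + 2 * (‖D‖ ^ 2 / 2) := by
        gcongr
        exact h2.trans h3
    _ = _ := by ring

/-- The core inequality. -/
theorem core [IsProbabilityMeasure μ] (u w : Ω → ℂ) (hu : AEStronglyMeasurable u μ)
    (hw : AEStronglyMeasurable w μ) (hu1 : ∀ᵐ z ∂μ, ‖u z‖ = 1) (hw1 : ∀ᵐ z ∂μ, ‖w z‖ = 1)
    (T₁ T₂ : Ω → Ω) (hT₁ : MeasurePreserving T₁ μ μ) (hT₂ : MeasurePreserving T₂ μ μ)
    (ζ : ℂ) (hζ : ‖ζ‖ = 1) (hrel : ∀ᵐ z ∂μ, w z * u (T₂ z) = ζ * u z * w (T₁ z)) :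
    |ζ.im| ≤ 3 * ‖1 - ζ‖ ^ 2 + 8 * ∫ z, ‖w z - 1‖ ^ 2 ∂μ +
      (1/2) * ∫ z, ‖1 - u z‖ ^ 2 * (‖1 - ζ‖ + ‖w (T₁ z) - 1‖ + ‖w z - 1‖) ∂μ := by
  have hw1T : ∀ᵐ z ∂μ, ‖w (T₁ z)‖ = 1 := hT₁.quasiMeasurePreserving.ae hw1
  have hu1T : ∀ᵐ z ∂μ, ‖u (T₂ z)‖ = 1 := hT₂.quasiMeasurePreserving.ae hu1
  have hwT : AEStronglyMeasurable (fun z => w (T₁ z)) μ := hw.comp_measurePreserving hT₁
  have huT : AEStronglyMeasurable (fun z => u (T₂ z)) μ := hu.comp_measurePreserving hT₂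
  set e : Ω → ℂ := fun z => w z - 1 with he
  have hem : AEStronglyMeasurable e μ := hw.sub aestronglyMeasurable_const
  have heT : AEStronglyMeasurable (fun z => e (T₁ z)) μ := hem.comp_measurePreserving hT₁
  have he2 : ∀ᵐ z ∂μ, ‖e z‖ ≤ 2 := by
    filter_upwards [hw1] with z hz
    calc ‖w z - 1‖ ≤ ‖w z‖ + ‖(1:ℂ)‖ := norm_sub_le _ _
      _ = 2 := by rw [hz]; norm_num
  have he2T : ∀ᵐ z ∂μ, ‖e (T₁ z)‖ ≤ 2 := hT₁.quasiMeasurePreserving.ae he2
  have hu2 : ∀ᵐ z ∂μ, ‖1 - u z‖ ≤ 2 := by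
    filter_upwards [hu1] with z hz
    calc ‖1 - u z‖ ≤ ‖(1:ℂ)‖ + ‖u z‖ := norm_sub_le _ _
      _ = 2 := by rw [hz]; norm_num
  set D : Ω → ℂ := fun z => 1 - ζ * (w (T₁ z) * conj (w z)) with hD
  have hDm : AEStronglyMeasurable D μ := by
    apply aestronglyMeasurable_const.sub
    apply AEStronglyMeasurable.const_mul
    exact hwT.mul (Complex.continuous_conj.comp_aestronglyMeasurable hw)
  have hDb : ∀ᵐ z ∂μ, ‖D z‖ ≤ ‖1 - ζ‖ + ‖e (T₁ z)‖ + ‖e z‖ := by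
    filter_upwards [hw1] with z hz
    have hzz : w z * conj (w z) = 1 := by
      rw [Complex.mul_conj, Complex.normSq_eq_norm_sq, hz]; norm_num
    have h1 : D z = (1 - ζ) + ζ * (conj (w z) * (e z - e (T₁ z))) := by
      simp only [hD, he]
      linear_combination (-ζ) * hzz
    rw [h1]
    calc ‖(1 - ζ) + ζ * (conj (w z) * (e z - e (T₁ z)))‖ 
        ≤ ‖1 - ζ‖ + ‖ζ * (conj (w z) * (e z - e (T₁ z)))‖ := norm_add_le _ _
      _ = ‖1 - ζ‖ + ‖e z - e (T₁ z)‖ := by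
          rw [norm_mul, norm_mul, hζ, RCLike.norm_conj, hz]; ring
      _ ≤ ‖1 - ζ‖ + (‖e z‖ + ‖e (T₁ z)‖) := by gcongr; exact norm_sub_le _ _
      _ = _ := by ring
  have hζ2 : ‖1 - ζ‖ ≤ 2 := by
    calc ‖1 - ζ‖ ≤ ‖(1:ℂ)‖ + ‖ζ‖ := norm_sub_le _ _
      _ = 2 := by rw [hζ]; norm_num
  have hD6 : ∀ᵐ z ∂μ, ‖D z‖ ≤ 6 := by
    filter_upwards [hDb, he2, he2T] with z h1 h2 h3
    linarith
  have hDre : ∀ᵐ z ∂μ, (D z).re = ‖D z‖ ^ 2 / 2 := by
    filter_upwards [hw1, hw1T] with z h1 h2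
    apply re_one_sub_of_norm_one
    rw [norm_mul, norm_mul, hζ, h2, RCLike.norm_conj, h1]; norm_num
  -- integrability
  have hDi : Integrable D μ := integrable_of_bound hDm 6 hD6
  have hui : Integrable u μ := integrable_of_bound hu 1 (by filter_upwards [hu1] with z hz; exact hz.le)
  have huTi : Integrable (fun z => u (T₂ z)) μ := 
    integrable_of_bound huT 1 (by filter_upwards [hu1T] with z hz; exact hz.le)
  have huD : Integrable (fun z => u z * D z) μ := by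
    refine integrable_of_bound (f := fun z => u z * D z) (hu.mul hDm) 6 ?_
    filter_upwards [hu1, hD6] with z h1 h2
    rw [norm_mul, h1, one_mul]; exact h2
  -- step 1
  have step1 : ∫ z, u z * D z ∂μ = 0 := by
    have h1 : ∫ z, u z * D z ∂μ = ∫ z, (u z - u (T₂ z)) ∂μ := by
      apply integral_congr_ae
      filter_upwards [hrel, hw1] with z h1 h2
      have hzz : w z * conj (w z) = 1 := by
        rw [Complex.mul_conj, Complex.normSq_eq_norm_sq, h2]; norm_num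
      simp only [hD]
      linear_combination (conj (w z)) * h1 - u (T₂ z) * hzz
    rw [h1, integral_sub hui huTi, integral_comp_mp hT₂ hu, sub_self]
  -- step 2
  have h1uD : Integrable (fun z => (1 - u z) * D z) μ := by
    have : (fun z => (1 - u z) * D z) = fun z => D z - u z * D z := by ext z; ring
    rw [this]; exact hDi.sub huD
  have step2 : ∫ z, D z ∂μ = ∫ z, (1 - u z) * D z ∂μ := by
    have : (fun z => (1 - u z) * D z) = fun z => D z - u z * D z := by ext z; ring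
    rw [this, integral_sub hDi huD, step1, sub_zero]
  -- step 3
  have hInt1 : Integrable (fun z => ‖1 - u z‖ ^ 2 * ‖D z‖) μ := by
    refine integrable_of_bound (f := fun z => ‖1 - u z‖ ^ 2 * ‖D z‖)
      (((aestronglyMeasurable_const.sub hu).norm.pow 2).mul hDm.norm) (4 * 6) ?_
    filter_upwards [hu2, hD6] with z h1 h2
    rw [norm_mul, norm_pow, norm_norm, norm_norm]
    have := norm_nonneg (1 - u z)
    have : ‖1 - u z‖ ^ 2 ≤ 4 := by nlinarith
    gcongr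
  have hInt2 : Integrable (fun z => ‖D z‖ ^ 2) μ := by
    refine integrable_of_bound (f := fun z => ‖D z‖ ^ 2) (hDm.norm.pow 2) (6 ^ 2) ?_
    filter_upwards [hD6] with z h2
    rw [norm_pow, norm_norm]
    gcongr
  have step3 : |(∫ z, D z ∂μ).im| ≤ (1/2) * ∫ z, ‖1 - u z‖ ^ 2 * ‖D z‖ ∂μ + ∫ z, ‖D z‖ ^ 2 ∂μ := by
    rw [step2]
    have h1 : (∫ z, (1 - u z) * D z ∂μ).im = ∫ z, ((1 - u z) * D z).im ∂μ := by
      have := integral_im h1uD
      simpa using this.symm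
    rw [h1]
    calc |∫ z, ((1 - u z) * D z).im ∂μ| ≤ ∫ z, |((1 - u z) * D z).im| ∂μ := abs_integral_le_integral_abs
      _ ≤ ∫ z, ((1/2) * (‖1 - u z‖ ^ 2 * ‖D z‖) + ‖D z‖ ^ 2) ∂μ := by
          apply integral_mono_ae h1uD.im.abs ((hInt1.const_mul _).add hInt2)
          filter_upwards [hu1, hDre] with z h1 h2
          exact im_mul_bound h1 h2
      _ = _ := by
          rw [integral_add (hInt1.const_mul _) hInt2, integral_const_mul]
  -- step 4
  set N : ℝ := ∫ z, ‖e z‖ ^ 2 ∂μ with hN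
  have hei : Integrable e μ := integrable_of_bound hem 2 he2
  have heTi : Integrable (fun z => e (T₁ z)) μ := integrable_of_bound heT 2 he2T
  have hNi : Integrable (fun z => ‖e z‖ ^ 2) μ := by
    refine integrable_of_bound (f := fun z => ‖e z‖ ^ 2) (hem.norm.pow 2) (2 ^ 2) ?_
    filter_upwards [he2] with z h2
    rw [norm_pow, norm_norm]
    gcongr
  have hNTi : Integrable (fun z => ‖e (T₁ z)‖ ^ 2) μ := by
    refine integrable_of_bound (f := fun z => ‖e (T₁ z)‖ ^ 2) (heT.norm.pow 2) (2 ^ 2) ?_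
    filter_upwards [he2T] with z h2
    rw [norm_pow, norm_norm]
    gcongr
  have hNT : ∫ z, ‖e (T₁ z)‖ ^ 2 ∂μ = N := integral_comp_mp hT₁ (f := fun z => ‖e z‖ ^ 2) (hem.norm.pow 2)
  have hN0 : 0 ≤ N := integral_nonneg (fun z => by positivity)
  set J : ℂ := ∫ z, e (T₁ z) * conj (e z) ∂μ with hJ
  have hJi : Integrable (fun z => e (T₁ z) * conj (e z)) μ := by
    refine integrable_of_bound (f := fun z => e (T₁ z) * conj (e z))
      (heT.mul (Complex.continuous_conj.comp_aestronglyMeasurable hem)) (2 * 2) ?_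
    filter_upwards [he2, he2T] with z h1 h2
    rw [norm_mul, RCLike.norm_conj]
    gcongr
  have hJb : ‖J‖ ≤ N := by
    calc ‖J‖ ≤ ∫ z, ‖e (T₁ z) * conj (e z)‖ ∂μ := norm_integral_le_integral_norm _
      _ ≤ ∫ z, ((1/2) * ‖e (T₁ z)‖ ^ 2 + (1/2) * ‖e z‖ ^ 2) ∂μ := by
          refine integral_mono (g := fun z => (1/2) * ‖e (T₁ z)‖ ^ 2 + (1/2) * ‖e z‖ ^ 2)
            hJi.norm ((hNTi.const_mul _).add (hNi.const_mul _)) ?_
          intro z
          simp only [norm_mul, RCLike.norm_conj]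
          nlinarith [sq_nonneg (‖e (T₁ z)‖ - ‖e z‖)]
      _ = N := by
          rw [integral_add (hNTi.const_mul _) (hNi.const_mul _), integral_const_mul, integral_const_mul, hNT]
          ring
  have hconj : Integrable (fun z => conj (e z)) μ := by
    apply integrable_of_bound (Complex.continuous_conj.comp_aestronglyMeasurable hem) 2
    filter_upwards [he2] with z h1
    rw [RCLike.norm_conj]; exact h1
  have hre : ∫ z, e (T₁ z) ∂μ + ∫ z, conj (e z) ∂μ = ((-N : ℝ) : ℂ) := by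
    rw [integral_comp_mp hT₁ hem, ← integral_add hei hconj]
    have h1 : ∀ᵐ z ∂μ, e z + conj (e z) = ((-(‖e z‖ ^ 2) : ℝ) : ℂ) := by
      filter_upwards [hw1] with z hz
      have h2 := re_one_sub_of_norm_one hz
      have h3 : (1 - w z).re = - (e z).re := by simp [he]
      have h4 : ‖1 - w z‖ = ‖e z‖ := by rw [norm_sub_rev]
      rw [Complex.add_conj]
      congr 1
      rw [h3, h4] at h2
      linarith
    rw [integral_congr_ae h1]
    have h5 := integral_ofReal (𝕜 := ℂ) (μ := μ) (f := fun z => -(‖e z‖ ^ 2))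
    rw [integral_neg] at h5
    exact h5
  have step4 : ∫ z, D z ∂μ = 1 - ζ * (1 - (N:ℂ) + J) := by
    have h1 : ∀ z, D z = 1 - ζ * (1 + (e (T₁ z) + conj (e z)) + e (T₁ z) * conj (e z)) := by
      intro z
      simp only [hD, he, map_sub, map_one]
      ring
    have hi1 : Integrable (fun z => e (T₁ z) + conj (e z)) μ := heTi.add hconj
    have hi2 : Integrable (fun z => 1 + (e (T₁ z) + conj (e z))) μ := (integrable_const _).add hi1
    have hi3 : Integrable (fun z => 1 + (e (T₁ z) + conj (e z)) + e (T₁ z) * conj (e z)) μ := hi2.add hJi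
    simp_rw [h1]
    rw [integral_sub (integrable_const _) (hi3.const_mul _), integral_const_mul, integral_add hi2 hJi,
      integral_add (integrable_const _) hi1, integral_add heTi hconj, hre]
    simp only [integral_const, probReal_univ, one_smul]
    push_cast
    ring
  have step4' : |ζ.im| ≤ |(∫ z, D z ∂μ).im| + 2 * N := by
    have h1 : ζ.im = - (∫ z, D z ∂μ).im + ζ.im * N - (ζ * J).im := by
      rw [step4]
      simp [Complex.mul_im, Complex.add_im, Complex.sub_im]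
      ring
    have h2 : |(ζ * J).im| ≤ N := by
      calc |(ζ * J).im| ≤ ‖ζ * J‖ := Complex.abs_im_le_norm _
        _ = ‖J‖ := by rw [norm_mul, hζ, one_mul]
        _ ≤ N := hJb
    have h3 : |ζ.im * N| ≤ N := by
      rw [abs_mul, abs_of_nonneg hN0]
      have : |ζ.im| ≤ 1 := by rw [← hζ]; exact Complex.abs_im_le_norm ζ
      calc |ζ.im| * N ≤ 1 * N := by gcongr
        _ = N := one_mul N
    calc |ζ.im| = |- (∫ z, D z ∂μ).im + ζ.im * N - (ζ * J).im| := by rw [← h1]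
      _ ≤ |- (∫ z, D z ∂μ).im + ζ.im * N| + |(ζ * J).im| := abs_sub _ _
      _ ≤ (|- (∫ z, D z ∂μ).im| + |ζ.im * N|) + |(ζ * J).im| := by gcongr; exact abs_add_le _ _
      _ ≤ (|(∫ z, D z ∂μ).im| + N) + N := by rw [abs_neg]; gcongr
      _ = _ := by ring
  -- step 5
  have step5 : ∫ z, ‖D z‖ ^ 2 ∂μ ≤ 3 * ‖1 - ζ‖ ^ 2 + 6 * N := by
    calc ∫ z, ‖D z‖ ^ 2 ∂μ ≤ ∫ z, (3 * ‖1 - ζ‖ ^ 2 + (3 * ‖e (T₁ z)‖ ^ 2 + 3 * ‖e z‖ ^ 2)) ∂μ := by
          refine integral_mono_ae (g := fun z => 3 * ‖1 - ζ‖ ^ 2 + (3 * ‖e (T₁ z)‖ ^ 2 + 3 * ‖e z‖ ^ 2))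
            hInt2 ((integrable_const _).add ((hNTi.const_mul _).add (hNi.const_mul _))) ?_
          filter_upwards [hDb] with z h1
          have h2 := norm_nonneg (D z)
          have h3 : ‖D z‖ ^ 2 ≤ (‖1 - ζ‖ + ‖e (T₁ z)‖ + ‖e z‖) ^ 2 := by gcongr
          nlinarith [sq_nonneg (‖1 - ζ‖ - ‖e (T₁ z)‖), sq_nonneg (‖1 - ζ‖ - ‖e z‖), sq_nonneg (‖e (T₁ z)‖ - ‖e z‖)]
      _ = _ := by
          have hs : Integrable (fun z => 3 * ‖e (T₁ z)‖ ^ 2 + 3 * ‖e z‖ ^ 2) μ :=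
            (hNTi.const_mul _).add (hNi.const_mul _)
          rw [integral_add (integrable_const _) hs,
            integral_add (hNTi.const_mul _) (hNi.const_mul _), integral_const_mul, integral_const_mul,
            integral_const_mul, hNT, ← hN]
          simp only [integral_const, probReal_univ, one_smul]
          ring
  have hInt3 : Integrable (fun z => ‖1 - u z‖ ^ 2 * (‖1 - ζ‖ + ‖e (T₁ z)‖ + ‖e z‖)) μ := by
    refine integrable_of_bound (f := fun z => ‖1 - u z‖ ^ 2 * (‖1 - ζ‖ + ‖e (T₁ z)‖ + ‖e z‖))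
      (((aestronglyMeasurable_const.sub hu).norm.pow 2).mul 
      ((aestronglyMeasurable_const.add heT.norm).add hem.norm)) (4 * 6) ?_
    filter_upwards [hu2, he2, he2T] with z h1 h2 h3
    rw [norm_mul, norm_pow, norm_norm]
    have h5 : ‖1 - u z‖ ^ 2 ≤ 4 := by nlinarith [norm_nonneg (1 - u z)]
    have h4 : ‖‖1 - ζ‖ + ‖e (T₁ z)‖ + ‖e z‖‖ ≤ 6 := by
      rw [Real.norm_of_nonneg (by positivity)]
      linarith
    gcongr
  have step6 : ∫ z, ‖1 - u z‖ ^ 2 * ‖D z‖ ∂μ ≤ ∫ z, ‖1 - u z‖ ^ 2 * (‖1 - ζ‖ + ‖e (T₁ z)‖ + ‖e z‖) ∂μ := by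
    apply integral_mono_ae hInt1 hInt3
    filter_upwards [hDb] with z h1
    gcongr
  have := step3
  have := step4'
  linarith

end Pool.Agent.Helper67.BLT
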