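import Pool.Agent.Helper67.BLT.A1
import Pool.Agent.Helper67.BLT.A2

set_option autoImplicit false
open MeasureTheory Set Filter Submodule
open scoped ENNReal Topology ComplexConjugate

namespace Pool.Agent.Helper67.BLT

/-- phase of a complex number -/
noncomputable def ph (a : ℂ) : ℂ := a / (‖a‖ : ℂ)

lemma norm_ph {a : ℂ} (ha : a ≠ 0) : ‖ph a‖ = 1 := by
  unfold ph
  rw [norm_div, Complex.norm_real, norm_norm, div_self (norm_ne_zero_iff.2 ha)]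

lemma ph_sub_one {a : ℂ} (ha : a ≠ 0) : ‖ph a - 1‖ ≤ 2 * ‖a - 1‖ := by
  have hn : (‖a‖ : ℂ) ≠ 0 := by exact_mod_cast norm_ne_zero_iff.2 ha
  have h1 : ‖ph a - a‖ = |1 - ‖a‖| := by
    have : ph a - a = ph a * ((1 - ‖a‖ : ℝ) : ℂ) := by
      unfold ph
      push_cast
      field_simp
    rw [this, norm_mul, norm_ph ha, one_mul, Complex.norm_real, Real.norm_eq_abs]
  have h2 : |1 - ‖a‖| ≤ ‖a - 1‖ := by
    have := abs_norm_sub_norm_le (1:ℂ) a
    rwa [norm_one, norm_sub_rev] at this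
  calc ‖ph a - 1‖ = ‖(ph a - a) + (a - 1)‖ := by ring_nf
    _ ≤ ‖ph a - a‖ + ‖a - 1‖ := norm_add_le _ _
    _ ≤ ‖a - 1‖ + ‖a - 1‖ := by rw [h1]; gcongr
    _ = _ := by ring

lemma ph_mul (a b : ℂ) : ph (a * b) = ph a * ph b := by
  unfold ph
  rw [norm_mul]
  push_cast
  rw [mul_div_mul_comm]

lemma ph_of_norm_one {a : ℂ} (ha : ‖a‖ = 1) : ph a = a := by
  unfold ph; rw [ha]; simp

lemma measurable_ph : Measurable ph := by
  unfold ph; fun_prop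

section Abs

variable {Ω : Type*} [MeasurableSpace Ω] {μ : Measure Ω} [IsProbabilityMeasure μ]
  {A : Type*} [AddCommGroup A] {H : Type*} [NormedAddCommGroup H] [NormedSpace ℂ H]

/-- The data of a representation of `A` on `H` equivalent to multiplication by characters. -/
structure Rep (μ : Measure Ω) (A : Type*) [AddCommGroup A] (H : Type*) [NormedAddCommGroup H]
    [NormedSpace ℂ H] where
  E : A → Ω → ℂ
  e : A → Lp ℂ 2 μ
  V : Lp ℂ 2 μ ≃L[ℂ] H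
  ρ : A → H →L[ℂ] H
  hE1 : ∀ a z, ‖E a z‖ = 1
  hEadd : ∀ a b z, E (a + b) z = E a z * E b z
  he : ∀ a, (e a : Ω → ℂ) =ᵐ[μ] E a
  htot : (span ℂ (range e)).topologicalClosure = ⊤
  hρ : ∀ a b, ρ a (V (e b)) = V (e (a + b))

variable (R : Rep μ A H)

namespace Rep

/-- the generator -/
noncomputable def g : H := R.V (R.e 0)

/-- symbol -/
noncomputable def sym (f : H) : Ω → ℂ := (R.V.symm f : Lp ℂ 2 μ)

lemma E_ne (a : A) (z : Ω) : R.E a z ≠ 0 := by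
  have := R.hE1 a z
  intro h; rw [h] at this; simp at this

lemma E_zero (z : Ω) : R.E 0 z = 1 := by
  have := R.hEadd 0 0 z
  rw [add_zero] at this
  have h := R.E_ne 0 z
  have h2 : R.E 0 z * 1 = R.E 0 z * R.E 0 z := by rw [mul_one]; exact this
  exact (mul_left_cancel₀ h h2).symm

lemma sym_meas (f : H) : AEStronglyMeasurable (R.sym f) μ := (Lp.aestronglyMeasurable _)

lemma sym_memLp (f : H) : MemLp (R.sym f) 2 μ := Lp.memLp _

lemma sym_g : R.sym R.g =ᵐ[μ] fun _ => 1 := by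
  unfold sym g
  rw [ContinuousLinearEquiv.symm_apply_apply]
  filter_upwards [R.he 0] with z hz
  rw [hz, R.E_zero]

lemma sym_sub (f f' : H) : R.sym (f - f') =ᵐ[μ] fun z => R.sym f z - R.sym f' z := by
  unfold sym
  rw [map_sub]
  exact Lp.coeFn_sub _ _

lemma sym_add (f f' : H) : R.sym (f + f') =ᵐ[μ] fun z => R.sym f z + R.sym f' z := by
  unfold sym
  rw [map_add]
  exact Lp.coeFn_add _ _

lemma sym_smul (c : ℂ) (f : H) : R.sym (c • f) =ᵐ[μ] fun z => c * R.sym f z := by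
  unfold sym
  rw [map_smul]
  exact Lp.coeFn_smul _ _

/-- the norm of `V⁻¹` -/
noncomputable def K' : ℝ := ‖(R.V.symm : H →L[ℂ] Lp ℂ 2 μ)‖

lemma K'_nonneg : 0 ≤ R.K' := norm_nonneg _

lemma norm_symm_le (f : H) : ‖R.V.symm f‖ ≤ R.K' * ‖f‖ := (R.V.symm : H →L[ℂ] Lp ℂ 2 μ).le_opNorm f

/-- integral of the square of the symbol -/
lemma integral_sym_sq (f : H) : ∫ z, ‖R.sym f z‖ ^ 2 ∂μ = ‖R.V.symm f‖ ^ 2 := by
  unfold sym
  have h := L2.integral_inner_eq_sq_eLpNorm (𝕜 := ℂ) (R.V.symm f)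
  rw [Lp.norm_def]
  have h2 : ∀ z, ‖(R.V.symm f : Ω → ℂ) z‖ ^ 2 = RCLike.re (inner ℂ ((R.V.symm f : Ω → ℂ) z) ((R.V.symm f : Ω → ℂ) z)) := by
    intro z
    rw [inner_self_eq_norm_sq]
  simp_rw [h2]
  rw [integral_re (L2.integrable_inner (𝕜 := ℂ) (R.V.symm f) (R.V.symm f))]
  rw [h]
  have hfin : eLpNorm (R.V.symm f : Ω → ℂ) 2 μ ≠ ⊤ := Lp.eLpNorm_ne_top _
  have h3 : ∫⁻ a, (‖(R.V.symm f : Ω → ℂ) a‖₊ : ℝ≥0∞) ^ (2:ℝ) ∂μ = eLpNorm (R.V.symm f : Ω → ℂ) 2 μ ^ 2 := by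
    rw [eLpNorm_eq_lintegral_rpow_enorm_toReal (by norm_num) (by norm_num)]
    simp only [ENNReal.toReal_ofNat, one_div]
    rw [← ENNReal.rpow_natCast, ← ENNReal.rpow_mul]
    norm_num
    rfl
  rw [h3, ENNReal.toReal_pow]
  simp only [RCLike.re_to_complex]
  norm_cast

lemma integral_sym_sq_le (f : H) : ∫ z, ‖R.sym f z‖ ^ 2 ∂μ ≤ R.K' ^ 2 * ‖f‖ ^ 2 := by
  rw [R.integral_sym_sq, ← mul_pow]
  have := R.norm_symm_le f
  gcongr

lemma integrable_sym_sq (f : H) : Integrable (fun z => ‖R.sym f z‖ ^ 2) μ :=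
  (R.sym_memLp f).integrable_norm_pow (by norm_num)

lemma integrable_sym (f : H) : Integrable (R.sym f) μ :=
  (R.sym_memLp f).integrable (by norm_num)

lemma integral_sym_le (f : H) : ∫ z, ‖R.sym f z‖ ∂μ ≤ R.K' * ‖f‖ := by
  have h1 : (∫ z, ‖R.sym f z‖ ∂μ) ^ 2 ≤ ∫ z, ‖R.sym f z‖ ^ 2 ∂μ := by
    have h2 : 0 ≤ ∫ z, (‖R.sym f z‖ - ∫ y, ‖R.sym f y‖ ∂μ) ^ 2 ∂μ := integral_nonneg (fun z => sq_nonneg _)
    have h3 : ∀ z, (‖R.sym f z‖ - ∫ y, ‖R.sym f y‖ ∂μ) ^ 2 = ‖R.sym f z‖ ^ 2 - 2 * (∫ y, ‖R.sym f y‖ ∂μ) * ‖R.sym f z‖ + (∫ y, ‖R.sym f y‖ ∂μ) ^ 2 := by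
      intro z; ring
    simp_rw [h3] at h2
    have hi1 : Integrable (fun z => 2 * (∫ y, ‖R.sym f y‖ ∂μ) * ‖R.sym f z‖) μ := (R.integrable_sym f).norm.const_mul _
    have hi2 : Integrable (fun z => ‖R.sym f z‖ ^ 2 - 2 * (∫ y, ‖R.sym f y‖ ∂μ) * ‖R.sym f z‖) μ :=
      (R.integrable_sym_sq f).sub hi1
    rw [integral_add hi2 (integrable_const _), integral_sub (R.integrable_sym_sq f) hi1,
      integral_const_mul] at h2
    simp only [integral_const, probReal_univ, one_smul] at h2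
    nlinarith
  have h4 : (∫ z, ‖R.sym f z‖ ∂μ) ^ 2 ≤ (R.K' * ‖f‖) ^ 2 := by
    rw [mul_pow]; exact h1.trans (R.integral_sym_sq_le f)
  exact le_of_sq_le_sq h4 (mul_nonneg R.K'_nonneg (norm_nonneg _))

/-- multiplication by characters -/
lemma rho_apply (a : A) (F : Lp ℂ 2 μ) :
    (R.V.symm (R.ρ a (R.V F)) : Ω → ℂ) =ᵐ[μ] fun z => R.E a z * (F : Ω → ℂ) z := by
  have h := ae_eq_mul_comp R.e R.htot
    ((R.V.symm : H →L[ℂ] Lp ℂ 2 μ).comp ((R.ρ a).comp (R.V : Lp ℂ 2 μ →L[ℂ] H))) id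
    (MeasurePreserving.id μ) (R.E a) (by
      intro b
      simp only [ContinuousLinearMap.comp_apply, ContinuousLinearEquiv.coe_coe, R.hρ,
        ContinuousLinearEquiv.symm_apply_apply, id]
      filter_upwards [R.he b, R.he (a + b)] with z h1 h2
      rw [h1, h2, R.hEadd]) F
  simpa using h

end Rep

/-- A unitary operator on `H` which commutes with the representation up to a character, and acts
as a translation `T` on the base. -/
structure Shift (R : Rep μ A H) where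
  U : H ≃ₗᵢ[ℂ] H
  T : Ω ≃ᵐ Ω
  hT : MeasurePreserving T μ μ
  χ : A → ℂ
  hχ : ∀ a, ‖χ a‖ = 1
  hE : ∀ a z, R.E a (T z) = χ a * R.E a z
  hU : ∀ a f, U (R.ρ a f) = χ a • R.ρ a (U f)

namespace Shift

variable {R} (S : Shift R)

/-- the cocycle -/
noncomputable def u : Ω → ℂ := R.sym (S.U R.g)

lemma u_meas : AEStronglyMeasurable S.u μ := R.sym_meas _

/-- the conjugated operator -/
noncomputable def op : Lp ℂ 2 μ →L[ℂ] Lp ℂ 2 μ :=
  (R.V.symm : H →L[ℂ] Lp ℂ 2 μ).comp ((S.U.toContinuousLinearEquiv : H →L[ℂ] H).comp (R.V : Lp ℂ 2 μ →L[ℂ] H))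

lemma op_apply (F : Lp ℂ 2 μ) : S.op F = R.V.symm (S.U (R.V F)) := rfl

lemma apply (F : Lp ℂ 2 μ) :
    (R.V.symm (S.U (R.V F)) : Ω → ℂ) =ᵐ[μ] fun z => S.u z * (F : Ω → ℂ) (S.T z) := by
  have h := ae_eq_mul_comp R.e R.htot S.op S.T S.hT S.u (by
      intro a
      rw [op_apply]
      have h1 : R.V (R.e a) = R.ρ a R.g := by
        unfold Rep.g
        rw [R.hρ, add_zero]
      rw [h1, S.hU, map_smul]
      have h2 := R.rho_apply a (R.V.symm (S.U R.g))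
      rw [ContinuousLinearEquiv.apply_symm_apply] at h2
      have h3 := Lp.coeFn_smul (S.χ a) (R.V.symm (R.ρ a (S.U R.g)))
      have h4 := S.hT.quasiMeasurePreserving.ae (R.he a)
      filter_upwards [h2, h3, h4] with z h2 h3 h4
      rw [h3, Pi.smul_apply, h2, h4, S.hE, smul_eq_mul]
      unfold u Rep.sym
      ring) F
  rw [op_apply] at h
  exact h

/-- uniform bound for cocycles -/
noncomputable def bd (R : Rep μ A H) : ℝ := R.K' * ‖(R.V : Lp ℂ 2 μ →L[ℂ] H)‖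

lemma bd_nonneg (R : Rep μ A H) : 0 ≤ bd R := mul_nonneg R.K'_nonneg (norm_nonneg _)

lemma op_norm_le : ‖S.op‖ ≤ bd R := by
  apply ContinuousLinearMap.opNorm_le_bound _ (bd_nonneg R)
  intro F
  rw [op_apply]
  calc ‖R.V.symm (S.U (R.V F))‖ ≤ R.K' * ‖S.U (R.V F)‖ := R.norm_symm_le _
    _ = R.K' * ‖R.V F‖ := by rw [S.U.norm_map]
    _ ≤ R.K' * (‖(R.V : Lp ℂ 2 μ →L[ℂ] H)‖ * ‖F‖) := by
        have := R.K'_nonneg
        gcongr
        exact (R.V : Lp ℂ 2 μ →L[ℂ] H).le_opNorm F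
    _ = _ := by unfold bd; ring

lemma u_bound : ∀ᵐ z ∂μ, ‖S.u z‖ ≤ bd R :=
  norm_le_of_mul_comp_bound S.op S.T S.hT S.u S.u_meas S.apply (bd R) (bd_nonneg R) S.op_norm_le

/-- inverse shift -/
noncomputable def inv : Shift R where
  U := S.U.symm
  T := S.T.symm
  hT := S.hT.symm S.T
  χ := fun a => (S.χ a)⁻¹
  hχ := fun a => by rw [norm_inv, S.hχ, inv_one]
  hE := by
    intro a z
    have h := S.hE a (S.T.symm z)
    rw [MeasurableEquiv.apply_symm_apply] at h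
    have hne : S.χ a ≠ 0 := by
      have := S.hχ a
      intro h0; rw [h0] at this; simp at this
    rw [h]
    field_simp
  hU := by
    intro a f
    have hne : S.χ a ≠ 0 := by
      have := S.hχ a
      intro h0; rw [h0] at this; simp at this
    have h := S.hU a (S.U.symm f)
    rw [LinearIsometryEquiv.apply_symm_apply] at h
    have h2 : R.ρ a (S.U.symm f) = S.χ a • S.U.symm (R.ρ a f) := by
      rw [← map_smul, ← h, LinearIsometryEquiv.symm_apply_apply]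
    rw [h2, smul_smul, inv_mul_cancel₀ hne, one_smul]

lemma u_ne : ∀ᵐ z ∂μ, S.u z ≠ 0 := by
  have h1 := S.apply (R.V.symm (S.U.symm R.g))
  rw [ContinuousLinearEquiv.apply_symm_apply, LinearIsometryEquiv.apply_symm_apply] at h1
  filter_upwards [h1, R.sym_g] with z h1 h2
  intro h0
  rw [h0, zero_mul] at h1
  unfold Rep.sym at h2
  rw [h1] at h2
  exact zero_ne_one h2

/-- cocycle relation -/
lemma relation (S W : Shift R) (ζ : ℂ) (h : W.U (S.U R.g) = ζ • S.U (W.U R.g)) :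
    ∀ᵐ z ∂μ, W.u z * S.u (W.T z) = ζ * S.u z * W.u (S.T z) := by
  have h1 := W.apply (R.V.symm (S.U R.g))
  have h2 := S.apply (R.V.symm (W.U R.g))
  rw [ContinuousLinearEquiv.apply_symm_apply] at h1 h2
  rw [h, map_smul] at h1
  have h3 := Lp.coeFn_smul ζ (R.V.symm (S.U (W.U R.g)))
  filter_upwards [h1, h2, h3] with z h1 h2 h3
  have h4 : (R.V.symm (S.U R.g) : Ω → ℂ) (W.T z) = S.u (W.T z) := rfl
  have h5 : (R.V.symm (W.U R.g) : Ω → ℂ) (S.T z) = W.u (S.T z) := rfl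
  rw [h4] at h1
  rw [h5] at h2
  rw [← h1, h3, Pi.smul_apply, h2, smul_eq_mul, mul_assoc]

/-- relation for phases -/
lemma relation_ph (S W : Shift R) (ζ : ℂ) (hζ : ‖ζ‖ = 1) (h : W.U (S.U R.g) = ζ • S.U (W.U R.g)) :
    ∀ᵐ z ∂μ, ph (W.u z) * ph (S.u (W.T z)) = ζ * ph (S.u z) * ph (W.u (S.T z)) := by
  filter_upwards [relation S W ζ h] with z hz
  rw [← ph_mul, hz, ph_mul, ph_mul, ph_of_norm_one hζ]

/-- `‖1 - ph u‖²` integral -/
noncomputable def En : ℝ := ∫ z, ‖1 - ph (S.u z)‖ ^ 2 ∂μ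

lemma ph_u_meas : AEStronglyMeasurable (fun z => ph (S.u z)) μ :=
  (measurable_ph.comp_aemeasurable S.u_meas.aemeasurable).aestronglyMeasurable

lemma norm_ph_u : ∀ᵐ z ∂μ, ‖ph (S.u z)‖ = 1 := by
  filter_upwards [S.u_ne] with z hz
  exact norm_ph hz

lemma u_sub_one : ∀ᵐ z ∂μ, S.u z - 1 = R.sym (S.U R.g - R.g) z := by
  filter_upwards [R.sym_sub (S.U R.g) R.g, R.sym_g] with z h1 h2
  rw [h1, h2]; rfl

lemma ph_u_sub_one : ∀ᵐ z ∂μ, ‖ph (S.u z) - 1‖ ≤ 2 * ‖R.sym (S.U R.g - R.g) z‖ := by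
  filter_upwards [S.u_ne, S.u_sub_one] with z h1 h2
  rw [← h2]
  exact ph_sub_one h1

lemma ph_two : ∀ᵐ z ∂μ, ‖1 - ph (S.u z)‖ ≤ 2 := by
  filter_upwards [S.norm_ph_u] with z hz
  calc ‖1 - ph (S.u z)‖ ≤ ‖(1:ℂ)‖ + ‖ph (S.u z)‖ := norm_sub_le _ _
    _ = 2 := by rw [hz]; norm_num

lemma En_nonneg : 0 ≤ S.En := integral_nonneg (fun z => by positivity)

lemma integrable_En : Integrable (fun z => ‖1 - ph (S.u z)‖ ^ 2) μ := by
  refine integrable_of_bound (f := fun z => ‖1 - ph (S.u z)‖ ^ 2)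
    ((aestronglyMeasurable_const.sub S.ph_u_meas).norm.pow 2) (2 ^ 2) ?_
  filter_upwards [S.ph_two] with z hz
  rw [norm_pow, norm_norm]
  gcongr

lemma En_le : S.En ≤ 4 * R.K' ^ 2 * ‖S.U R.g - R.g‖ ^ 2 := by
  unfold En
  calc ∫ z, ‖1 - ph (S.u z)‖ ^ 2 ∂μ ≤ ∫ z, 4 * ‖R.sym (S.U R.g - R.g) z‖ ^ 2 ∂μ := by
        apply integral_mono_ae S.integrable_En ((R.integrable_sym_sq _).const_mul 4)
        filter_upwards [S.ph_u_sub_one] with z hz
        rw [norm_sub_rev]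
        have h0 := norm_nonneg (ph (S.u z) - 1)
        calc ‖ph (S.u z) - 1‖ ^ 2 ≤ (2 * ‖R.sym (S.U R.g - R.g) z‖) ^ 2 := by gcongr
          _ = _ := by ring
    _ = 4 * ∫ z, ‖R.sym (S.U R.g - R.g) z‖ ^ 2 ∂μ := integral_const_mul _ _
    _ ≤ 4 * (R.K' ^ 2 * ‖S.U R.g - R.g‖ ^ 2) := by gcongr; exact R.integral_sym_sq_le _
    _ = _ := by ring

end Shift

end Abs

end Pool.Agent.Helper67.BLT
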