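import Pool.Agent.Helper67.BLT.A3

set_option autoImplicit false
open MeasureTheory Set Filter Submodule
open scoped ENNReal Topology ComplexConjugate

namespace Pool.Agent.Helper67.BLT

variable {Ω : Type*} [MeasurableSpace Ω] {μ : Measure Ω} [IsProbabilityMeasure μ]
  {A : Type*} [AddCommGroup A] {H : Type*} [NormedAddCommGroup H] [NormedSpace ℂ H]
  {R : Rep μ A H}

namespace Shift

variable (S : Shift R)

/-- weighted integral of symbols -/
noncomputable def Phi (f : H) : ℝ := ∫ z, ‖1 - ph (S.u z)‖ ^ 2 * (‖R.sym f (S.T z)‖ + ‖R.sym f z‖) ∂μ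

lemma sym_T_meas (f : H) : AEStronglyMeasurable (fun z => R.sym f (S.T z)) μ :=
  (R.sym_meas f).comp_measurePreserving S.hT

lemma integrable_sym_T (f : H) : Integrable (fun z => R.sym f (S.T z)) μ := by
  have h := (S.hT.integrable_comp (R.sym_meas f)).2 (R.integrable_sym f)
  exact h

lemma sq_le_four : ∀ᵐ z ∂μ, ‖1 - ph (S.u z)‖ ^ 2 ≤ 4 := by
  filter_upwards [S.ph_two] with z hz
  have := norm_nonneg (1 - ph (S.u z))
  nlinarith

lemma integrable_Phi_aux (F : Ω → ℝ) (hF : Integrable F μ) :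
    Integrable (fun z => ‖1 - ph (S.u z)‖ ^ 2 * F z) μ := by
  refine Integrable.bdd_mul (c := 4) hF ((aestronglyMeasurable_const.sub S.ph_u_meas).norm.pow 2) ?_
  filter_upwards [S.sq_le_four] with z hz
  change ‖‖1 - ph (S.u z)‖ ^ 2‖ ≤ 4
  rw [Real.norm_of_nonneg (by positivity)]
  exact hz

lemma integrable_Phi (f : H) :
    Integrable (fun z => ‖1 - ph (S.u z)‖ ^ 2 * (‖R.sym f (S.T z)‖ + ‖R.sym f z‖)) μ :=
  S.integrable_Phi_aux _ ((S.integrable_sym_T f).norm.add (R.integrable_sym f).norm)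

lemma Phi_add_le (f f' : H) : S.Phi (f + f') ≤ S.Phi f + S.Phi f' := by
  unfold Phi
  rw [← integral_add (S.integrable_Phi f) (S.integrable_Phi f')]
  apply integral_mono_ae (S.integrable_Phi _) ((S.integrable_Phi f).add (S.integrable_Phi f'))
  have h1 := R.sym_add f f'
  have h2 := S.hT.quasiMeasurePreserving.ae h1
  filter_upwards [h1, h2] with z h1 h2
  change _ ≤ ‖1 - ph (S.u z)‖ ^ 2 * (‖R.sym f (S.T z)‖ + ‖R.sym f z‖) +
    ‖1 - ph (S.u z)‖ ^ 2 * (‖R.sym f' (S.T z)‖ + ‖R.sym f' z‖)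
  rw [h1, h2, ← mul_add]
  apply mul_le_mul_of_nonneg_left _ (by positivity)
  have h3 := norm_add_le (R.sym f (S.T z)) (R.sym f' (S.T z))
  have h4 := norm_add_le (R.sym f z) (R.sym f' z)
  linarith

lemma Phi_smul (c : ℂ) (f : H) : S.Phi (c • f) = ‖c‖ * S.Phi f := by
  unfold Phi
  rw [← integral_const_mul]
  apply integral_congr_ae
  have h1 := R.sym_smul c f
  have h2 := S.hT.quasiMeasurePreserving.ae h1
  filter_upwards [h1, h2] with z h1 h2
  rw [h1, h2, norm_mul, norm_mul]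
  ring

lemma Phi_le_norm (f : H) : S.Phi f ≤ 8 * R.K' * ‖f‖ := by
  unfold Phi
  calc ∫ z, ‖1 - ph (S.u z)‖ ^ 2 * (‖R.sym f (S.T z)‖ + ‖R.sym f z‖) ∂μ
      ≤ ∫ z, 4 * (‖R.sym f (S.T z)‖ + ‖R.sym f z‖) ∂μ := by
        apply integral_mono_ae (S.integrable_Phi f) 
          (((S.integrable_sym_T f).norm.add (R.integrable_sym f).norm).const_mul 4)
        filter_upwards [S.sq_le_four] with z hz
        change _ ≤ 4 * (‖R.sym f (S.T z)‖ + ‖R.sym f z‖)
        gcongr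
    _ = 4 * (∫ z, ‖R.sym f z‖ ∂μ + ∫ z, ‖R.sym f z‖ ∂μ) := by
        rw [integral_const_mul, integral_add (S.integrable_sym_T f).norm (R.integrable_sym f).norm]
        rw [integral_comp_mp S.hT (f := fun z => ‖R.sym f z‖) (R.sym_meas f).norm]
    _ ≤ 4 * (R.K' * ‖f‖ + R.K' * ‖f‖) := by
        have := R.integral_sym_le f
        gcongr
    _ = _ := by ring

lemma Phi_le_bdd (f : H) (B : ℝ) (hB : ∀ᵐ z ∂μ, ‖R.sym f z‖ ≤ B) : S.Phi f ≤ 2 * B * S.En := by
  unfold Phi En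
  rw [← integral_const_mul]
  apply integral_mono_ae (S.integrable_Phi f) (S.integrable_En.const_mul _)
  have h2 := S.hT.quasiMeasurePreserving.ae hB
  filter_upwards [hB, h2] with z h1 h2
  have h3 : 0 ≤ ‖1 - ph (S.u z)‖ ^ 2 := by positivity
  calc ‖1 - ph (S.u z)‖ ^ 2 * (‖R.sym f (S.T z)‖ + ‖R.sym f z‖) 
      ≤ ‖1 - ph (S.u z)‖ ^ 2 * (B + B) := by gcongr
    _ = _ := by ring

lemma Phi_le_cs (f : H) : S.Phi f ≤ 4 * Real.sqrt S.En * (R.K' * ‖f‖) := by
  -- AM-GM with parameter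
  have hmain : ∀ c : ℝ, 0 < c → S.Phi f ≤ 2 * (c * S.En + (1 / c) * (R.K' * ‖f‖) ^ 2) := by
    intro c hc
    have hsT : Integrable (fun z => ‖R.sym f (S.T z)‖ ^ 2) μ :=
      (S.hT.integrable_comp (R.integrable_sym_sq f).aestronglyMeasurable).2 (R.integrable_sym_sq f)
    have hi : Integrable (fun z => c * ‖1 - ph (S.u z)‖ ^ 2 * 2 + ((1 / c) * ‖R.sym f (S.T z)‖ ^ 2 + (1 / c) * ‖R.sym f z‖ ^ 2)) μ :=
      ((S.integrable_En.const_mul c).mul_const 2).add ((hsT.const_mul _).add ((R.integrable_sym_sq f).const_mul _))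
    calc S.Phi f ≤ ∫ z, (c * ‖1 - ph (S.u z)‖ ^ 2 * 2 + ((1 / c) * ‖R.sym f (S.T z)‖ ^ 2 + (1 / c) * ‖R.sym f z‖ ^ 2)) ∂μ := by
          unfold Phi
          apply integral_mono_ae (S.integrable_Phi f) hi
          filter_upwards [S.ph_two] with z hz
          have h0 := norm_nonneg (1 - ph (S.u z))
          have key : ∀ y : ℝ, 0 ≤ y → ‖1 - ph (S.u z)‖ ^ 2 * y ≤ c * ‖1 - ph (S.u z)‖ ^ 2 + (1 / c) * y ^ 2 := by
            intro y hy
            have h1 : ‖1 - ph (S.u z)‖ ^ 2 * y ≤ 2 * (‖1 - ph (S.u z)‖ * y) := by nlinarith [mul_nonneg h0 hy]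
            have h2 : 2 * (‖1 - ph (S.u z)‖ * y) ≤ c * ‖1 - ph (S.u z)‖ ^ 2 + (1 / c) * y ^ 2 := by
              have h3 : c * ‖1 - ph (S.u z)‖ ^ 2 + (1 / c) * y ^ 2 - 2 * (‖1 - ph (S.u z)‖ * y) = (1 / c) * (c * ‖1 - ph (S.u z)‖ - y) ^ 2 := by
                field_simp
                ring
              have h4 : 0 ≤ (1 / c) * (c * ‖1 - ph (S.u z)‖ - y) ^ 2 := by positivity
              linarith
            exact h1.trans h2
          have k1 := key _ (norm_nonneg (R.sym f (S.T z)))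
          have k2 := key _ (norm_nonneg (R.sym f z))
          nlinarith
      _ = c * S.En * 2 + ((1 / c) * ∫ z, ‖R.sym f z‖ ^ 2 ∂μ + (1 / c) * ∫ z, ‖R.sym f z‖ ^ 2 ∂μ) := by
          have hi2 : Integrable (fun z => (1 / c) * ‖R.sym f (S.T z)‖ ^ 2 + (1 / c) * ‖R.sym f z‖ ^ 2) μ :=
            (hsT.const_mul _).add ((R.integrable_sym_sq f).const_mul _)
          rw [integral_add ((S.integrable_En.const_mul c).mul_const 2) hi2,
            integral_add (hsT.const_mul _) ((R.integrable_sym_sq f).const_mul _), integral_mul_const,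
            integral_const_mul, integral_const_mul, integral_const_mul,
            integral_comp_mp S.hT (f := fun z => ‖R.sym f z‖ ^ 2) ((R.sym_meas f).norm.pow 2)]
          rfl
      _ ≤ c * S.En * 2 + ((1 / c) * (R.K' ^ 2 * ‖f‖ ^ 2) + (1 / c) * (R.K' ^ 2 * ‖f‖ ^ 2)) := by
          have := R.integral_sym_sq_le f
          gcongr
      _ = _ := by ring
  have hE := S.En_nonneg
  have hb : 0 ≤ R.K' * ‖f‖ := mul_nonneg R.K'_nonneg (norm_nonneg _)
  set a := Real.sqrt S.En with ha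
  have ha0 : 0 ≤ a := Real.sqrt_nonneg _
  have ha2 : S.En = a ^ 2 := (Real.sq_sqrt hE).symm
  set b := R.K' * ‖f‖ with hbdef
  rw [ha2] at hmain
  -- limit as parameters degenerate
  have h1 : ∀ δ : ℝ, 0 < δ → S.Phi f ≤ 2 * ((b + δ) * (a + δ)  + (a + δ) * (b + δ)) := by
    intro δ hδ
    have hc : 0 < (b + δ) / (a + δ) := by positivity
    refine (hmain _ hc).trans ?_
    have e1 : (b + δ) / (a + δ) * a ^ 2 ≤ (b + δ) * (a + δ) := by
      rw [div_mul_eq_mul_div, div_le_iff₀ (by positivity)]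
      have : a ^ 2 ≤ (a + δ) ^ 2 := by gcongr; linarith
      nlinarith [mul_nonneg (by positivity : 0 ≤ b + δ) (sub_nonneg.2 this)]
    have e2 : 1 / ((b + δ) / (a + δ)) * b ^ 2 ≤ (a + δ) * (b + δ) := by
      rw [one_div_div, div_mul_eq_mul_div, div_le_iff₀ (by positivity)]
      have : b ^ 2 ≤ (b + δ) ^ 2 := by gcongr; linarith
      nlinarith [mul_nonneg (by positivity : 0 ≤ a + δ) (sub_nonneg.2 this)]
    linarith
  have h2 : Tendsto (fun δ : ℝ => 2 * ((b + δ) * (a + δ)  + (a + δ) * (b + δ))) (𝓝[>] 0) (𝓝 (2 * ((b + 0) * (a + 0)  + (a + 0) * (b + 0)))) := by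
    apply Tendsto.mono_left _ nhdsWithin_le_nhds
    apply Continuous.tendsto
    fun_prop
  have h3 : S.Phi f ≤ 2 * ((b + 0) * (a + 0)  + (a + 0) * (b + 0)) := by
    apply ge_of_tendsto h2
    filter_upwards [self_mem_nhdsWithin] with δ hδ
    exact h1 δ hδ
  calc S.Phi f ≤ _ := h3
    _ = _ := by ring

/-- Inequality for one pair of shifts. -/
lemma ineq_one (W : Shift R) (ζ : ℂ) (hζ : ‖ζ‖ = 1) (h : W.U (S.U R.g) = ζ • S.U (W.U R.g)) :
    |ζ.im| ≤ 3 * ‖1 - ζ‖ ^ 2 + 32 * R.K' ^ 2 * ‖W.U R.g - R.g‖ ^ 2 + (1/2) * ‖1 - ζ‖ * S.En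
      + S.Phi (W.U R.g - R.g) := by
  have hcore := core (fun z => ph (S.u z)) (fun z => ph (W.u z)) S.ph_u_meas W.ph_u_meas
    S.norm_ph_u W.norm_ph_u S.T W.T S.hT W.hT ζ hζ (relation_ph S W ζ hζ h)
  have h1 : ∫ z, ‖ph (W.u z) - 1‖ ^ 2 ∂μ ≤ 4 * R.K' ^ 2 * ‖W.U R.g - R.g‖ ^ 2 := by
    have := W.En_le
    unfold En at this
    simp_rw [norm_sub_rev (1:ℂ)] at this
    exact this
  have h2 : ∫ z, ‖1 - ph (S.u z)‖ ^ 2 * (‖1 - ζ‖ + ‖ph (W.u (S.T z)) - 1‖ + ‖ph (W.u z) - 1‖) ∂μ ≤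
      ‖1 - ζ‖ * S.En + 2 * S.Phi (W.U R.g - R.g) := by
    have hWi : Integrable (fun z => ‖ph (W.u z) - 1‖) μ := by
      refine integrable_of_bound (f := fun z => ‖ph (W.u z) - 1‖) (W.ph_u_meas.sub aestronglyMeasurable_const).norm 2 ?_
      filter_upwards [W.ph_two] with z hz
      rw [norm_norm, norm_sub_rev]; exact hz
    have hWTi : Integrable (fun z => ‖ph (W.u (S.T z)) - 1‖) μ :=
      (S.hT.integrable_comp hWi.aestronglyMeasurable).2 hWi
    have hL : Integrable (fun z => ‖1 - ph (S.u z)‖ ^ 2 * (‖1 - ζ‖ + ‖ph (W.u (S.T z)) - 1‖ + ‖ph (W.u z) - 1‖)) μ :=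
      S.integrable_Phi_aux _ (((integrable_const _).add hWTi).add hWi)
    unfold En Phi
    rw [← integral_const_mul, ← integral_const_mul, ← integral_add (S.integrable_En.const_mul _) ((S.integrable_Phi _).const_mul 2)]
    apply integral_mono_ae hL ((S.integrable_En.const_mul _).add ((S.integrable_Phi _).const_mul 2))
    have h3 := W.ph_u_sub_one
    have h4 := S.hT.quasiMeasurePreserving.ae h3
    filter_upwards [h3, h4] with z h3 h4
    simp only [Pi.add_apply]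
    have h5 : 0 ≤ ‖1 - ph (S.u z)‖ ^ 2 := by positivity
    calc ‖1 - ph (S.u z)‖ ^ 2 * (‖1 - ζ‖ + ‖ph (W.u (S.T z)) - 1‖ + ‖ph (W.u z) - 1‖) 
        ≤ ‖1 - ph (S.u z)‖ ^ 2 * (‖1 - ζ‖ + 2 * ‖R.sym (W.U R.g - R.g) (S.T z)‖ + 2 * ‖R.sym (W.U R.g - R.g) z‖) := by
          gcongr
      _ = _ := by ring
  linarith

/-- Limit inequality. -/
theorem ineq_limit (t : ℝ) (W : ℕ → Shift R) (τ : ℕ → ℝ) (hτ : ∀ n, 0 < τ n)
    (hτ0 : Tendsto τ atTop (𝓝 0))
    (h : ∀ n, (W n).U (S.U R.g) = Complex.exp (2 * Real.pi * Complex.I * (τ n * t)) • S.U ((W n).U R.g))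
    (Y : H) (hY : Tendsto (fun n => ((τ n : ℂ)⁻¹) • ((W n).U R.g - R.g)) atTop (𝓝 Y)) :
    2 * Real.pi * |t| ≤ Real.pi * |t| * S.En + S.Phi Y := by
  set y : ℕ → H := fun n => ((τ n : ℂ)⁻¹) • ((W n).U R.g - R.g) with hy
  have hyn : ∀ n, (W n).U R.g - R.g = (τ n : ℂ) • y n := by
    intro n
    have : (τ n : ℂ) ≠ 0 := by exact_mod_cast (hτ n).ne'
    rw [hy]
    simp only
    rw [smul_smul, mul_inv_cancel₀ this, one_smul]
  have hnormτ : ∀ n, ‖(τ n : ℂ)‖ = τ n := by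
    intro n
    rw [Complex.norm_real, Real.norm_of_nonneg (hτ n).le]
  have key : ∀ n, |Real.sin (2 * Real.pi * (τ n * t))| / τ n ≤
      3 * (2 * Real.pi * |t|) ^ 2 * τ n + 32 * R.K' ^ 2 * ‖y n‖ ^ 2 * τ n + Real.pi * |t| * S.En
      + (S.Phi Y + 8 * R.K' * ‖y n - Y‖) := by
    intro n
    have hζ1 : ‖Complex.exp (2 * Real.pi * Complex.I * (τ n * t))‖ = 1 := by
      have : (2 * Real.pi * Complex.I * (τ n * t) : ℂ) = ((2 * Real.pi * (τ n * t) : ℝ) : ℂ) * Complex.I := by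
        push_cast; ring
      rw [this, Complex.norm_exp_ofReal_mul_I]
    have h1 := S.ineq_one (W n) _ hζ1 (h n)
    have him : (Complex.exp (2 * Real.pi * Complex.I * (τ n * t))).im = Real.sin (2 * Real.pi * (τ n * t)) := by
      have : (2 * Real.pi * Complex.I * (τ n * t) : ℂ) = ((2 * Real.pi * (τ n * t) : ℝ) : ℂ) * Complex.I := by
        push_cast; ring
      rw [this, Complex.exp_ofReal_mul_I_im]
    have hζb : ‖1 - Complex.exp (2 * Real.pi * Complex.I * (τ n * t))‖ ≤ 2 * Real.pi * |t| * τ n := by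
      have : (2 * Real.pi * Complex.I * (τ n * t) : ℂ) = Complex.I * ((2 * Real.pi * (τ n * t) : ℝ) : ℂ) := by
        push_cast; ring
      rw [this, norm_sub_rev]
      refine (Real.norm_exp_I_mul_ofReal_sub_one_le (x := 2 * Real.pi * (τ n * t))).trans (le_of_eq ?_)
      rw [Real.norm_eq_abs, abs_mul (2 * Real.pi), abs_mul (τ n),
        abs_of_nonneg (by positivity : 0 ≤ 2 * Real.pi), abs_of_pos (hτ n)]
      ring
    rw [him, hyn n, norm_smul, S.Phi_smul, hnormτ] at h1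
    have h2 : S.Phi (y n) ≤ S.Phi Y + 8 * R.K' * ‖y n - Y‖ := by
      have e : y n = Y + (y n - Y) := by abel
      calc S.Phi (y n) = S.Phi (Y + (y n - Y)) := by rw [← e]
        _ ≤ S.Phi Y + S.Phi (y n - Y) := S.Phi_add_le _ _
        _ ≤ _ := by gcongr; exact S.Phi_le_norm _
    have hE := S.En_nonneg
    rw [div_le_iff₀ (hτ n)]
    have hτn := hτ n
    calc |Real.sin (2 * Real.pi * (τ n * t))| ≤ _ := h1
      _ ≤ 3 * (2 * Real.pi * |t| * τ n) ^ 2 + 32 * R.K' ^ 2 * (τ n * ‖y n‖) ^ 2 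
          + (1/2) * (2 * Real.pi * |t| * τ n) * S.En + τ n * (S.Phi Y + 8 * R.K' * ‖y n - Y‖) := by
          gcongr
      _ = _ := by ring
  have hyY : Tendsto (fun n => ‖y n - Y‖) atTop (𝓝 0) := by
    have := (hY.sub_const Y).norm
    simpa using this
  have hyn' : Tendsto (fun n => ‖y n‖) atTop (𝓝 ‖Y‖) := hY.norm
  have hR : Tendsto (fun n => 3 * (2 * Real.pi * |t|) ^ 2 * τ n + 32 * R.K' ^ 2 * ‖y n‖ ^ 2 * τ n + Real.pi * |t| * S.En
      + (S.Phi Y + 8 * R.K' * ‖y n - Y‖)) atTop 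
      (𝓝 (3 * (2 * Real.pi * |t|) ^ 2 * 0 + 32 * R.K' ^ 2 * ‖Y‖ ^ 2 * 0 + Real.pi * |t| * S.En
      + (S.Phi Y + 8 * R.K' * 0))) := by
    apply Tendsto.add
    · apply Tendsto.add
      · apply Tendsto.add
        · exact hτ0.const_mul _
        · exact ((hyn'.pow 2).const_mul _).mul hτ0
      · exact tendsto_const_nhds
    · exact tendsto_const_nhds.add (hyY.const_mul _)
  have hL : Tendsto (fun n => |Real.sin (2 * Real.pi * (τ n * t))| / τ n) atTop (𝓝 (2 * Real.pi * |t|)) := by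
    have hd : HasDerivAt (fun x : ℝ => Real.sin (2 * Real.pi * (x * t))) (2 * Real.pi * t) 0 := by
      have h1 : HasDerivAt (fun x : ℝ => 2 * Real.pi * (x * t)) (2 * Real.pi * t) 0 := by
        simpa using ((hasDerivAt_id (0:ℝ)).mul_const t).const_mul (2 * Real.pi)
      have h2 := h1.sin
      simpa using h2
    have hs := hd.tendsto_slope
    have h0 : Tendsto τ atTop (𝓝[≠] 0) := by
      rw [tendsto_nhdsWithin_iff]
      exact ⟨hτ0, Eventually.of_forall (fun n => (hτ n).ne')⟩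
    have h3 := (hs.comp h0).abs
    have h4 : |2 * Real.pi * t| = 2 * Real.pi * |t| := by
      rw [abs_mul, abs_of_nonneg (by positivity)]
    rw [h4] at h3
    refine h3.congr ?_
    intro n
    simp only [Function.comp, slope_def_field, zero_mul, mul_zero, Real.sin_zero, sub_zero]
    rw [abs_div, abs_of_pos (hτ n)]
  have := le_of_tendsto_of_tendsto' hL hR key
  simpa using this

/-- Final abstract inequality. -/
theorem final_ineq (t : ℝ) (W : ℕ → Shift R) (τ : ℕ → ℝ) (hτ : ∀ n, 0 < τ n)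
    (hτ0 : Tendsto τ atTop (𝓝 0))
    (h : ∀ n, (W n).U (S.U R.g) = Complex.exp (2 * Real.pi * Complex.I * (τ n * t)) • S.U ((W n).U R.g))
    (Y : H) (hY : Tendsto (fun n => ((τ n : ℂ)⁻¹) • ((W n).U R.g - R.g)) atTop (𝓝 Y))
    (Y₁ : H) (B : ℝ) (hB : ∀ᵐ z ∂μ, ‖R.sym Y₁ z‖ ≤ B) :
    2 * Real.pi * |t| ≤ (Real.pi * |t| + 2 * B) * S.En + 4 * Real.sqrt S.En * (R.K' * ‖Y - Y₁‖) := by
  have h1 := S.ineq_limit t W τ hτ hτ0 h Y hY
  have h2 : S.Phi Y ≤ 2 * B * S.En + 4 * Real.sqrt S.En * (R.K' * ‖Y - Y₁‖) := by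
    have e : Y = Y₁ + (Y - Y₁) := by abel
    calc S.Phi Y = S.Phi (Y₁ + (Y - Y₁)) := by rw [← e]
      _ ≤ S.Phi Y₁ + S.Phi (Y - Y₁) := S.Phi_add_le _ _
      _ ≤ _ := by
        have a := S.Phi_le_bdd Y₁ B hB
        have b := S.Phi_le_cs (Y - Y₁)
        linarith
  linarith

end Shift

end Pool.Agent.Helper67.BLT
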