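import Mathlib

set_option autoImplicit false
open MeasureTheory Set Filter Submodule FourierTransform
open scoped ENNReal Topology ComplexConjugate SchwartzMap

namespace Pool.Agent.Helper67.BLT

/-- the unimodular number `e^{2π i r}` -/
noncomputable def chr (r : ℝ) : ℂ := Complex.exp (2 * Real.pi * Complex.I * r)

lemma norm_chr (r : ℝ) : ‖chr r‖ = 1 := by
  unfold chr
  have : (2 * Real.pi * Complex.I * r : ℂ) = ((2 * Real.pi * r : ℝ) : ℂ) * Complex.I := by
    push_cast; ring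
  rw [this, Complex.norm_exp_ofReal_mul_I]

lemma chr_add (r s : ℝ) : chr (r + s) = chr r * chr s := by
  unfold chr
  rw [← Complex.exp_add]
  congr 1
  push_cast; ring

lemma chr_zero : chr 0 = 1 := by simp [chr]

lemma chr_neg_mul (r : ℝ) : chr (-r) * chr r = 1 := by
  rw [← chr_add, neg_add_cancel, chr_zero]

lemma chr_ne (r : ℝ) : chr r ≠ 0 := by
  intro h
  have := norm_chr r
  rw [h] at this; simp at this

lemma continuous_chr : Continuous chr := by unfold chr; fun_prop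

lemma chr_int (n : ℤ) : chr n = 1 := by
  unfold chr
  rw [Complex.exp_eq_one_iff]
  exact ⟨n, by push_cast; ring⟩

variable {E : Type*} [NormedAddCommGroup E] [InnerProductSpace ℝ E] [FiniteDimensional ℝ E]
  [MeasurableSpace E] [BorelSpace E]

/-- translation by `m` on `L²` -/
noncomputable def trL (m : E) : Lp ℂ 2 (volume : Measure E) →ₗᵢ[ℂ] Lp ℂ 2 (volume : Measure E) :=
  Lp.compMeasurePreservingₗᵢ ℂ (fun x => x - m) (measurePreserving_sub_right volume m)

lemma trL_coe (m : E) (f : Lp ℂ 2 (volume : Measure E)) :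
    (trL m f : E → ℂ) =ᵐ[volume] fun x => (f : E → ℂ) (x - m) :=
  Lp.coeFn_compMeasurePreserving f (measurePreserving_sub_right volume m)

lemma ae_sub {P : E → Prop} (m : E) (h : ∀ᵐ x, P x) : ∀ᵐ x, P (x - m) :=
  (measurePreserving_sub_right volume m).quasiMeasurePreserving.ae h

lemma trL_trL (m m' : E) (f : Lp ℂ 2 (volume : Measure E)) : trL m (trL m' f) = trL (m + m') f := by
  apply Lp.ext
  filter_upwards [trL_coe m (trL m' f), ae_sub m (trL_coe m' f), trL_coe (m + m') f] with x h1 h2 h3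
  rw [h1, h2, h3]
  congr 1
  abel

lemma trL_zero (f : Lp ℂ 2 (volume : Measure E)) : trL (0 : E) f = f := by
  apply Lp.ext
  filter_upwards [trL_coe (0:E) f] with x h1
  rw [h1, sub_zero]

/-- translation as a unitary -/
noncomputable def tr (m : E) : Lp ℂ 2 (volume : Measure E) ≃ₗᵢ[ℂ] Lp ℂ 2 (volume : Measure E) where
  toLinearEquiv := LinearEquiv.ofLinear (trL m).toLinearMap (trL (-m)).toLinearMap
    (by ext1 f; simp [trL_trL, trL_zero]) (by ext1 f; simp [trL_trL, trL_zero])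
  norm_map' := fun f => (trL m).norm_map f

lemma tr_apply (m : E) (f : Lp ℂ 2 (volume : Measure E)) : tr m f = trL m f := rfl

lemma tr_coe (m : E) (f : Lp ℂ 2 (volume : Measure E)) :
    (tr m f : E → ℂ) =ᵐ[volume] fun x => (f : E → ℂ) (x - m) := trL_coe m f

lemma tr_tr (m m' : E) (f : Lp ℂ 2 (volume : Measure E)) : tr m (tr m' f) = tr (m + m') f := trL_trL m m' f

lemma memLp_mo (y : E) (f : Lp ℂ 2 (volume : Measure E)) :
    MemLp (fun x => chr (inner ℝ y x) * (f : E → ℂ) x) 2 volume := by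
  refine (Lp.memLp f).of_le_mul (c := 1) ?_ ?_
  · exact (continuous_chr.comp (by fun_prop)).aestronglyMeasurable.mul (Lp.aestronglyMeasurable f)
  · filter_upwards with x
    rw [norm_mul, norm_chr]

/-- modulation by `y` on `L²` as a linear map -/
noncomputable def moL (y : E) : Lp ℂ 2 (volume : Measure E) →ₗ[ℂ] Lp ℂ 2 (volume : Measure E) where
  toFun f := (memLp_mo y f).toLp
  map_add' f f' := by
    apply Lp.ext
    filter_upwards [(memLp_mo y (f + f')).coeFn_toLp, (memLp_mo y f).coeFn_toLp, (memLp_mo y f').coeFn_toLp,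
      Lp.coeFn_add f f', Lp.coeFn_add ((memLp_mo y f).toLp) ((memLp_mo y f').toLp)] with x h1 h2 h3 h4 h5
    rw [h1, h5, Pi.add_apply, h2, h3, h4, Pi.add_apply, mul_add]
  map_smul' c f := by
    apply Lp.ext
    filter_upwards [(memLp_mo y (c • f)).coeFn_toLp, (memLp_mo y f).coeFn_toLp,
      Lp.coeFn_smul c f, Lp.coeFn_smul c ((memLp_mo y f).toLp)] with x h1 h2 h4 h5
    rw [h1]
    simp only [RingHom.id_apply]
    rw [h5, Pi.smul_apply, h2, h4, Pi.smul_apply, smul_eq_mul, smul_eq_mul]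
    ring

lemma moL_coe (y : E) (f : Lp ℂ 2 (volume : Measure E)) :
    (moL y f : E → ℂ) =ᵐ[volume] fun x => chr (inner ℝ y x) * (f : E → ℂ) x := (memLp_mo y f).coeFn_toLp

lemma norm_moL (y : E) (f : Lp ℂ 2 (volume : Measure E)) : ‖moL y f‖ = ‖f‖ := by
  rw [Lp.norm_def, Lp.norm_def]
  congr 1
  apply eLpNorm_congr_norm_ae
  filter_upwards [moL_coe y f] with x h1
  rw [h1, norm_mul, norm_chr, one_mul]

lemma moL_moL (y y' : E) (f : Lp ℂ 2 (volume : Measure E)) : moL y (moL y' f) = moL (y + y') f := by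
  apply Lp.ext
  filter_upwards [moL_coe y (moL y' f), moL_coe y' f, moL_coe (y + y') f] with x h1 h2 h3
  rw [h1, h2, h3, inner_add_left, chr_add, mul_assoc]

lemma moL_zero (f : Lp ℂ 2 (volume : Measure E)) : moL (0 : E) f = f := by
  apply Lp.ext
  filter_upwards [moL_coe (0:E) f] with x h1
  rw [h1, inner_zero_left, chr_zero, one_mul]

/-- modulation as a unitary -/
noncomputable def mo (y : E) : Lp ℂ 2 (volume : Measure E) ≃ₗᵢ[ℂ] Lp ℂ 2 (volume : Measure E) where
  toLinearEquiv := LinearEquiv.ofLinear (moL y) (moL (-y))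
    (by ext1 f; simp [moL_moL, moL_zero]) (by ext1 f; simp [moL_moL, moL_zero])
  norm_map' := fun f => norm_moL y f

lemma mo_coe (y : E) (f : Lp ℂ 2 (volume : Measure E)) :
    (mo y f : E → ℂ) =ᵐ[volume] fun x => chr (inner ℝ y x) * (f : E → ℂ) x := moL_coe y f

lemma mo_mo (y y' : E) (f : Lp ℂ 2 (volume : Measure E)) : mo y (mo y' f) = mo (y + y') f := moL_moL y y' f

/-- commutation -/
lemma mo_tr (y m : E) (f : Lp ℂ 2 (volume : Measure E)) :
    mo y (tr m f) = chr (inner ℝ y m) • tr m (mo y f) := by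
  apply Lp.ext
  filter_upwards [mo_coe y (tr m f), tr_coe m f, tr_coe m (mo y f), ae_sub m (mo_coe y f),
    Lp.coeFn_smul (chr (inner ℝ y m)) (tr m (mo y f))] with x h1 h2 h3 h4 h5
  rw [h1, h2, h5, Pi.smul_apply, h3, h4, smul_eq_mul, ← mul_assoc, ← chr_add]
  congr 2
  rw [inner_sub_right]
  ring

lemma fourier_schwartz_translate (f : 𝓢(E, ℂ)) (m ξ : E) :
    𝓕 (f.compSubConstCLM ℂ m) ξ = chr (inner ℝ (-m) ξ) * 𝓕 f ξ := by
  rw [SchwartzMap.fourier_coe, SchwartzMap.fourier_coe]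
  have h := VectorFourier.fourierIntegral_comp_add_right Real.fourierChar (volume : Measure E)
    (innerₗ E) (f : E → ℂ) (-m)
  have h2 := congrFun h ξ
  have e1 : ((f : E → ℂ) ∘ fun v => v + -m) = (f.compSubConstCLM ℂ m : E → ℂ) := by
    ext x
    simp [sub_eq_add_neg]
  rw [e1] at h2
  have e2 : ∀ g : E → ℂ, 𝓕 g ξ = VectorFourier.fourierIntegral Real.fourierChar volume (innerₗ E) g ξ := fun g => rfl
  rw [e2, e2, h2]
  simp only [Circle.smul_def, smul_eq_mul, Real.fourierChar_apply, innerₗ_apply_apply]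
  congr 1
  unfold chr
  congr 1
  push_cast
  ring

lemma fourierInv_schwartz_translate (f : 𝓢(E, ℂ)) (m ξ : E) :
    𝓕⁻ (f.compSubConstCLM ℂ m) ξ = chr (inner ℝ m ξ) * 𝓕⁻ f ξ := by
  rw [SchwartzMap.fourierInv_coe, SchwartzMap.fourierInv_coe, Real.fourierInv_eq_fourier_neg,
    Real.fourierInv_eq_fourier_neg, ← SchwartzMap.fourier_coe, ← SchwartzMap.fourier_coe,
    fourier_schwartz_translate]
  simp

lemma toLp_translate (f : 𝓢(E, ℂ)) (m : E) : (f.compSubConstCLM ℂ m).toLp 2 = tr m (f.toLp 2) := by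
  apply Lp.ext
  filter_upwards [SchwartzMap.coeFn_toLp (f.compSubConstCLM ℂ m) 2 (volume : Measure E), 
    tr_coe m (f.toLp 2), ae_sub m (SchwartzMap.coeFn_toLp f 2 (volume : Measure E))] with x h1 h2 h3
  rw [h1, h2, h3]
  rfl

/-- Fourier transform intertwines translation and modulation -/
theorem fourier_tr (m : E) (f : Lp ℂ 2 (volume : Measure E)) : 𝓕 (tr m f) = mo (-m) (𝓕 f) := by
  apply DenseRange.induction_on (p := fun f : Lp ℂ 2 (volume : Measure E) => 𝓕 (tr m f) = mo (-m) (𝓕 f))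
    (SchwartzMap.denseRange_toLpCLM (p := 2) ENNReal.ofNat_ne_top) f
  · apply isClosed_eq
    · exact (Lp.fourierTransformₗᵢ E ℂ).continuous.comp (tr m).continuous
    · exact (mo (-m)).continuous.comp (Lp.fourierTransformₗᵢ E ℂ).continuous
  intro f
  change 𝓕 (tr m (f.toLp 2)) = mo (-m) (𝓕 (f.toLp 2))
  rw [← toLp_translate, SchwartzMap.toLp_fourier_eq, SchwartzMap.toLp_fourier_eq]
  apply Lp.ext
  filter_upwards [SchwartzMap.coeFn_toLp (𝓕 (f.compSubConstCLM ℂ m)) 2 (volume : Measure E),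
    mo_coe (-m) ((𝓕 f).toLp 2), SchwartzMap.coeFn_toLp (𝓕 f) 2 (volume : Measure E)] with x h1 h2 h3
  rw [h1, h2, h3, fourier_schwartz_translate]

theorem fourierInv_tr (m : E) (f : Lp ℂ 2 (volume : Measure E)) : 𝓕⁻ (tr m f) = mo m (𝓕⁻ f) := by
  apply DenseRange.induction_on (p := fun f : Lp ℂ 2 (volume : Measure E) => 𝓕⁻ (tr m f) = mo m (𝓕⁻ f))
    (SchwartzMap.denseRange_toLpCLM (p := 2) ENNReal.ofNat_ne_top) f
  · apply isClosed_eq
    · exact (Lp.fourierTransformₗᵢ E ℂ).symm.continuous.comp (tr m).continuous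
    · exact (mo m).continuous.comp (Lp.fourierTransformₗᵢ E ℂ).symm.continuous
  intro f
  change 𝓕⁻ (tr m (f.toLp 2)) = mo m (𝓕⁻ (f.toLp 2))
  rw [← toLp_translate, SchwartzMap.toLp_fourierInv_eq, SchwartzMap.toLp_fourierInv_eq]
  apply Lp.ext
  filter_upwards [SchwartzMap.coeFn_toLp (𝓕⁻ (f.compSubConstCLM ℂ m)) 2 (volume : Measure E),
    mo_coe m ((𝓕⁻ f).toLp 2), SchwartzMap.coeFn_toLp (𝓕⁻ f) 2 (volume : Measure E)] with x h1 h2 h3
  rw [h1, h2, h3, fourierInv_schwartz_translate]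

theorem fourier_mo (y : E) (f : Lp ℂ 2 (volume : Measure E)) : 𝓕 (mo y f) = tr y (𝓕 f) := by
  have h := fourierInv_tr y (𝓕 f)
  rw [FourierPair.fourierInv_fourier_eq] at h
  rw [← h, FourierInvPair.fourier_fourierInv_eq]

end Pool.Agent.Helper67.BLT
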