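import Pool.Agent.Helper67.BLT.B1

set_option autoImplicit false
open MeasureTheory Set Filter Submodule FourierTransform
open scoped ENNReal Topology ComplexConjugate

namespace Pool.Agent.Helper67.BLT

lemma enorm_sq_eq {Ω : Type*} [MeasurableSpace Ω] {μ : Measure Ω} (f : Lp ℂ 2 μ) :
    ‖f‖ₑ ^ 2 = ∫⁻ z, ‖(f : Ω → ℂ) z‖ₑ ^ 2 ∂μ := by
  rw [Lp.enorm_def, eLpNorm_eq_lintegral_rpow_enorm_toReal (by norm_num) (by norm_num)]
  simp only [ENNReal.toReal_ofNat, ENNReal.rpow_ofNat, one_div]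
  rw [← ENNReal.rpow_natCast, ← ENNReal.rpow_mul]
  norm_num

lemma norm_sq_eq {Ω : Type*} [MeasurableSpace Ω] {μ : Measure Ω} (f : Lp ℂ 2 μ) :
    ‖f‖ ^ 2 = (∫⁻ z, ‖(f : Ω → ℂ) z‖ₑ ^ 2 ∂μ).toReal := by
  rw [← enorm_sq_eq, ENNReal.toReal_pow, toReal_enorm]

lemma lintegral_sq_lt_top {Ω : Type*} [MeasurableSpace Ω] {μ : Measure Ω} (f : Lp ℂ 2 μ) :
    ∫⁻ z, ‖(f : Ω → ℂ) z‖ₑ ^ 2 ∂μ < ⊤ := by
  rw [← enorm_sq_eq]
  exact ENNReal.pow_lt_top enorm_lt_top

lemma norm_chr_sub_one_le (r : ℝ) : ‖chr r - 1‖ ≤ 2 * Real.pi * |r| := by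
  unfold chr
  have : (2 * Real.pi * Complex.I * r : ℂ) = Complex.I * ((2 * Real.pi * r : ℝ) : ℂ) := by
    push_cast; ring
  rw [this]
  refine (Real.norm_exp_I_mul_ofReal_sub_one_le (x := 2 * Real.pi * r)).trans (le_of_eq ?_)
  rw [Real.norm_eq_abs, abs_mul (2 * Real.pi), abs_of_nonneg (by positivity : 0 ≤ 2 * Real.pi)]

lemma norm_chr_sub_one_le_two (r : ℝ) : ‖chr r - 1‖ ≤ 2 := by
  calc ‖chr r - 1‖ ≤ ‖chr r‖ + ‖(1:ℂ)‖ := norm_sub_le _ _
    _ = 2 := by rw [norm_chr]; norm_num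

/-- `‖chr r - 1‖² ≤ 4 (π|r|)^q` for `0 < q ≤ 2`. -/
lemma norm_chr_sq_le (r q : ℝ) (hq : 0 < q) (hq2 : q ≤ 2) :
    ‖chr r - 1‖ ^ 2 ≤ 4 * (Real.pi * |r|) ^ q := by
  have h1 := norm_chr_sub_one_le r
  have h2 := norm_chr_sub_one_le_two r
  have h0 := norm_nonneg (chr r - 1)
  have hpi := Real.pi_pos
  set s := Real.pi * |r| with hs
  have hs0 : 0 ≤ s := by positivity
  rcases le_total s 1 with h | h
  · have h3 : s ^ (2:ℝ) ≤ s ^ q := Real.rpow_le_rpow_of_exponent_ge_of_imp hs0 h hq2 (by intro _ h; linarith)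
    rw [Real.rpow_two] at h3
    have h4 : ‖chr r - 1‖ ^ 2 ≤ (2 * s) ^ 2 := by
      have : ‖chr r - 1‖ ≤ 2 * s := by rw [hs]; linarith
      gcongr
    nlinarith
  · have h3 : 1 ≤ s ^ q := Real.one_le_rpow h hq.le
    nlinarith

variable {E : Type*} [NormedAddCommGroup E] [InnerProductSpace ℝ E] [FiniteDimensional ℝ E]
  [MeasurableSpace E] [BorelSpace E]

/-- weighted integral -/
noncomputable def wt (b : E) (p : ℝ) (f : Lp ℂ 2 (volume : Measure E)) : ℝ≥0∞ :=
  ∫⁻ x, ENNReal.ofReal (|inner ℝ b x| ^ p) * ‖(f : E → ℂ) x‖ₑ ^ 2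

/-- norm of a multiplier difference -/
lemma norm_sq_of_ae (F : Lp ℂ 2 (volume : Measure E)) (f : Lp ℂ 2 (volume : Measure E)) (M : E → ℂ)
    (h : (F : E → ℂ) =ᵐ[volume] fun x => M x * (f : E → ℂ) x) :
    ‖F‖ ^ 2 = (∫⁻ x, ENNReal.ofReal (‖M x‖ ^ 2) * ‖(f : E → ℂ) x‖ₑ ^ 2).toReal := by
  rw [norm_sq_eq]
  congr 1
  apply lintegral_congr_ae
  filter_upwards [h] with x hx
  rw [hx, enorm_mul, mul_pow]
  congr 1
  rw [ENNReal.ofReal_pow (norm_nonneg _), ofReal_norm]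

lemma mo_sub_coe (y : E) (f : Lp ℂ 2 (volume : Measure E)) :
    ((mo y f - f : Lp ℂ 2 (volume : Measure E)) : E → ℂ) =ᵐ[volume] fun x => (chr (inner ℝ y x) - 1) * (f : E → ℂ) x := by
  filter_upwards [mo_coe y f, Lp.coeFn_sub (mo y f) f] with x h1 h2
  rw [h2, Pi.sub_apply, h1]
  ring

lemma E1 (b : E) (q : ℝ) (hq : 0 < q) (hq2 : q ≤ 2) (f : Lp ℂ 2 (volume : Measure E)) (hf : wt b q f < ⊤) :
    ∃ C : ℝ, 0 ≤ C ∧ ∀ t : ℝ, ‖mo (t • b) f - f‖ ^ 2 ≤ C * |t| ^ q := by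
  refine ⟨4 * Real.pi ^ q * (wt b q f).toReal, by positivity, fun t => ?_⟩
  rw [norm_sq_of_ae _ f _ (mo_sub_coe (t • b) f)]
  have h1 : ∫⁻ x, ENNReal.ofReal (‖chr (inner ℝ (t • b) x) - 1‖ ^ 2) * ‖(f : E → ℂ) x‖ₑ ^ 2 ≤
      ENNReal.ofReal (4 * Real.pi ^ q * |t| ^ q) * wt b q f := by
    unfold wt
    rw [← lintegral_const_mul' _ _ ENNReal.ofReal_ne_top]
    apply lintegral_mono
    intro x
    simp only
    rw [← mul_assoc, ← ENNReal.ofReal_mul (by positivity)]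
    gcongr
    refine (norm_chr_sq_le _ q hq hq2).trans (le_of_eq ?_)
    rw [inner_smul_left]
    simp only [conj_trivial]
    rw [abs_mul, Real.mul_rpow (by positivity) (by positivity), Real.mul_rpow (by positivity) (by positivity)]
    ring
  calc (∫⁻ x, ENNReal.ofReal (‖chr (inner ℝ (t • b) x) - 1‖ ^ 2) * ‖(f : E → ℂ) x‖ₑ ^ 2).toReal
      ≤ (ENNReal.ofReal (4 * Real.pi ^ q * |t| ^ q) * wt b q f).toReal := by
        apply ENNReal.toReal_mono _ h1
        exact ENNReal.mul_ne_top ENNReal.ofReal_ne_top hf.ne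
    _ = 4 * Real.pi ^ q * (wt b q f).toReal * |t| ^ q := by
        rw [ENNReal.toReal_mul, ENNReal.toReal_ofReal (by positivity)]
        ring

/-- dominated convergence in the form we use -/
lemma dct {ι : Type*} (f : Lp ℂ 2 (volume : Measure E)) (l : Filter ι) [l.IsCountablyGenerated] (M : ι → E → ℝ) (g : E → ℝ)
    (hM : ∀ t, Measurable (M t)) (hfin : ∫⁻ x, ENNReal.ofReal (g x) * ‖(f : E → ℂ) x‖ₑ ^ 2 < ⊤)
    (hbd : ∀ᶠ t in l, ∀ x, M t x ≤ g x) (hlim : ∀ x, Tendsto (fun t => M t x) l (𝓝 0)) :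
    Tendsto (fun t => (∫⁻ x, ENNReal.ofReal (M t x) * ‖(f : E → ℂ) x‖ₑ ^ 2).toReal) l (𝓝 0) := by
  have h := tendsto_lintegral_filter_of_dominated_convergence (μ := (volume : Measure E)) (l := l)
    (F := fun t x => ENNReal.ofReal (M t x) * ‖(f : E → ℂ) x‖ₑ ^ 2) (f := fun _ => 0)
    (fun x => ENNReal.ofReal (g x) * ‖(f : E → ℂ) x‖ₑ ^ 2)
    (by
      filter_upwards with t
      exact ((hM t).ennreal_ofReal).mul ((Lp.stronglyMeasurable f).measurable.enorm.pow_const 2))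
    (by
      filter_upwards [hbd] with t ht
      filter_upwards with x
      gcongr
      exact ht x)
    hfin.ne
    (by
      filter_upwards with x
      have h1 : Tendsto (fun t => ENNReal.ofReal (M t x)) l (𝓝 0) := by
        have := ENNReal.tendsto_ofReal (hlim x)
        simpa using this
      have h2 := ENNReal.Tendsto.mul_const (b := ‖(f : E → ℂ) x‖ₑ ^ 2) h1 
        (Or.inr (ENNReal.pow_ne_top enorm_ne_top))
      simpa using h2)
  simp only [lintegral_zero] at h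
  have := (ENNReal.tendsto_toReal ENNReal.zero_ne_top).comp h
  simpa [Function.comp_def] using this

lemma E2 (b : E) (f : Lp ℂ 2 (volume : Measure E)) (hf : wt b 1 f < ⊤) :
    Tendsto (fun t : ℝ => ‖mo (t • b) f - f‖ ^ 2 / t) (𝓝[>] 0) (𝓝 0) := by
  have h := dct f (𝓝[>] (0:ℝ)) (fun t x => ‖chr (inner ℝ (t • b) x) - 1‖ ^ 2 / t)
    (fun x => 4 * Real.pi * |inner ℝ b x|)
    (by
      intro t
      apply Measurable.div_const
      apply Measurable.pow_const
      apply Measurable.norm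
      apply Measurable.sub_const
      exact (continuous_chr.comp (by fun_prop)).measurable)
    (by
      have e : (fun x => ENNReal.ofReal (4 * Real.pi * |inner ℝ b x|) * ‖(f : E → ℂ) x‖ₑ ^ 2) =
        fun x => ENNReal.ofReal (4 * Real.pi) * (ENNReal.ofReal (|inner ℝ b x| ^ (1:ℝ)) * ‖(f : E → ℂ) x‖ₑ ^ 2) := by
        ext x
        rw [ENNReal.ofReal_mul (by positivity), Real.rpow_one, mul_assoc]
      rw [e, lintegral_const_mul' _ _ ENNReal.ofReal_ne_top]
      exact ENNReal.mul_lt_top ENNReal.ofReal_lt_top hf)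
    (by
      filter_upwards [self_mem_nhdsWithin] with t ht x
      have ht' : 0 < t := ht
      rw [div_le_iff₀ ht']
      have h1 := norm_chr_sq_le (inner ℝ (t • b) x) 1 one_pos (by norm_num)
      rw [Real.rpow_one, inner_smul_left] at h1
      simp only [conj_trivial] at h1
      rw [abs_mul, abs_of_pos ht'] at h1
      rw [inner_smul_left]
      simp only [conj_trivial]
      linarith)
    (by
      intro x
      have hb : Tendsto (fun t : ℝ => (2 * Real.pi * |inner ℝ b x|) ^ 2 * t) (𝓝[>] 0) (𝓝 0) := by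
        apply Tendsto.mono_left _ nhdsWithin_le_nhds
        have : Tendsto (fun t : ℝ => (2 * Real.pi * |inner ℝ b x|) ^ 2 * t) (𝓝 0) (𝓝 ((2 * Real.pi * |inner ℝ b x|) ^ 2 * 0)) := by
          apply Continuous.tendsto; fun_prop
        simpa using this
      apply squeeze_zero' _ _ hb
      · filter_upwards [self_mem_nhdsWithin] with t ht
        have ht' : 0 < t := ht
        positivity
      · filter_upwards [self_mem_nhdsWithin] with t ht
        have ht' : 0 < t := ht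
        rw [div_le_iff₀ ht']
        have h1 := norm_chr_sub_one_le (inner ℝ (t • b) x)
        have h0 := norm_nonneg (chr (inner ℝ (t • b) x) - 1)
        calc ‖chr (inner ℝ (t • b) x) - 1‖ ^ 2 ≤ (2 * Real.pi * |inner ℝ (t • b) x|) ^ 2 := by gcongr
          _ = _ := by
            rw [inner_smul_left]
            simp only [conj_trivial]
            rw [abs_mul, abs_of_pos ht']
            ring)
  refine h.congr' ?_
  filter_upwards [self_mem_nhdsWithin] with t ht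
  have h1 : 0 < t := ht
  rw [norm_sq_of_ae _ f _ (mo_sub_coe (t • b) f)]
  have e : (fun x => ENNReal.ofReal (‖chr (inner ℝ (t • b) x) - 1‖ ^ 2 / t) * ‖(f : E → ℂ) x‖ₑ ^ 2) =
      fun x => ENNReal.ofReal (1 / t) * (ENNReal.ofReal (‖chr (inner ℝ (t • b) x) - 1‖ ^ 2) * ‖(f : E → ℂ) x‖ₑ ^ 2) := by
    ext x
    rw [← mul_assoc, ← ENNReal.ofReal_mul (by positivity)]
    congr 2
    ring
  rw [e, lintegral_const_mul' _ _ ENNReal.ofReal_ne_top, ENNReal.toReal_mul, ENNReal.toReal_ofReal (by positivity)]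
  ring

/-- truncated logarithm -/
noncomputable def Pm (m : ℕ) (y : ℂ) : ℂ := ∑ j ∈ Finset.range m, ((-1) ^ j / ((j:ℂ) + 1)) * (y - 1) ^ (j + 1)

lemma Pm_hasDerivAt (m : ℕ) (θ : ℝ) :
    HasDerivAt (fun θ : ℝ => Pm m (Complex.exp (Complex.I * θ)) - Complex.I * θ)
      (- Complex.I * (1 - Complex.exp (Complex.I * θ)) ^ m) θ := by
  have hexp : HasDerivAt (fun θ : ℝ => Complex.exp (Complex.I * θ)) (Complex.exp (Complex.I * θ) * Complex.I) θ := by
    have h1 : HasDerivAt (fun θ : ℝ => Complex.I * (θ:ℂ)) (Complex.I * 1) θ :=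
      (Complex.ofRealCLM.hasDerivAt (x := θ)).const_mul Complex.I
    have h2 := h1.cexp
    simpa using h2
  have hsum : HasDerivAt (fun θ : ℝ => Pm m (Complex.exp (Complex.I * θ)))
      (∑ j ∈ Finset.range m, ((-1) ^ j / ((j:ℂ) + 1)) * (((j + 1 : ℕ) : ℂ) * (Complex.exp (Complex.I * θ) - 1) ^ j * (Complex.exp (Complex.I * θ) * Complex.I))) θ := by
    unfold Pm
    apply HasDerivAt.fun_sum
    intro j _
    apply HasDerivAt.const_mul
    have := (hexp.sub_const 1).fun_pow (j + 1)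
    simpa using this
  have hlin : HasDerivAt (fun θ : ℝ => Complex.I * (θ:ℂ)) (Complex.I * 1) θ :=
      (Complex.ofRealCLM.hasDerivAt (x := θ)).const_mul Complex.I
  refine (hsum.sub hlin).congr_deriv ?_
  set y := Complex.exp (Complex.I * θ) with hy
  have hgeom := mul_neg_geom_sum (1 - y) m
  have e1 : ∑ j ∈ Finset.range m, ((-1) ^ j / ((j:ℂ) + 1)) * (((j + 1 : ℕ) : ℂ) * (y - 1) ^ j * (y * Complex.I)) =
      Complex.I * (y * ∑ j ∈ Finset.range m, (1 - y) ^ j) := by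
    rw [Finset.mul_sum, Finset.mul_sum]
    apply Finset.sum_congr rfl
    intro j _
    have hj : ((j:ℂ) + 1) ≠ 0 := by exact_mod_cast Nat.succ_ne_zero j
    have e2 : (1 - y) ^ j = (-1) ^ j * (y - 1) ^ j := by
      rw [← mul_pow]; congr 1; ring
    rw [e2]
    push_cast
    field_simp
  rw [e1]
  have e3 : y * ∑ j ∈ Finset.range m, (1 - y) ^ j = 1 - (1 - y) ^ m := by
    rw [← hgeom]; ring
  rw [e3]
  ring

lemma Pm_bound (m : ℕ) (θ : ℝ) :
    ‖Pm m (Complex.exp (Complex.I * θ)) - Complex.I * θ‖ ≤ (min 2 |θ|) ^ m * |θ| := by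
  have h := Convex.norm_image_sub_le_of_norm_hasDerivWithin_le
    (f := fun θ : ℝ => Pm m (Complex.exp (Complex.I * θ)) - Complex.I * θ)
    (f' := fun θ : ℝ => - Complex.I * (1 - Complex.exp (Complex.I * θ)) ^ m)
    (s := Metric.closedBall (0:ℝ) |θ|) (x := 0) (y := θ) (C := (min 2 |θ|) ^ m)
    (fun x _ => (Pm_hasDerivAt m x).hasDerivWithinAt)
    (by
      intro x hx
      rw [norm_mul, norm_neg, Complex.norm_I, one_mul, norm_pow]
      have h1 : ‖1 - Complex.exp (Complex.I * x)‖ ≤ |x| := by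
        rw [norm_sub_rev]
        exact Real.norm_exp_I_mul_ofReal_sub_one_le
      have h2 : ‖1 - Complex.exp (Complex.I * x)‖ ≤ 2 := by
        calc ‖1 - Complex.exp (Complex.I * x)‖ ≤ ‖(1:ℂ)‖ + ‖Complex.exp (Complex.I * x)‖ := norm_sub_le _ _
          _ = 2 := by rw [mul_comm, Complex.norm_exp_ofReal_mul_I]; norm_num
      have h3 : |x| ≤ |θ| := by simpa using hx
      have h4 : ‖1 - Complex.exp (Complex.I * x)‖ ≤ min 2 |θ| := le_min h2 (h1.trans h3)
      gcongr)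
    (convex_closedBall _ _) (by simp) (by simp)
  have h0 : Pm m (Complex.exp (Complex.I * (0:ℝ))) - Complex.I * (0:ℝ) = 0 := by
    simp [Pm]
  simp only [sub_zero] at h
  rw [h0, sub_zero] at h
  exact h

end Pool.Agent.Helper67.BLT
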