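import Pool.Agent.Helper67.BLT.B2

set_option autoImplicit false
open MeasureTheory Set Filter Submodule FourierTransform
open scoped ENNReal Topology ComplexConjugate

namespace Pool.Agent.Helper67.BLT

variable {E : Type*} [NormedAddCommGroup E] [InnerProductSpace ℝ E] [FiniteDimensional ℝ E]
  [MeasurableSpace E] [BorelSpace E]

lemma wt_two (b : E) (p : ℝ) (hp : 2 ≤ p) (f : Lp ℂ 2 (volume : Measure E)) (hf : wt b p f < ⊤) :
    wt b 2 f < ⊤ := by
  have h1 : wt b 2 f ≤ (∫⁻ x, ‖(f : E → ℂ) x‖ₑ ^ 2) + wt b p f := by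
    unfold wt
    have hm : Measurable fun x => ‖(f : E → ℂ) x‖ₑ ^ 2 :=
      (Lp.stronglyMeasurable f).measurable.enorm.pow_const 2
    rw [← lintegral_add_left hm]
    apply lintegral_mono
    intro x
    have h2 : |inner ℝ b x| ^ (2:ℝ) ≤ 1 + |inner ℝ b x| ^ p := by
      rcases le_total |inner ℝ b x| 1 with h | h
      · have : |inner ℝ b x| ^ (2:ℝ) ≤ 1 := Real.rpow_le_one (abs_nonneg _) h (by norm_num)
        have : 0 ≤ |inner ℝ b x| ^ p := by positivity
        linarith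
      · have : |inner ℝ b x| ^ (2:ℝ) ≤ |inner ℝ b x| ^ p := Real.rpow_le_rpow_of_exponent_le h hp
        linarith
    calc ENNReal.ofReal (|inner ℝ b x| ^ (2:ℝ)) * ‖(f : E → ℂ) x‖ₑ ^ 2 
        ≤ ENNReal.ofReal (1 + |inner ℝ b x| ^ p) * ‖(f : E → ℂ) x‖ₑ ^ 2 := by gcongr
      _ = _ := by
        rw [ENNReal.ofReal_add (by norm_num) (by positivity), add_mul, ENNReal.ofReal_one, one_mul]
  exact lt_of_le_of_lt h1 (ENNReal.add_lt_top.2 ⟨lintegral_sq_lt_top f, hf⟩)

lemma memLp_Y (b : E) (f : Lp ℂ 2 (volume : Measure E)) (hf : wt b 2 f < ⊤) :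
    MemLp (fun x => (2 * Real.pi * Complex.I * (inner ℝ b x : ℝ)) * (f : E → ℂ) x) 2 (volume : Measure E) := by
  refine ⟨?_, ?_⟩
  · apply AEStronglyMeasurable.mul _ (Lp.aestronglyMeasurable f)
    apply Continuous.aestronglyMeasurable
    fun_prop
  · rw [eLpNorm_lt_top_iff_lintegral_rpow_enorm_lt_top (by norm_num) (by norm_num)]
    have e : ∀ x, ‖(2 * Real.pi * Complex.I * (inner ℝ b x : ℝ)) * (f : E → ℂ) x‖ₑ ^ (2:ℝ≥0∞).toReal =
        ENNReal.ofReal ((2 * Real.pi) ^ 2) * (ENNReal.ofReal (|inner ℝ b x| ^ (2:ℝ)) * ‖(f : E → ℂ) x‖ₑ ^ 2) := by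
      intro x
      simp only [ENNReal.toReal_ofNat, ENNReal.rpow_ofNat]
      rw [enorm_mul, mul_pow, ← mul_assoc, ← ENNReal.ofReal_mul (by positivity)]
      congr 1
      rw [← ofReal_norm, ← ENNReal.ofReal_pow (norm_nonneg _)]
      congr 1
      rw [norm_mul, norm_mul, norm_mul, Complex.norm_I, Complex.norm_real, Complex.norm_real, Complex.norm_ofNat,
        Real.norm_of_nonneg Real.pi_pos.le, Real.norm_eq_abs, Real.rpow_two]
      ring
    simp_rw [e]
    rw [lintegral_const_mul' _ _ ENNReal.ofReal_ne_top]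
    exact ENNReal.mul_lt_top ENNReal.ofReal_lt_top hf

/-- the derivative vector -/
noncomputable def YY (b : E) (f : Lp ℂ 2 (volume : Measure E)) (hf : wt b 2 f < ⊤) :
    Lp ℂ 2 (volume : Measure E) := (memLp_Y b f hf).toLp

lemma YY_coe (b : E) (f : Lp ℂ 2 (volume : Measure E)) (hf : wt b 2 f < ⊤) :
    (YY b f hf : E → ℂ) =ᵐ[volume] fun x => (2 * Real.pi * Complex.I * (inner ℝ b x : ℝ)) * (f : E → ℂ) x :=
  (memLp_Y b f hf).coeFn_toLp

lemma norm_two_pi_I (r : ℝ) : ‖(2 * Real.pi * Complex.I * (r:ℝ) : ℂ)‖ = 2 * Real.pi * |r| := by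
  rw [norm_mul, norm_mul, norm_mul, Complex.norm_I, Complex.norm_real, Complex.norm_real, Complex.norm_ofNat,
        Real.norm_of_nonneg Real.pi_pos.le, Real.norm_eq_abs]
  ring

lemma chr_hasDerivAt (r : ℝ) : HasDerivAt (fun t : ℝ => chr (t * r)) (2 * Real.pi * Complex.I * r) 0 := by
  unfold chr
  have h1 : HasDerivAt (fun t : ℝ => (2 * Real.pi * Complex.I * ((t * r : ℝ) : ℂ))) (2 * Real.pi * Complex.I * r) 0 := by
    have h2 : HasDerivAt (fun t : ℝ => ((t * r : ℝ) : ℂ)) (r:ℂ) 0 := by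
      have h3 : HasDerivAt (fun t : ℝ => t * r) r 0 := by simpa using (hasDerivAt_id (0:ℝ)).mul_const r
      exact h3.ofReal_comp
    exact h2.const_mul (2 * Real.pi * Complex.I)
  have h4 := h1.cexp
  simpa using h4

/-- strong derivative of the modulation group -/
lemma E3a (b : E) (f : Lp ℂ 2 (volume : Measure E)) (hf : wt b 2 f < ⊤) :
    Tendsto (fun t : ℝ => (t:ℂ)⁻¹ • (mo (t • b) f - f)) (𝓝[>] 0) (𝓝 (YY b f hf)) := by
  rw [tendsto_iff_norm_sub_tendsto_zero]
  have hsq : Tendsto (fun t : ℝ => ‖(t:ℂ)⁻¹ • (mo (t • b) f - f) - YY b f hf‖ ^ 2) (𝓝[>] 0) (𝓝 0) := by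
    have h := dct f (𝓝[>] (0:ℝ)) (fun t x => ‖(t:ℂ)⁻¹ * (chr (inner ℝ (t • b) x) - 1) - (2 * Real.pi * Complex.I * (inner ℝ b x : ℝ))‖ ^ 2)
      (fun x => (4 * Real.pi) ^ 2 * |inner ℝ b x| ^ (2:ℝ))
      (by
        intro t
        apply Measurable.pow_const
        apply Measurable.norm
        apply Measurable.sub
        · apply Measurable.const_mul
          apply Measurable.sub_const
          exact (continuous_chr.comp (by fun_prop)).measurable
        · apply Continuous.measurable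
          fun_prop)
      (by
        have e : (fun x => ENNReal.ofReal ((4 * Real.pi) ^ 2 * |inner ℝ b x| ^ (2:ℝ)) * ‖(f : E → ℂ) x‖ₑ ^ 2) =
          fun x => ENNReal.ofReal ((4 * Real.pi) ^ 2) * (ENNReal.ofReal (|inner ℝ b x| ^ (2:ℝ)) * ‖(f : E → ℂ) x‖ₑ ^ 2) := by
          ext x
          rw [ENNReal.ofReal_mul (by positivity), mul_assoc]
        rw [e, lintegral_const_mul' _ _ ENNReal.ofReal_ne_top]
        exact ENNReal.mul_lt_top ENNReal.ofReal_lt_top hf)
      (by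
        filter_upwards [self_mem_nhdsWithin] with t ht x
        have ht' : 0 < t := ht
        have h1 : ‖(t:ℂ)⁻¹ * (chr (inner ℝ (t • b) x) - 1)‖ ≤ 2 * Real.pi * |inner ℝ b x| := by
          rw [norm_mul, norm_inv, Complex.norm_real, Real.norm_of_nonneg ht'.le, inv_mul_le_iff₀ ht']
          refine (norm_chr_sub_one_le _).trans (le_of_eq ?_)
          rw [inner_smul_left]
          simp only [conj_trivial]
          rw [abs_mul, abs_of_pos ht']
          ring
        have h2 : ‖(t:ℂ)⁻¹ * (chr (inner ℝ (t • b) x) - 1) - (2 * Real.pi * Complex.I * (inner ℝ b x : ℝ))‖ ≤ 4 * Real.pi * |inner ℝ b x| := by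
          calc _ ≤ ‖(t:ℂ)⁻¹ * (chr (inner ℝ (t • b) x) - 1)‖ + ‖(2 * Real.pi * Complex.I * (inner ℝ b x : ℝ) : ℂ)‖ := norm_sub_le _ _
            _ ≤ 2 * Real.pi * |inner ℝ b x| + 2 * Real.pi * |inner ℝ b x| := by
              rw [norm_two_pi_I]; gcongr
            _ = _ := by ring
        rw [Real.rpow_two, ← mul_pow]
        have h0 := norm_nonneg ((t:ℂ)⁻¹ * (chr (inner ℝ (t • b) x) - 1) - (2 * Real.pi * Complex.I * (inner ℝ b x : ℝ)))
        gcongr)
      (by
        intro x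
        have h1 := (chr_hasDerivAt (inner ℝ b x)).tendsto_slope
        have h2 : Tendsto (fun t : ℝ => slope (fun t : ℝ => chr (t * inner ℝ b x)) 0 t) (𝓝[>] 0) (𝓝 (2 * Real.pi * Complex.I * (inner ℝ b x : ℝ))) :=
          h1.mono_left (nhdsWithin_mono _ (fun y hy => ne_of_gt hy))
        have h3 := (h2.sub_const (2 * Real.pi * Complex.I * (inner ℝ b x : ℝ))).norm.pow 2
        simp only [sub_self, norm_zero] at h3
        rw [zero_pow (by norm_num)] at h3
        refine h3.congr ?_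
        intro t
        simp only [slope, vsub_eq_sub, sub_zero, zero_mul, chr_zero]
        rw [inner_smul_left]
        simp only [conj_trivial, Complex.real_smul, Complex.ofReal_inv])
    refine h.congr ?_
    intro t
    rw [norm_sq_of_ae _ f]
    filter_upwards [Lp.coeFn_sub ((t:ℂ)⁻¹ • (mo (t • b) f - f)) (YY b f hf), Lp.coeFn_smul (t:ℂ)⁻¹ (mo (t • b) f - f),
      mo_sub_coe (t • b) f, YY_coe b f hf] with x h1 h2 h3 h4
    rw [h1, Pi.sub_apply, h2, Pi.smul_apply, h3, h4, smul_eq_mul]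
    ring
  have h2 := hsq.sqrt
  simpa [Real.sqrt_sq (norm_nonneg _)] using h2

/-- difference operator -/
noncomputable def Dop (y : E) (f : Lp ℂ 2 (volume : Measure E)) : Lp ℂ 2 (volume : Measure E) := mo y f - f

lemma Dop_iter_coe (y : E) (f : Lp ℂ 2 (volume : Measure E)) (j : ℕ) :
    (((Dop y)^[j] f : Lp ℂ 2 (volume : Measure E)) : E → ℂ) =ᵐ[volume] fun x => (chr (inner ℝ y x) - 1) ^ j * (f : E → ℂ) x := by
  induction j with
  | zero => simp
  | succ j ih =>
    rw [Function.iterate_succ_apply']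
    filter_upwards [ih, mo_sub_coe y ((Dop y)^[j] f)] with x h1 h2
    unfold Dop at h2 ⊢
    rw [h2]
    unfold Dop at h1
    rw [h1]
    ring

/-- approximants of the derivative vector -/
noncomputable def Yh (m : ℕ) (h : ℝ) (b : E) (f : Lp ℂ 2 (volume : Measure E)) : Lp ℂ 2 (volume : Measure E) :=
  ∑ j ∈ Finset.range m, ((h:ℂ)⁻¹ * ((-1) ^ j / ((j:ℂ) + 1))) • (Dop (h • b))^[j + 1] f

lemma coeFn_sum {ι : Type*} (s : Finset ι) (F : ι → Lp ℂ 2 (volume : Measure E)) :
    ((∑ i ∈ s, F i : Lp ℂ 2 (volume : Measure E)) : E → ℂ) =ᵐ[volume] fun x => ∑ i ∈ s, (F i : E → ℂ) x := by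
  classical
  induction s using Finset.induction_on with
  | empty => 
    simp only [Finset.sum_empty]
    exact Lp.coeFn_zero _ _ _
  | insert i s hi ih =>
    rw [Finset.sum_insert hi]
    filter_upwards [ih, Lp.coeFn_add (F i) (∑ i ∈ s, F i)] with x h1 h2
    rw [h2, Pi.add_apply, h1, Finset.sum_insert hi]

lemma Yh_coe (m : ℕ) (h : ℝ) (b : E) (f : Lp ℂ 2 (volume : Measure E)) :
    (Yh m h b f : E → ℂ) =ᵐ[volume] fun x => ((h:ℂ)⁻¹ * Pm m (chr (inner ℝ (h • b) x))) * (f : E → ℂ) x := by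
  have hall : ∀ᵐ x, ∀ j : ℕ, ((((h:ℂ)⁻¹ * ((-1) ^ j / ((j:ℂ) + 1))) • (Dop (h • b))^[j + 1] f : Lp ℂ 2 (volume : Measure E)) : E → ℂ) x =
      ((h:ℂ)⁻¹ * ((-1) ^ j / ((j:ℂ) + 1))) * ((chr (inner ℝ (h • b) x) - 1) ^ (j + 1) * (f : E → ℂ) x) := by
    rw [ae_all_iff]
    intro j
    filter_upwards [Lp.coeFn_smul ((h:ℂ)⁻¹ * ((-1) ^ j / ((j:ℂ) + 1))) ((Dop (h • b))^[j + 1] f), Dop_iter_coe (h • b) f (j + 1)] with x h1 h2
    rw [h1, Pi.smul_apply, h2, smul_eq_mul]
  filter_upwards [coeFn_sum (Finset.range m) (fun j => ((h:ℂ)⁻¹ * ((-1) ^ j / ((j:ℂ) + 1))) • (Dop (h • b))^[j + 1] f), hall] with x h1 h2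
  unfold Yh
  rw [h1]
  unfold Pm
  rw [Finset.mul_sum, Finset.sum_mul]
  apply Finset.sum_congr rfl
  intro j _
  rw [h2 j]
  ring

lemma mult_bound (m : ℕ) (h r : ℝ) (hh : 0 < h) :
    ‖(2 * Real.pi * Complex.I * (r : ℝ) : ℂ) - (h:ℂ)⁻¹ * Pm m (chr (h * r))‖ ≤ 
      2 * Real.pi * |r| * (min 2 (2 * Real.pi * |r| * h)) ^ m := by
  have h1 := Pm_bound m (2 * Real.pi * (h * r))
  have e1 : Complex.exp (Complex.I * ((2 * Real.pi * (h * r) : ℝ) : ℂ)) = chr (h * r) := by
    unfold chr; congr 1; push_cast; ring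
  rw [e1] at h1
  have hne : (h:ℂ) ≠ 0 := by exact_mod_cast hh.ne'
  have e2 : (2 * Real.pi * Complex.I * (r : ℝ) : ℂ) - (h:ℂ)⁻¹ * Pm m (chr (h * r)) =
      - ((h:ℂ)⁻¹ * (Pm m (chr (h * r)) - Complex.I * ((2 * Real.pi * (h * r) : ℝ) : ℂ))) := by
    push_cast
    field_simp
    ring
  have e3 : |2 * Real.pi * (h * r)| = 2 * Real.pi * |r| * h := by
    rw [abs_mul, abs_mul h, abs_of_nonneg (by positivity : 0 ≤ 2 * Real.pi), abs_of_pos hh]
    ring
  rw [e3] at h1
  rw [e2, norm_neg, norm_mul, norm_inv, Complex.norm_real, Real.norm_of_nonneg hh.le, inv_mul_le_iff₀ hh]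
  refine h1.trans (le_of_eq ?_)
  ring

lemma min_pow_bound (m : ℕ) (y s : ℝ) (hy : 0 ≤ y) (hs : 0 ≤ s) (hsm : s ≤ 2 * m) :
    (min 2 y) ^ (2 * m) ≤ 4 ^ m * y ^ s := by
  rcases le_total y 1 with h | h
  · have h1 : min 2 y = y := min_eq_right (by linarith)
    rw [h1]
    have h2 : y ^ ((2 * m : ℕ) : ℝ) ≤ y ^ s := 
      Real.rpow_le_rpow_of_exponent_ge_of_imp hy h (by push_cast; exact hsm) (by
        intro _ h3
        push_cast at h3
        exact le_antisymm (by linarith) hs)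
    rw [Real.rpow_natCast] at h2
    have h3 : (1:ℝ) ≤ 4 ^ m := one_le_pow₀ (by norm_num)
    have h4 : 0 ≤ y ^ s := by positivity
    nlinarith
  · have h1 : (min 2 y) ^ (2 * m) ≤ 2 ^ (2 * m) := by
      gcongr
      exact min_le_left _ _
    have h2 : (2:ℝ) ^ (2 * m) = 4 ^ m := by rw [pow_mul]; norm_num
    have h3 : 1 ≤ y ^ s := Real.one_le_rpow h hs
    rw [h2] at h1
    have h4 : (0:ℝ) < 4 ^ m := by positivity
    nlinarith

/-- Quantitative approximation of the derivative vector. -/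
lemma E3b (b : E) (p : ℝ) (hp : 2 ≤ p) (m : ℕ) (hm : p - 2 < 2 * m) (f : Lp ℂ 2 (volume : Measure E))
    (hf2 : wt b 2 f < ⊤) (hf : wt b p f < ⊤) :
    Tendsto (fun h : ℝ => ‖YY b f hf2 - Yh m h b f‖ ^ 2 / h ^ (p - 2)) (𝓝[>] 0) (𝓝 0) := by
  have h := dct f (𝓝[>] (0:ℝ)) (fun h x => ‖(2 * Real.pi * Complex.I * (inner ℝ b x : ℝ) : ℂ) - (h:ℂ)⁻¹ * Pm m (chr (inner ℝ (h • b) x))‖ ^ 2 / h ^ (p - 2))
    (fun x => (4 ^ m * (2 * Real.pi) ^ p) * |inner ℝ b x| ^ p)
    (by
      intro t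
      apply Measurable.div_const
      apply Measurable.pow_const
      apply Measurable.norm
      apply Measurable.sub
      · apply Continuous.measurable
        fun_prop
      · apply Measurable.const_mul
        apply Continuous.measurable
        unfold Pm
        have : Continuous fun x : E => chr (inner ℝ (t • b) x) := continuous_chr.comp (by fun_prop)
        fun_prop)
    (by
      have e : (fun x => ENNReal.ofReal ((4 ^ m * (2 * Real.pi) ^ p) * |inner ℝ b x| ^ p) * ‖(f : E → ℂ) x‖ₑ ^ 2) =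
          fun x => ENNReal.ofReal (4 ^ m * (2 * Real.pi) ^ p) * (ENNReal.ofReal (|inner ℝ b x| ^ p) * ‖(f : E → ℂ) x‖ₑ ^ 2) := by
          ext x
          rw [ENNReal.ofReal_mul (by positivity), mul_assoc]
      rw [e, lintegral_const_mul' _ _ ENNReal.ofReal_ne_top]
      exact ENNReal.mul_lt_top ENNReal.ofReal_lt_top hf)
    (by
      filter_upwards [self_mem_nhdsWithin] with h hh x
      have hh' : 0 < h := hh
      have h1 := mult_bound m h (inner ℝ b x) hh'
      have e1 : inner ℝ (h • b) x = h * inner ℝ b x := by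
        rw [inner_smul_left]; simp
      rw [e1]
      set r := |inner ℝ b x| with hr
      have hr0 : 0 ≤ r := abs_nonneg _
      rw [div_le_iff₀ (Real.rpow_pos_of_pos hh' _)]
      have h2 : ‖(2 * Real.pi * Complex.I * (inner ℝ b x : ℝ) : ℂ) - (h:ℂ)⁻¹ * Pm m (chr (h * inner ℝ b x))‖ ^ 2 ≤
          (2 * Real.pi * r) ^ 2 * (min 2 (2 * Real.pi * r * h)) ^ (2 * m) := by
        calc _ ≤ (2 * Real.pi * r * (min 2 (2 * Real.pi * r * h)) ^ m) ^ 2 := by gcongr
          _ = _ := by rw [mul_pow, ← pow_mul, mul_comm m 2]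
      refine h2.trans ?_
      have h3 := min_pow_bound m (2 * Real.pi * r * h) (p - 2) (by positivity) (by linarith) hm.le
      rcases eq_or_lt_of_le hr0 with h0 | h0
      · rw [← h0]
        simp
        positivity
      · calc (2 * Real.pi * r) ^ 2 * (min 2 (2 * Real.pi * r * h)) ^ (2 * m) 
            ≤ (2 * Real.pi * r) ^ 2 * (4 ^ m * (2 * Real.pi * r * h) ^ (p - 2)) := by gcongr
          _ = 4 ^ m * (2 * Real.pi) ^ p * r ^ p * h ^ (p - 2) := by
            rw [Real.mul_rpow (by positivity) hh'.le]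
            have e2 : (2 * Real.pi * r) ^ 2 * (2 * Real.pi * r) ^ (p - 2) = (2 * Real.pi) ^ p * r ^ p := by
              rw [← Real.rpow_two, ← Real.rpow_add (by positivity), ← Real.mul_rpow (by positivity) (by positivity)]
              congr 1
              ring
            linear_combination (4 ^ m * h ^ (p - 2)) * e2)
    (by
      intro x
      set r := |inner ℝ b x| with hr
      have hr0 : 0 ≤ r := abs_nonneg _
      have hb : Tendsto (fun h : ℝ => ((2 * Real.pi * r) ^ 2 * (2 * Real.pi * r) ^ (2 * m)) * h ^ (2 * m - (p - 2))) (𝓝[>] 0) (𝓝 0) := by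
        have h1 : Tendsto (fun h : ℝ => h ^ (2 * m - (p - 2))) (𝓝[>] 0) (𝓝 0) := by
          have h2 : Tendsto (fun h : ℝ => h ^ (2 * m - (p - 2))) (𝓝 0) (𝓝 (0 ^ (2 * m - (p - 2)))) :=
            (Real.continuousAt_rpow_const 0 _ (Or.inr (by linarith))).tendsto
          rw [Real.zero_rpow (by linarith)] at h2
          exact h2.mono_left nhdsWithin_le_nhds
        simpa using h1.const_mul ((2 * Real.pi * r) ^ 2 * (2 * Real.pi * r) ^ (2 * m))
      apply squeeze_zero' _ _ hb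
      · filter_upwards [self_mem_nhdsWithin] with t ht
        have ht' : 0 < t := ht
        positivity
      · filter_upwards [self_mem_nhdsWithin] with h hh
        have hh' : 0 < h := hh
        have h1 := mult_bound m h (inner ℝ b x) hh'
        have e1 : inner ℝ (h • b) x = h * inner ℝ b x := by
          rw [inner_smul_left]; simp
        rw [e1]
        rw [← hr] at h1
        rw [div_le_iff₀ (Real.rpow_pos_of_pos hh' _)]
        have h2 : ‖(2 * Real.pi * Complex.I * (inner ℝ b x : ℝ) : ℂ) - (h:ℂ)⁻¹ * Pm m (chr (h * inner ℝ b x))‖ ^ 2 ≤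
            (2 * Real.pi * r) ^ 2 * (2 * Real.pi * r * h) ^ (2 * m) := by
          calc _ ≤ (2 * Real.pi * r * (min 2 (2 * Real.pi * r * h)) ^ m) ^ 2 := by gcongr
            _ = (2 * Real.pi * r) ^ 2 * (min 2 (2 * Real.pi * r * h)) ^ (2 * m) := by rw [mul_pow, ← pow_mul, mul_comm m 2]
            _ ≤ _ := by
              gcongr
              exact min_le_right _ _
        refine h2.trans (le_of_eq ?_)
        rw [mul_pow (2 * Real.pi * r) h]
        have e3 : h ^ (2 * (m:ℝ) - (p - 2)) * h ^ (p - 2) = h ^ (2 * m) := by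
          rw [← Real.rpow_add hh', ← Real.rpow_natCast]
          congr 1
          push_cast; ring
        rw [mul_assoc (((2 * Real.pi * r) ^ 2 * (2 * Real.pi * r) ^ (2 * m))), e3]
        ring)
  refine h.congr' ?_
  filter_upwards [self_mem_nhdsWithin] with h hh
  have hh' : 0 < h := hh
  have hpos : 0 < h ^ (p - 2) := Real.rpow_pos_of_pos hh' _
  have hco : ((YY b f hf2 - Yh m h b f : Lp ℂ 2 (volume : Measure E)) : E → ℂ) =ᵐ[volume] fun x => 
      ((2 * Real.pi * Complex.I * (inner ℝ b x : ℝ) : ℂ) - (h:ℂ)⁻¹ * Pm m (chr (inner ℝ (h • b) x))) * (f : E → ℂ) x := by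
    filter_upwards [Lp.coeFn_sub (YY b f hf2) (Yh m h b f), YY_coe b f hf2, Yh_coe m h b f] with x h1 h2 h3
    rw [h1, Pi.sub_apply, h2, h3]
    ring
  rw [norm_sq_of_ae _ f _ hco]
  have e : (fun x => ENNReal.ofReal (‖(2 * Real.pi * Complex.I * (inner ℝ b x : ℝ) : ℂ) - (h:ℂ)⁻¹ * Pm m (chr (inner ℝ (h • b) x))‖ ^ 2 / h ^ (p - 2)) * ‖(f : E → ℂ) x‖ₑ ^ 2) =
      fun x => ENNReal.ofReal (1 / h ^ (p - 2)) * (ENNReal.ofReal (‖(2 * Real.pi * Complex.I * (inner ℝ b x : ℝ) : ℂ) - (h:ℂ)⁻¹ * Pm m (chr (inner ℝ (h • b) x))‖ ^ 2) * ‖(f : E → ℂ) x‖ₑ ^ 2) := by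
    ext x
    rw [← mul_assoc, ← ENNReal.ofReal_mul (by positivity)]
    congr 2
    ring
  rw [e, lintegral_const_mul' _ _ ENNReal.ofReal_ne_top, ENNReal.toReal_mul, ENNReal.toReal_ofReal (by positivity)]
  ring

end Pool.Agent.Helper67.BLT
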