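import Pool.Agent.Helper67.BLT.B3

set_option autoImplicit false
open MeasureTheory Set Filter Submodule FourierTransform
open scoped ENNReal Topology ComplexConjugate

namespace Pool.Agent.Helper67.BLT

lemma hasSum_cos (x : ℝ) (hx : x ∈ Icc (0 : ℝ) 1) :
    HasSum (fun n : ℕ => 1 / (n : ℝ) ^ 2 * Real.cos (2 * Real.pi * n * x)) (Real.pi ^ 2 * (x ^ 2 - x + 6⁻¹)) := by
  have h := hasSum_one_div_nat_pow_mul_cos (k := 1) one_ne_zero hx
  have e : (Polynomial.map (algebraMap ℚ ℝ) (Polynomial.bernoulli (2 * 1))).eval x = x ^ 2 - x + 6⁻¹ := by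
    have := bernoulliFun_two x
    unfold bernoulliFun at this
    exact this
  rw [e] at h
  have e2 : (-1 : ℝ) ^ (1 + 1) * (2 * Real.pi) ^ (2 * 1) / 2 / ((2 * 1).factorial : ℝ) = Real.pi ^ 2 := by
    norm_num [Nat.factorial]
    ring
  rw [e2] at h
  simpa using h

/-- the sawtooth expansion -/
lemma hasSum_saw (L c : ℝ) (hL : 0 < L) (hc : |c| ≤ L / 4) :
    HasSum (fun n : ℕ => 1 / (n : ℝ) ^ 2 * (4 * Real.cos (2 * Real.pi * n * (c / L + 1/4)) -
      Real.cos (2 * Real.pi * n * (2 * (c / L + 1/4))))) (-(2 * Real.pi ^ 2 / L) * c) := by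
  have hc' := abs_le.1 hc
  have h1 : -(1/4) ≤ c / L := by rw [le_div_iff₀ hL]; linarith
  have h2 : c / L ≤ 1/4 := by rw [div_le_iff₀ hL]; linarith
  set y := c / L + 1/4 with hy
  have hy0 : 0 ≤ y := by linarith
  have hy1 : 2 * y ≤ 1 := by linarith
  have s1 := (hasSum_cos y ⟨hy0, by linarith⟩).mul_left 4
  have s2 := hasSum_cos (2 * y) ⟨by linarith, hy1⟩
  have s3 := s1.sub s2
  have e1 : (fun n : ℕ => 1 / (n : ℝ) ^ 2 * (4 * Real.cos (2 * Real.pi * n * y) - Real.cos (2 * Real.pi * n * (2 * y)))) =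
      fun n : ℕ => 4 * (1 / (n : ℝ) ^ 2 * Real.cos (2 * Real.pi * n * y)) - 1 / (n : ℝ) ^ 2 * Real.cos (2 * Real.pi * n * (2 * y)) := by
    ext n; ring
  have e2 : -(2 * Real.pi ^ 2 / L) * c = 4 * (Real.pi ^ 2 * (y ^ 2 - y + 6⁻¹)) - Real.pi ^ 2 * ((2 * y) ^ 2 - 2 * y + 6⁻¹) := by
    have : c / L = y - 1/4 := by rw [hy]; ring
    have h3 : -(2 * Real.pi ^ 2 / L) * c = -(2 * Real.pi ^ 2) * (c / L) := by ring
    rw [h3, this]
    ring
  rw [e1, e2]
  exact s3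

lemma cos_eq_chr (x : ℝ) : ((Real.cos (2 * Real.pi * x) : ℝ) : ℂ) = (1/2) * (chr x + chr (-x)) := by
  unfold chr
  rw [Complex.ofReal_cos, Complex.cos]
  push_cast
  have e1 : (2 * Real.pi * x * Complex.I : ℂ) = 2 * Real.pi * Complex.I * x := by ring
  have e2 : (-(2 * Real.pi * x) * Complex.I : ℂ) = 2 * Real.pi * Complex.I * (-x) := by ring
  rw [e1, e2]
  ring

variable {E : Type*} [NormedAddCommGroup E] [InnerProductSpace ℝ E] [FiniteDimensional ℝ E]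
  [MeasurableSpace E] [BorelSpace E]

/-- one term of the sawtooth expansion acting on `f` -/
noncomputable def sawTerm (L : ℝ) (b : E) (f : Lp ℂ 2 (volume : Measure E)) (n : ℕ) : Lp ℂ 2 (volume : Measure E) :=
  (((1 / (n:ℝ) ^ 2 : ℝ) : ℂ) * 2 * chr (n / 4)) • mo ((n / L) • b) f +
  ((((1 / (n:ℝ) ^ 2 : ℝ) : ℂ) * 2 * chr (-(n / 4))) • mo ((-(n / L)) • b) f +
  ((((1 / (n:ℝ) ^ 2 : ℝ) : ℂ) * (-(1/2)) * chr (n / 2)) • mo ((2 * n / L) • b) f +
  (((1 / (n:ℝ) ^ 2 : ℝ) : ℂ) * (-(1/2)) * chr (-(n / 2))) • mo ((-(2 * n / L)) • b) f))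

lemma sawTerm_coe (L : ℝ) (hL : 0 < L) (b : E) (f : Lp ℂ 2 (volume : Measure E)) (n : ℕ) :
    (sawTerm L b f n : E → ℂ) =ᵐ[volume] fun x => ((1 / (n : ℝ) ^ 2 * (4 * Real.cos (2 * Real.pi * n * (inner ℝ b x / L + 1/4)) -
      Real.cos (2 * Real.pi * n * (2 * (inner ℝ b x / L + 1/4)))) : ℝ) : ℂ) * (f : E → ℂ) x := by
  set a1 : ℂ := (((1 / (n:ℝ) ^ 2 : ℝ) : ℂ) * 2 * chr (n / 4)) with ha1
  set a2 : ℂ := (((1 / (n:ℝ) ^ 2 : ℝ) : ℂ) * 2 * chr (-(n / 4))) with ha2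
  set a3 : ℂ := (((1 / (n:ℝ) ^ 2 : ℝ) : ℂ) * (-(1/2)) * chr (n / 2)) with ha3
  set a4 : ℂ := (((1 / (n:ℝ) ^ 2 : ℝ) : ℂ) * (-(1/2)) * chr (-(n / 2))) with ha4
  filter_upwards [Lp.coeFn_add (a1 • mo ((n / L) • b) f) (a2 • mo ((-(n / L)) • b) f + (a3 • mo ((2 * n / L) • b) f + a4 • mo ((-(2 * n / L)) • b) f)),
    Lp.coeFn_add (a2 • mo ((-(n / L)) • b) f) (a3 • mo ((2 * n / L) • b) f + a4 • mo ((-(2 * n / L)) • b) f),
    Lp.coeFn_add (a3 • mo ((2 * n / L) • b) f) (a4 • mo ((-(2 * n / L)) • b) f),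
    Lp.coeFn_smul a1 (mo ((n / L) • b) f), Lp.coeFn_smul a2 (mo ((-(n / L)) • b) f), Lp.coeFn_smul a3 (mo ((2 * n / L) • b) f),
    Lp.coeFn_smul a4 (mo ((-(2 * n / L)) • b) f), mo_coe ((n / L) • b) f, mo_coe ((-(n / L)) • b) f,
    mo_coe ((2 * n / L) • b) f, mo_coe ((-(2 * n / L)) • b) f] with x h1 h2 h3 h4 h5 h6 h7 h8 h9 h10 h11
  unfold sawTerm
  rw [← ha1, ← ha2, ← ha3, ← ha4, h1, Pi.add_apply, h2, Pi.add_apply, h3, Pi.add_apply, h4, h5, h6, h7]
  simp only [Pi.smul_apply, smul_eq_mul]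
  rw [h8, h9, h10, h11]
  simp only [inner_smul_left, conj_trivial]
  set c : ℝ := inner ℝ b x with hc
  have e1 : chr (n / 4) * chr (n / L * c) = chr (n * (c / L + 1/4)) := by
    rw [← chr_add]; congr 1; ring
  have e2 : chr (-(n / 4)) * chr (-(n / L) * c) = chr (-(n * (c / L + 1/4))) := by
    rw [← chr_add]; congr 1; ring
  have e3 : chr (n / 2) * chr (2 * n / L * c) = chr (n * (2 * (c / L + 1/4))) := by
    rw [← chr_add]; congr 1; ring
  have e4 : chr (-(n / 2)) * chr (-(2 * n / L) * c) = chr (-(n * (2 * (c / L + 1/4)))) := by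
    rw [← chr_add]; congr 1; ring
  have c1 := cos_eq_chr (n * (c / L + 1/4))
  have c2 := cos_eq_chr (n * (2 * (c / L + 1/4)))
  have c1' : ((Real.cos (2 * Real.pi * n * (c / L + 1/4)) : ℝ) : ℂ) = (1/2) * (chr (n * (c / L + 1/4)) + chr (-(n * (c / L + 1/4)))) := by
    rw [← c1]; congr 2; ring
  have c2' : ((Real.cos (2 * Real.pi * n * (2 * (c / L + 1/4))) : ℝ) : ℂ) = (1/2) * (chr (n * (2 * (c / L + 1/4))) + chr (-(n * (2 * (c / L + 1/4))))) := by
    rw [← c2]; congr 2; ring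
  rw [Complex.ofReal_mul, Complex.ofReal_sub, Complex.ofReal_mul, c1', c2', ha1, ha2, ha3, ha4]
  simp only [Complex.ofReal_ofNat]
  set q : ℂ := (((1 / (n:ℝ) ^ 2 : ℝ)) : ℂ) with hq
  linear_combination (q * 2 * (f : E → ℂ) x) * e1 + (q * 2 * (f : E → ℂ) x) * e2
    + (q * (-(1/2)) * (f : E → ℂ) x) * e3 + (q * (-(1/2)) * (f : E → ℂ) x) * e4

lemma norm_one_div_sq (n : ℕ) : ‖(((1 / (n:ℝ) ^ 2 : ℝ)) : ℂ)‖ = 1 / (n:ℝ) ^ 2 := by
  rw [Complex.norm_real, Real.norm_of_nonneg (by positivity)]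

lemma saw_real_bound (L c : ℝ) (n : ℕ) :
    |1 / (n : ℝ) ^ 2 * (4 * Real.cos (2 * Real.pi * n * (c / L + 1/4)) -
      Real.cos (2 * Real.pi * n * (2 * (c / L + 1/4))))| ≤ 5 * (1 / (n:ℝ) ^ 2) := by
  rw [abs_mul, abs_of_nonneg (by positivity : 0 ≤ 1 / (n:ℝ) ^ 2)]
  have h1 := Real.abs_cos_le_one (2 * Real.pi * n * (c / L + 1/4))
  have h2 := Real.abs_cos_le_one (2 * Real.pi * n * (2 * (c / L + 1/4)))
  have h3 : |4 * Real.cos (2 * Real.pi * n * (c / L + 1/4)) - Real.cos (2 * Real.pi * n * (2 * (c / L + 1/4)))| ≤ 5 := by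
    rw [abs_le] at h1 h2 ⊢
    constructor <;> linarith
  have : 0 ≤ 1 / (n:ℝ) ^ 2 := by positivity
  nlinarith

/-- Endpoint estimate: closedness argument. -/
lemma E4 (b : E) (f : Lp ℂ 2 (volume : Measure E)) (hf : wt b 2 f < ⊤) (r : ℝ) (hr : 0 < r)
    (hsupp : ∀ᵐ x, (f : E → ℂ) x ≠ 0 → |inner ℝ b x| ≤ r)
    (P : ℝ → Lp ℂ 2 (volume : Measure E) → Prop)
    (hadd : ∀ C C' F F', P C F → P C' F' → P (C + C') (F + F'))
    (hsmul : ∀ (a : ℂ) C F, P C F → P (‖a‖ * C) (a • F))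
    (hlim : ∀ C (F : ℕ → Lp ℂ 2 (volume : Measure E)) F0, (∀ n, P C (F n)) → Tendsto F atTop (𝓝 F0) → P C F0)
    (hmono : ∀ C C' F, P C F → C ≤ C' → P C' F) (hzero : P 0 0)
    (K : ℝ) (hK : 0 ≤ K) (hmo : ∀ s : ℝ, P K (mo (s • b) f)) : ∃ C, P C (YY b f hf) := by
  set L : ℝ := 4 * r with hL
  have hLpos : 0 < L := by positivity
  set a0 : ℂ := -(Complex.I * L / Real.pi) with ha0
  let F : ℕ → Lp ℂ 2 (volume : Measure E) := fun N => a0 • ∑ n ∈ Finset.range N, sawTerm L b f n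
  have hsummable : Summable (fun n : ℕ => 5 * K * (1 / (n:ℝ) ^ 2)) :=
    (Real.summable_one_div_nat_pow.2 (by norm_num : 1 < 2)).mul_left _
  -- bounds
  have hterm : ∀ n : ℕ, P (5 * K * (1 / (n:ℝ) ^ 2)) (sawTerm L b f n) := by
    intro n
    have h1 := hsmul (((1 / (n:ℝ) ^ 2 : ℝ) : ℂ) * 2 * chr (n / 4)) K _ (hmo (n / L))
    have h2 := hsmul (((1 / (n:ℝ) ^ 2 : ℝ) : ℂ) * 2 * chr (-(n / 4))) K _ (hmo (-(n / L)))
    have h3 := hsmul (((1 / (n:ℝ) ^ 2 : ℝ) : ℂ) * (-(1/2)) * chr (n / 2)) K _ (hmo (2 * n / L))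
    have h4 := hsmul (((1 / (n:ℝ) ^ 2 : ℝ) : ℂ) * (-(1/2)) * chr (-(n / 2))) K _ (hmo (-(2 * n / L)))
    have h5 := hadd _ _ _ _ h1 (hadd _ _ _ _ h2 (hadd _ _ _ _ h3 h4))
    refine hmono _ _ _ h5 (le_of_eq ?_)
    simp only [norm_mul, norm_chr, norm_one_div_sq, norm_neg]
    norm_num
    ring
  have hsum : ∀ N, P (∑ n ∈ Finset.range N, 5 * K * (1 / (n:ℝ) ^ 2)) (∑ n ∈ Finset.range N, sawTerm L b f n) := by
    intro N
    induction N with
    | zero => simpa using hzero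
    | succ N ih =>
      rw [Finset.sum_range_succ, Finset.sum_range_succ]
      exact hadd _ _ _ _ ih (hterm N)
  have hPF : ∀ N, P (‖a0‖ * ∑' n : ℕ, 5 * K * (1 / (n:ℝ) ^ 2)) (F N) := by
    intro N
    refine hmono _ _ _ (hsmul a0 _ _ (hsum N)) ?_
    gcongr
    exact hsummable.sum_le_tsum _ (fun n _ => by positivity)
  refine ⟨_, hlim _ F (YY b f hf) hPF ?_⟩
  -- convergence
  rw [tendsto_iff_norm_sub_tendsto_zero]
  let sr : ℕ → ℝ → ℝ := fun N c => ∑ n ∈ Finset.range N, 1 / (n : ℝ) ^ 2 * (4 * Real.cos (2 * Real.pi * n * (c / L + 1/4)) -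
      Real.cos (2 * Real.pi * n * (2 * (c / L + 1/4))))
  have hFcoe : ∀ N, (F N : E → ℂ) =ᵐ[volume] fun x => (a0 * ((sr N (inner ℝ b x) : ℝ) : ℂ)) * (f : E → ℂ) x := by
    intro N
    have hall : ∀ᵐ x, ∀ n : ℕ, (sawTerm L b f n : E → ℂ) x = ((1 / (n : ℝ) ^ 2 * (4 * Real.cos (2 * Real.pi * n * (inner ℝ b x / L + 1/4)) -
      Real.cos (2 * Real.pi * n * (2 * (inner ℝ b x / L + 1/4)))) : ℝ) : ℂ) * (f : E → ℂ) x := by
      rw [ae_all_iff]
      intro n
      exact sawTerm_coe L hLpos b f n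
    filter_upwards [Lp.coeFn_smul a0 (∑ n ∈ Finset.range N, sawTerm L b f n), coeFn_sum (Finset.range N) (fun n => sawTerm L b f n), hall] with x h1 h2 h3
    change ((a0 • ∑ n ∈ Finset.range N, sawTerm L b f n : Lp ℂ 2 (volume : Measure E)) : E → ℂ) x = _
    rw [h1, Pi.smul_apply, h2, smul_eq_mul, mul_assoc]
    congr 1
    simp only [sr]
    rw [Complex.ofReal_sum, Finset.sum_mul]
    apply Finset.sum_congr rfl
    intro n _
    exact h3 n
  classical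
  have hmul : ∀ N, ((F N - YY b f hf : Lp ℂ 2 (volume : Measure E)) : E → ℂ) =ᵐ[volume] fun x =>
      (if |inner ℝ b x| ≤ r then a0 * ((sr N (inner ℝ b x) : ℝ) : ℂ) - (2 * Real.pi * Complex.I * (inner ℝ b x : ℝ)) else 0) * (f : E → ℂ) x := by
    intro N
    filter_upwards [Lp.coeFn_sub (F N) (YY b f hf), hFcoe N, YY_coe b f hf, hsupp] with x h1 h2 h3 h4
    rw [h1, Pi.sub_apply, h2, h3]
    split_ifs with h5
    · ring
    · have : (f : E → ℂ) x = 0 := by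
        by_contra h6
        exact h5 (h4 h6)
      rw [this]; simp
  have hsrcont : ∀ N, Continuous (sr N) := by
    intro N
    simp only [sr]
    fun_prop
  have hS := (Real.summable_one_div_nat_pow.2 (by norm_num : 1 < 2)).mul_left (5:ℝ)
  have hsrbd : ∀ N c, |sr N c| ≤ ∑' n : ℕ, 5 * (1 / (n:ℝ) ^ 2) := by
    intro N c
    calc |sr N c| ≤ ∑ n ∈ Finset.range N, |1 / (n : ℝ) ^ 2 * (4 * Real.cos (2 * Real.pi * n * (c / L + 1/4)) -
      Real.cos (2 * Real.pi * n * (2 * (c / L + 1/4))))| := Finset.abs_sum_le_sum_abs _ _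
      _ ≤ ∑ n ∈ Finset.range N, 5 * (1 / (n:ℝ) ^ 2) := Finset.sum_le_sum (fun n _ => saw_real_bound L c n)
      _ ≤ _ := hS.sum_le_tsum _ (fun n _ => by positivity)
  set SS : ℝ := ∑' n : ℕ, 5 * (1 / (n:ℝ) ^ 2) with hSS
  have hSS0 : 0 ≤ SS := tsum_nonneg (fun n => by positivity)
  have hsq : Tendsto (fun N : ℕ => ‖F N - YY b f hf‖ ^ 2) atTop (𝓝 0) := by
    have h := dct f (atTop : Filter ℕ) (fun N x => ‖(if |inner ℝ b x| ≤ r then a0 * ((sr N (inner ℝ b x) : ℝ) : ℂ) - (2 * Real.pi * Complex.I * (inner ℝ b x : ℝ)) else 0)‖ ^ 2)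
      (fun _ => (‖a0‖ * SS + 2 * Real.pi * r) ^ 2)
      (by
        intro N
        apply Measurable.pow_const
        apply Measurable.norm
        apply Measurable.ite
        · exact measurableSet_le (by fun_prop) measurable_const
        · apply Continuous.measurable
          have := (hsrcont N).comp (by fun_prop : Continuous fun x : E => inner ℝ b x)
          fun_prop
        · exact measurable_const)
      (by
        rw [lintegral_const_mul' _ _ ENNReal.ofReal_ne_top]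
        exact ENNReal.mul_lt_top ENNReal.ofReal_lt_top (lintegral_sq_lt_top f))
      (by
        filter_upwards with N x
        gcongr
        split_ifs with h5
        · calc _ ≤ ‖a0 * ((sr N (inner ℝ b x) : ℝ) : ℂ)‖ + ‖(2 * Real.pi * Complex.I * (inner ℝ b x : ℝ) : ℂ)‖ := norm_sub_le _ _
            _ ≤ ‖a0‖ * SS + 2 * Real.pi * r := by
              rw [norm_two_pi_I, norm_mul, Complex.norm_real, Real.norm_eq_abs]
              gcongr
              exact hsrbd N _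
        · rw [norm_zero]; positivity)
      (by
        intro x
        split_ifs with h5
        · have h6 := hasSum_saw L (inner ℝ b x) hLpos (by rw [hL]; linarith)
          have h7 := h6.tendsto_sum_nat
          have h8 : Tendsto (fun N => a0 * ((sr N (inner ℝ b x) : ℝ) : ℂ) - (2 * Real.pi * Complex.I * (inner ℝ b x : ℝ))) atTop
            (𝓝 (a0 * (((-(2 * Real.pi ^ 2 / L) * inner ℝ b x : ℝ)) : ℂ) - (2 * Real.pi * Complex.I * (inner ℝ b x : ℝ)))) := by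
            apply Tendsto.sub_const
            apply Tendsto.const_mul
            exact (Complex.continuous_ofReal.tendsto _).comp h7
          have h9 : a0 * (((-(2 * Real.pi ^ 2 / L) * inner ℝ b x : ℝ)) : ℂ) - (2 * Real.pi * Complex.I * (inner ℝ b x : ℝ)) = 0 := by
            rw [ha0]
            push_cast
            have hpi : (Real.pi : ℂ) ≠ 0 := by exact_mod_cast Real.pi_ne_zero
            have hLc : (L : ℂ) ≠ 0 := by exact_mod_cast hLpos.ne'
            field_simp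
            ring
          rw [h9] at h8
          have h10 := h8.norm.pow 2
          simpa using h10
        · simp)
    refine h.congr ?_
    intro N
    rw [norm_sq_of_ae _ f _ (hmul N)]
  have h2 := hsq.sqrt
  simpa [Real.sqrt_sq (norm_nonneg _)] using h2

end Pool.Agent.Helper67.BLT
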