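import Pool.Agent.Helper67.BLT.A4
import Pool.Agent.Helper67.BLT.B4

set_option autoImplicit false
open MeasureTheory Set Filter Submodule FourierTransform
open scoped ENNReal Topology ComplexConjugate

namespace Pool.Agent.Helper67.BLT

section Bdd

variable {Ω : Type*} [MeasurableSpace Ω] {μ : Measure Ω} [IsProbabilityMeasure μ]
  {A : Type*} [AddCommGroup A] {H : Type*} [NormedAddCommGroup H] [NormedSpace ℂ H]

namespace Rep

variable (R : Rep μ A H)

/-- symbol bounded by `C` -/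
def Bdd (C : ℝ) (f : H) : Prop := ∀ᵐ z ∂μ, ‖R.sym f z‖ ≤ C

lemma Bdd_g : R.Bdd 1 R.g := by
  filter_upwards [R.sym_g] with z hz
  rw [hz]; simp

lemma Bdd_add (C C' : ℝ) (F F' : H) (h : R.Bdd C F) (h' : R.Bdd C' F') : R.Bdd (C + C') (F + F') := by
  filter_upwards [h, h', R.sym_add F F'] with z h1 h2 h3
  rw [h3]
  exact (norm_add_le _ _).trans (add_le_add h1 h2)

lemma Bdd_sub (C C' : ℝ) (F F' : H) (h : R.Bdd C F) (h' : R.Bdd C' F') : R.Bdd (C + C') (F - F') := by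
  filter_upwards [h, h', R.sym_sub F F'] with z h1 h2 h3
  rw [h3]
  exact (norm_sub_le _ _).trans (add_le_add h1 h2)

lemma Bdd_smul (a : ℂ) (C : ℝ) (F : H) (h : R.Bdd C F) : R.Bdd (‖a‖ * C) (a • F) := by
  filter_upwards [h, R.sym_smul a F] with z h1 h3
  rw [h3, norm_mul]
  gcongr

lemma Bdd_mono (C C' : ℝ) (F : H) (h : R.Bdd C F) (hCC : C ≤ C') : R.Bdd C' F := by
  filter_upwards [h] with z h1
  exact h1.trans hCC

lemma Bdd_zero : R.Bdd 0 0 := by
  have h : R.sym 0 =ᵐ[μ] fun _ => 0 := by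
    unfold sym
    rw [map_zero]
    exact Lp.coeFn_zero _ _ _
  filter_upwards [h] with z hz
  rw [hz]; simp

lemma Bdd_lim (C : ℝ) (F : ℕ → H) (F0 : H) (h : ∀ n, R.Bdd C (F n)) (hlim : Tendsto F atTop (𝓝 F0)) :
    R.Bdd C F0 := by
  have h1 : Tendsto (fun n => R.V.symm (F n)) atTop (𝓝 (R.V.symm F0)) :=
    (R.V.symm.continuous.tendsto F0).comp hlim
  have hm := tendstoInMeasure_of_tendsto_Lp h1
  obtain ⟨ns, hns, hae⟩ := hm.exists_seq_tendsto_ae
  have hall : ∀ᵐ z ∂μ, ∀ n, ‖R.sym (F n) z‖ ≤ C := by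
    rw [ae_all_iff]
    exact h
  filter_upwards [hae, hall] with z h2 h3
  apply le_of_tendsto h2.norm
  filter_upwards with n
  exact h3 (ns n)

lemma Bdd_sum {ι : Type*} (s : Finset ι) (C : ι → ℝ) (F : ι → H) (h : ∀ i ∈ s, R.Bdd (C i) (F i)) :
    R.Bdd (∑ i ∈ s, C i) (∑ i ∈ s, F i) := by
  classical
  induction s using Finset.induction_on with
  | empty => simpa using R.Bdd_zero
  | insert i s hi ih =>
    rw [Finset.sum_insert hi, Finset.sum_insert hi]
    apply R.Bdd_add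
    · exact h i (Finset.mem_insert_self _ _)
    · exact ih (fun j hj => h j (Finset.mem_insert_of_mem hj))

/-- transport along a unitary -/
noncomputable def map {H' : Type*} [NormedAddCommGroup H'] [NormedSpace ℂ H'] (Φ : H ≃ₗᵢ[ℂ] H') : Rep μ A H' where
  E := R.E
  e := R.e
  V := R.V.trans Φ.toContinuousLinearEquiv
  ρ := fun a => (Φ.toContinuousLinearEquiv : H →L[ℂ] H').comp ((R.ρ a).comp (Φ.symm.toContinuousLinearEquiv : H' →L[ℂ] H))
  hE1 := R.hE1
  hEadd := R.hEadd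
  he := R.he
  htot := R.htot
  hρ := by
    intro a b
    simp [R.hρ]

lemma map_g {H' : Type*} [NormedAddCommGroup H'] [NormedSpace ℂ H'] (Φ : H ≃ₗᵢ[ℂ] H') : (R.map Φ).g = Φ R.g := rfl

end Rep

namespace Shift

variable {R : Rep μ A H} (S : Shift R)

lemma Bdd_U (C : ℝ) (hC : 0 ≤ C) (F : H) (h : R.Bdd C F) : R.Bdd (bd R * C) (S.U F) := by
  have h1 := S.apply (R.V.symm F)
  rw [ContinuousLinearEquiv.apply_symm_apply] at h1
  have h2 := S.hT.quasiMeasurePreserving.ae h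
  filter_upwards [h1, h2, S.u_bound] with z h1 h2 h3
  have e : R.sym (S.U F) z = S.u z * R.sym F (S.T z) := h1
  rw [e, norm_mul]
  have := bd_nonneg R
  gcongr

/-- transport of shifts -/
noncomputable def map {H' : Type*} [NormedAddCommGroup H'] [NormedSpace ℂ H'] (Φ : H ≃ₗᵢ[ℂ] H') : Shift (R.map Φ) where
  U := (Φ.symm.trans S.U).trans Φ
  T := S.T
  hT := S.hT
  χ := S.χ
  hχ := S.hχ
  hE := S.hE
  hU := by
    intro a f
    simp [Rep.map, S.hU]

lemma map_U {H' : Type*} [NormedAddCommGroup H'] [NormedSpace ℂ H'] (Φ : H ≃ₗᵢ[ℂ] H') (f : H') :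
    (S.map Φ).U f = Φ (S.U (Φ.symm f)) := rfl

end Shift

end Bdd

section Main

variable {Ω : Type*} [MeasurableSpace Ω] {μ : Measure Ω} [IsProbabilityMeasure μ]
  {A : Type*} [AddCommGroup A]
variable {E : Type*} [NormedAddCommGroup E] [InnerProductSpace ℝ E] [FiniteDimensional ℝ E]
  [MeasurableSpace E] [BorelSpace E]

lemma weyl (b : E) (hb : inner ℝ b b = (1:ℝ)) (s t : ℝ) (f : Lp ℂ 2 (volume : Measure E)) :
    mo (s • b) (tr (t • b) f) = Complex.exp (2 * Real.pi * Complex.I * (s * t)) • tr (t • b) (mo (s • b) f) := by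
  rw [mo_tr, inner_smul_left, inner_smul_right, hb]
  congr 1
  unfold chr
  simp

/-- Power case. -/
theorem no_power (R : Rep μ A (Lp ℂ 2 (volume : Measure E))) (b : E) (hb : inner ℝ b b = (1:ℝ))
    (W S : ℝ → Shift R) (hW : ∀ t f, (W t).U f = mo (t • b) f) (hS : ∀ t f, (S t).U f = tr (t • b) f)
    (p q : ℝ) (hp : 2 ≤ p) (hpq : 1 / p + 1 / q = 1) (hq : 1 < q) (hwt : wt b p R.g < ⊤)
    (C : ℝ) (hC : 0 ≤ C) (htr : ∀ t : ℝ, ‖tr (t • b) R.g - R.g‖ ^ 2 ≤ C * |t| ^ q) : False := by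
  have hwt2 := wt_two b p hp R.g hwt
  obtain ⟨m, hm⟩ := exists_nat_gt p
  have hm' : p - 2 < 2 * m := by
    have : (0:ℝ) ≤ m := Nat.cast_nonneg m
    linarith
  set Y := YY b R.g hwt2 with hY
  set β : ℝ := Shift.bd R + 1 with hβ
  have hβ1 : 1 ≤ β := by have := Shift.bd_nonneg R; linarith
  -- symbol bound of approximants
  have hD : ∀ (h : ℝ) (j : ℕ), R.Bdd (β ^ j) ((Dop (h • b))^[j] R.g) := by
    intro h j
    induction j with
    | zero => simpa using R.Bdd_g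
    | succ j ih =>
      rw [Function.iterate_succ_apply']
      unfold Dop
      have h1 := (W h).Bdd_U (β ^ j) (by positivity) _ ih
      rw [hW] at h1
      have h2 := R.Bdd_sub _ _ _ _ h1 ih
      refine R.Bdd_mono _ _ _ h2 (le_of_eq ?_)
      rw [pow_succ, hβ]; ring
  set B₀ : ℝ := ∑ j ∈ Finset.range m, β ^ (j + 1) with hB₀
  have hB₀0 : 0 ≤ B₀ := Finset.sum_nonneg (fun j _ => by positivity)
  have hYh : ∀ h : ℝ, 0 < h → R.Bdd (B₀ / h) (Yh m h b R.g) := by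
    intro h hh
    unfold Yh
    have h1 := R.Bdd_sum (Finset.range m) (fun j => β ^ (j + 1) / h)
      (fun j => ((h:ℂ)⁻¹ * ((-1) ^ j / ((j:ℂ) + 1))) • (Dop (h • b))^[j + 1] R.g) (by
        intro j _
        have h2 := R.Bdd_smul ((h:ℂ)⁻¹ * ((-1) ^ j / ((j:ℂ) + 1))) _ _ (hD h (j + 1))
        refine R.Bdd_mono _ _ _ h2 ?_
        have h3 : ‖((h:ℂ)⁻¹ * ((-1) ^ j / ((j:ℂ) + 1)))‖ ≤ h⁻¹ := by
          rw [norm_mul, norm_inv, Complex.norm_real, Real.norm_of_nonneg hh.le, norm_div, norm_pow, norm_neg, norm_one, one_pow]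
          have h4 : ‖((j:ℂ) + 1)‖ = (j:ℝ) + 1 := by
            have : ((j:ℂ) + 1) = (((j:ℝ) + 1 : ℝ) : ℂ) := by push_cast; rfl
            rw [this, Complex.norm_real, Real.norm_of_nonneg (by positivity)]
          rw [h4]
          have h5 : 1 / ((j:ℝ) + 1) ≤ 1 := by
            rw [div_le_one (by positivity)]
            have : (0:ℝ) ≤ j := Nat.cast_nonneg j
            linarith
          calc h⁻¹ * (1 / ((j:ℝ) + 1)) ≤ h⁻¹ * 1 := by gcongr
            _ = h⁻¹ := mul_one _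
        calc ‖((h:ℂ)⁻¹ * ((-1) ^ j / ((j:ℂ) + 1)))‖ * β ^ (j + 1) ≤ h⁻¹ * β ^ (j + 1) := by gcongr
          _ = _ := by ring)
    rw [← Finset.sum_div] at h1
    exact h1
  -- energy bound
  set C₁ : ℝ := 4 * R.K' ^ 2 * C with hC₁
  have hC₁0 : 0 ≤ C₁ := by positivity
  have hEn : ∀ t : ℝ, 0 < t → (S t).En ≤ C₁ * t ^ q := by
    intro t ht
    have h1 := (S t).En_le
    rw [hS] at h1
    have h2 := htr t
    rw [abs_of_pos ht] at h2
    calc (S t).En ≤ 4 * R.K' ^ 2 * ‖tr (t • b) R.g - R.g‖ ^ 2 := h1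
      _ ≤ 4 * R.K' ^ 2 * (C * t ^ q) := by gcongr
      _ = _ := by ring
  -- main inequality
  let τ : ℕ → ℝ := fun n => 1 / ((n:ℝ) + 1)
  have hτ : ∀ n, 0 < τ n := fun n => by simp only [τ]; positivity
  have hτ0 : Tendsto τ atTop (𝓝 0) := tendsto_one_div_add_atTop_nhds_zero_nat
  have hYlim : Tendsto (fun n => ((τ n : ℂ)⁻¹) • ((W (τ n)).U R.g - R.g)) atTop (𝓝 Y) := by
    have h1 := E3a b R.g hwt2
    have h2 : Tendsto τ atTop (𝓝[>] 0) := by
      rw [tendsto_nhdsWithin_iff]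
      exact ⟨hτ0, Eventually.of_forall (fun n => hτ n)⟩
    have h3 := h1.comp h2
    refine h3.congr ?_
    intro n
    simp only [Function.comp]
    rw [hW]
  have hineq : ∀ t h : ℝ, 0 < t → 0 < h → 2 * Real.pi * t ≤ (Real.pi * t + 2 * (B₀ / h)) * (C₁ * t ^ q) +
      4 * Real.sqrt (C₁ * t ^ q) * (R.K' * ‖Y - Yh m h b R.g‖) := by
    intro t h ht hh
    have h1 := (S t).final_ineq t (fun n => W (τ n)) τ hτ hτ0 (by
      intro n
      rw [hW, hS, hS, hW]
      exact weyl b hb (τ n) t R.g) Y hYlim (Yh m h b R.g) (B₀ / h) (hYh h hh)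
    rw [abs_of_pos ht] at h1
    refine h1.trans ?_
    have h2 := hEn t ht
    have h3 := R.K'_nonneg
    have h4 : 0 ≤ B₀ / h := by positivity
    gcongr
  -- choose the scale
  set lam : ℝ := 2 * B₀ * C₁ + 1 with hlam
  have hlam0 : 0 < lam := by positivity
  have hq0 : 0 < q := by linarith
  have hp0 : 0 < p := by linarith
  have hexp : q / 2 - 1 + (q - 1) * ((p - 2) / 2) = 0 := by
    have h1 : p * q = p + q := by
      field_simp at hpq
      linarith
    nlinarith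
  let N : ℝ → ℝ := fun h => ‖Y - Yh m h b R.g‖ ^ 2 / h ^ (p - 2)
  have hN : Tendsto N (𝓝[>] 0) (𝓝 0) := E3b b p hp m hm' R.g hwt2 hwt
  have key : ∀ t : ℝ, 0 < t → 2 * Real.pi ≤ Real.pi * C₁ * t ^ q + 2 * B₀ * C₁ / lam +
      4 * R.K' * Real.sqrt C₁ * lam ^ ((p - 2) / 2) * Real.sqrt (N (lam * t ^ (q - 1))) := by
    intro t ht
    set h := lam * t ^ (q - 1) with hh
    have htq : 0 < t ^ (q - 1) := Real.rpow_pos_of_pos ht _
    have hh0 : 0 < h := by positivity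
    have h1 := hineq t h ht hh0
    have htt : t ^ q = t * t ^ (q - 1) := by
      rw [← Real.rpow_one_add' ht.le (by linarith)]; congr 1; ring
    have e1 : 2 * (B₀ / h) * (C₁ * t ^ q) = t * (2 * B₀ * C₁ / lam) := by
      rw [hh, htt]
      field_simp
    have e2 : Real.sqrt (C₁ * t ^ q) = Real.sqrt C₁ * t ^ (q / 2) := by
      rw [Real.sqrt_mul hC₁0, Real.sqrt_eq_rpow (t ^ q), ← Real.rpow_mul ht.le]
      congr 2
      ring
    have e3 : ‖Y - Yh m h b R.g‖ = h ^ ((p - 2) / 2) * Real.sqrt (N h) := by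
      have h2 : ‖Y - Yh m h b R.g‖ ^ 2 = h ^ (p - 2) * N h := by
        simp only [N]
        field_simp
      rw [← Real.sqrt_sq (norm_nonneg (Y - Yh m h b R.g)), h2, Real.sqrt_mul (by positivity), Real.sqrt_eq_rpow (h ^ (p - 2)),
        ← Real.rpow_mul hh0.le]
      congr 2
      ring
    have e4 : t ^ (q / 2) * h ^ ((p - 2) / 2) = t * lam ^ ((p - 2) / 2) := by
      rw [hh, Real.mul_rpow hlam0.le htq.le, ← Real.rpow_mul ht.le]
      have : t ^ (q / 2) * t ^ ((q - 1) * ((p - 2) / 2)) = t := by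
        rw [← Real.rpow_add ht]
        have : q / 2 + (q - 1) * ((p - 2) / 2) = 1 := by linarith
        rw [this, Real.rpow_one]
      linear_combination (lam ^ ((p - 2) / 2)) * this
    have h5 : 2 * Real.pi * t ≤ t * (Real.pi * C₁ * t ^ q + 2 * B₀ * C₁ / lam +
      4 * R.K' * Real.sqrt C₁ * lam ^ ((p - 2) / 2) * Real.sqrt (N h)) := by
      calc 2 * Real.pi * t ≤ _ := h1
        _ = Real.pi * t * (C₁ * t ^ q) + 2 * (B₀ / h) * (C₁ * t ^ q) + 
          4 * (Real.sqrt C₁ * t ^ (q / 2)) * (R.K' * (h ^ ((p - 2) / 2) * Real.sqrt (N h))) := by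
            rw [e2, e3]; ring
        _ = _ := by
            rw [e1]
            linear_combination (4 * R.K' * Real.sqrt C₁ * Real.sqrt (N h)) * e4
    have h6 : t * (2 * Real.pi) ≤ t * (Real.pi * C₁ * t ^ q + 2 * B₀ * C₁ / lam +
      4 * R.K' * Real.sqrt C₁ * lam ^ ((p - 2) / 2) * Real.sqrt (N h)) := by linarith
    exact le_of_mul_le_mul_left h6 ht
  have hlimR : Tendsto (fun t : ℝ => Real.pi * C₁ * t ^ q + 2 * B₀ * C₁ / lam +
      4 * R.K' * Real.sqrt C₁ * lam ^ ((p - 2) / 2) * Real.sqrt (N (lam * t ^ (q - 1)))) (𝓝[>] 0)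
      (𝓝 (Real.pi * C₁ * 0 + 2 * B₀ * C₁ / lam + 4 * R.K' * Real.sqrt C₁ * lam ^ ((p - 2) / 2) * Real.sqrt 0)) := by
    have hpow : ∀ r : ℝ, 0 < r → Tendsto (fun t : ℝ => t ^ r) (𝓝[>] 0) (𝓝 0) := by
      intro r hr
      have h2 : Tendsto (fun h : ℝ => h ^ r) (𝓝 0) (𝓝 (0 ^ r)) :=
        (Real.continuousAt_rpow_const 0 _ (Or.inr hr.le)).tendsto
      rw [Real.zero_rpow hr.ne'] at h2
      exact h2.mono_left nhdsWithin_le_nhds
    have hsc : Tendsto (fun t : ℝ => lam * t ^ (q - 1)) (𝓝[>] 0) (𝓝[>] 0) := by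
      rw [tendsto_nhdsWithin_iff]
      refine ⟨by simpa using (hpow (q - 1) (by linarith)).const_mul lam, ?_⟩
      filter_upwards [self_mem_nhdsWithin] with t ht
      have ht' : 0 < t := ht
      have : 0 < t ^ (q - 1) := Real.rpow_pos_of_pos ht' _
      exact mul_pos hlam0 this
    apply Tendsto.add
    · apply Tendsto.add_const
      exact (hpow q hq0).const_mul _
    · apply Tendsto.const_mul
      exact (hN.comp hsc).sqrt
  have hfin : 2 * Real.pi ≤ Real.pi * C₁ * 0 + 2 * B₀ * C₁ / lam + 4 * R.K' * Real.sqrt C₁ * lam ^ ((p - 2) / 2) * Real.sqrt 0 := by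
    apply ge_of_tendsto hlimR
    filter_upwards [self_mem_nhdsWithin] with t ht
    exact key t ht
  rw [Real.sqrt_zero, mul_zero, mul_zero, zero_add, add_zero] at hfin
  have h7 : 2 * B₀ * C₁ / lam ≤ 1 := by
    rw [div_le_one hlam0]
    linarith
  have h8 := Real.pi_gt_three
  linarith

/-- Endpoint case. -/
theorem no_endpoint (R : Rep μ A (Lp ℂ 2 (volume : Measure E))) (b : E) (hb : inner ℝ b b = (1:ℝ))
    (W S : ℝ → Shift R) (hW : ∀ t f, (W t).U f = mo (t • b) f) (hS : ∀ t f, (S t).U f = tr (t • b) f)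
    (r : ℝ) (hr : 0 < r) (hsupp : ∀ᵐ x, (R.g : E → ℂ) x ≠ 0 → |inner ℝ b x| ≤ r)
    (htr : Tendsto (fun t : ℝ => ‖tr (t • b) R.g - R.g‖ ^ 2 / t) (𝓝[>] 0) (𝓝 0)) : False := by
  have hwt2 : wt b 2 R.g < ⊤ := by
    have h1 : wt b 2 R.g ≤ ENNReal.ofReal (r ^ (2:ℝ)) * ∫⁻ x, ‖(R.g : E → ℂ) x‖ₑ ^ 2 := by
      unfold wt
      rw [← lintegral_const_mul' _ _ ENNReal.ofReal_ne_top]
      apply lintegral_mono_ae
      filter_upwards [hsupp] with x hx
      by_cases h0 : (R.g : E → ℂ) x = 0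
      · rw [h0]; simp
      · have := hx h0
        gcongr
    exact lt_of_le_of_lt h1 (ENNReal.mul_lt_top ENNReal.ofReal_lt_top (lintegral_sq_lt_top R.g))
  set Y := YY b R.g hwt2 with hY
  obtain ⟨B, hB⟩ := E4 b R.g hwt2 r hr hsupp R.Bdd R.Bdd_add R.Bdd_smul R.Bdd_lim R.Bdd_mono R.Bdd_zero
    (Shift.bd R) (Shift.bd_nonneg R) (by
      intro s
      have h1 := (W s).Bdd_U 1 (by norm_num) R.g R.Bdd_g
      rw [hW, mul_one] at h1
      exact h1)
  have hB' : R.Bdd (max B 0) Y := R.Bdd_mono _ _ _ hB (le_max_left _ _)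
  set B' := max B 0 with hB'def
  have hB'0 : 0 ≤ B' := le_max_right _ _
  let τ : ℕ → ℝ := fun n => 1 / ((n:ℝ) + 1)
  have hτ : ∀ n, 0 < τ n := fun n => by simp only [τ]; positivity
  have hτ0 : Tendsto τ atTop (𝓝 0) := tendsto_one_div_add_atTop_nhds_zero_nat
  have hYlim : Tendsto (fun n => ((τ n : ℂ)⁻¹) • ((W (τ n)).U R.g - R.g)) atTop (𝓝 Y) := by
    have h1 := E3a b R.g hwt2
    have h2 : Tendsto τ atTop (𝓝[>] 0) := by
      rw [tendsto_nhdsWithin_iff]
      exact ⟨hτ0, Eventually.of_forall (fun n => hτ n)⟩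
    have h3 := h1.comp h2
    refine h3.congr ?_
    intro n
    simp only [Function.comp]
    rw [hW]
  have key : ∀ t : ℝ, 0 < t → 2 * Real.pi ≤ (Real.pi * t + 2 * B') * (4 * R.K' ^ 2) * (‖tr (t • b) R.g - R.g‖ ^ 2 / t) := by
    intro t ht
    have h1 := (S t).final_ineq t (fun n => W (τ n)) τ hτ hτ0 (by
      intro n
      rw [hW, hS, hS, hW]
      exact weyl b hb (τ n) t R.g) Y hYlim Y B' hB'
    rw [abs_of_pos ht, sub_self, norm_zero, mul_zero, mul_zero, add_zero] at h1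
    have h2 := (S t).En_le
    rw [hS] at h2
    have h3 : 2 * Real.pi * t ≤ (Real.pi * t + 2 * B') * (4 * R.K' ^ 2 * ‖tr (t • b) R.g - R.g‖ ^ 2) := by
      refine h1.trans ?_
      gcongr
    rw [mul_div_assoc', le_div_iff₀ ht]
    linarith
  have hlimR : Tendsto (fun t : ℝ => (Real.pi * t + 2 * B') * (4 * R.K' ^ 2) * (‖tr (t • b) R.g - R.g‖ ^ 2 / t)) (𝓝[>] 0)
      (𝓝 ((Real.pi * 0 + 2 * B') * (4 * R.K' ^ 2) * 0)) := by
    apply Tendsto.mul _ htr
    apply Tendsto.mono_left _ nhdsWithin_le_nhds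
    apply Continuous.tendsto
    fun_prop
  have hfin : 2 * Real.pi ≤ (Real.pi * 0 + 2 * B') * (4 * R.K' ^ 2) * 0 := by
    apply ge_of_tendsto hlimR
    filter_upwards [self_mem_nhdsWithin] with t ht
    exact key t ht
  have h8 := Real.pi_gt_three
  linarith

end Main

end Pool.Agent.Helper67.BLT
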