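import Pool.Agent.Helper67.BLT.C1

set_option autoImplicit false
open MeasureTheory Set Filter Submodule FourierTransform
open scoped ENNReal Topology ComplexConjugate Matrix

namespace Pool.Agent.Helper67.BLT

/-- In this file we normalise the measure on `ℝ / ℤ` to have total volume 1. -/
noncomputable local instance instMS : MeasureSpace UnitAddCircle := ⟨AddCircle.haarAddCircle⟩

local instance instHaar : Measure.IsAddHaarMeasure (volume : Measure UnitAddCircle) :=
  inferInstanceAs (Measure.IsAddHaarMeasure AddCircle.haarAddCircle)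

local instance instProb : IsProbabilityMeasure (volume : Measure UnitAddCircle) :=
  inferInstanceAs (IsProbabilityMeasure AddCircle.haarAddCircle)

section Torus

variable {d : Type} [Fintype d]

lemma mFourier_norm_apply (a : d → ℤ) (z : UnitAddTorus d) : ‖UnitAddTorus.mFourier a z‖ = 1 := by
  simp only [UnitAddTorus.mFourier, ContinuousMap.coe_mk, norm_prod]
  exact Finset.prod_eq_one (fun i _ => by rw [fourier_apply]; exact Circle.norm_coe _)

/-- class of a real vector -/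
def tv (w : d → ℝ) : UnitAddTorus d := fun i => ((w i : ℝ) : UnitAddCircle)

lemma mFourier_add_tv (a : d → ℤ) (z : UnitAddTorus d) (w : d → ℝ) :
    UnitAddTorus.mFourier a (z + tv w) = chr (∑ i, (a i : ℝ) * w i) * UnitAddTorus.mFourier a z := by
  have h1 : ∀ i, fourier (a i) ((z + tv w) i) = chr ((a i : ℝ) * w i) * fourier (a i) (z i) := by
    intro i
    rw [Pi.add_apply, fourier_apply, smul_add, AddCircle.toCircle_add, Circle.coe_mul, mul_comm, ← fourier_apply,
      ← fourier_apply]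
    congr 1
    unfold tv
    rw [fourier_coe_apply]
    unfold chr
    congr 1
    push_cast
    ring
  have h2 : chr (∑ i, (a i : ℝ) * w i) = ∏ i, chr ((a i : ℝ) * w i) := by
    unfold chr
    rw [← Complex.exp_sum]
    congr 1
    push_cast
    rw [Finset.mul_sum]
  simp only [UnitAddTorus.mFourier, ContinuousMap.coe_mk]
  rw [h2, ← Finset.prod_mul_distrib]
  exact Finset.prod_congr rfl (fun i _ => h1 i)

/-- translation of the torus -/
noncomputable def trT (w : d → ℝ) : UnitAddTorus d ≃ᵐ UnitAddTorus d := MeasurableEquiv.addRight (tv w)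

lemma trT_mp (w : d → ℝ) : MeasurePreserving (trT w) (volume : Measure (UnitAddTorus d)) volume :=
  measurePreserving_add_right volume (tv w)

end Torus

section Gabor

variable {l : ℕ}

/-- first component of a vector indexed by `Fin l ⊕ Fin l` -/
noncomputable def fst' (v : Fin l ⊕ Fin l → ℝ) : EuclideanSpace ℝ (Fin l) := WithLp.toLp 2 (fun i => v (Sum.inl i))

/-- second component -/
noncomputable def snd' (v : Fin l ⊕ Fin l → ℝ) : EuclideanSpace ℝ (Fin l) := WithLp.toLp 2 (fun i => v (Sum.inr i))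

lemma fst'_add (v w : Fin l ⊕ Fin l → ℝ) : fst' (v + w) = fst' v + fst' w := by
  ext i; simp [fst']

lemma snd'_add (v w : Fin l ⊕ Fin l → ℝ) : snd' (v + w) = snd' v + snd' w := by
  ext i; simp [snd']

/-- the lattice point -/
noncomputable def lp' (M : Matrix (Fin l ⊕ Fin l) (Fin l ⊕ Fin l) ℝ) (a : Fin l ⊕ Fin l → ℤ) : Fin l ⊕ Fin l → ℝ :=
  M *ᵥ (fun j => (a j : ℝ))

lemma lp'_add (M : Matrix (Fin l ⊕ Fin l) (Fin l ⊕ Fin l) ℝ) (a b : Fin l ⊕ Fin l → ℤ) :
    lp' M (a + b) = lp' M a + lp' M b := by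
  unfold lp'
  rw [← Matrix.mulVec_add]
  congr 1
  ext j
  simp

/-- the standard symplectic matrix -/
def JJ (l : ℕ) : Matrix (Fin l ⊕ Fin l) (Fin l ⊕ Fin l) ℝ := Matrix.fromBlocks 0 1 (-1) 0

lemma JJ_form (v w : Fin l ⊕ Fin l → ℝ) :
    v ⬝ᵥ (JJ l *ᵥ w) = ∑ i, (v (Sum.inl i) * w (Sum.inr i) - v (Sum.inr i) * w (Sum.inl i)) := by
  unfold JJ
  rw [Matrix.fromBlocks_mulVec]
  simp only [Matrix.zero_mulVec, Matrix.one_mulVec, Matrix.neg_mulVec, zero_add, add_zero, dotProduct,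
    Fintype.sum_sum_type, Sum.elim_inl, Sum.elim_inr, Function.comp_apply, Pi.neg_apply, mul_neg, Finset.sum_neg_distrib,
    Finset.sum_sub_distrib]
  ring

lemma symp_form (M : Matrix (Fin l ⊕ Fin l) (Fin l ⊕ Fin l) ℝ) (hM : Mᵀ * JJ l * M = JJ l) (a b : Fin l ⊕ Fin l → ℤ) :
    ∑ i, (lp' M a (Sum.inl i) * lp' M b (Sum.inr i) - lp' M a (Sum.inr i) * lp' M b (Sum.inl i)) =
      ∑ i, ((a (Sum.inl i) : ℝ) * b (Sum.inr i) - (a (Sum.inr i) : ℝ) * b (Sum.inl i)) := by
  rw [← JJ_form (lp' M a) (lp' M b)]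
  have h2 := JJ_form (fun j => (a j : ℝ)) (fun j => (b j : ℝ))
  rw [← h2]
  unfold lp'
  conv_rhs => rw [← hM]
  rw [Matrix.mulVec_mulVec, Matrix.dotProduct_mulVec, Matrix.vecMul_mulVec, ← Matrix.dotProduct_mulVec]
  rw [Matrix.mul_assoc]

lemma inner_eq_sum (x y : EuclideanSpace ℝ (Fin l)) : inner ℝ x y = ∑ i, x i * y i := by
  rw [PiLp.inner_apply]
  apply Finset.sum_congr rfl
  intro i _
  simp [mul_comm]

/-- phase exponent -/
noncomputable def th (M : Matrix (Fin l ⊕ Fin l) (Fin l ⊕ Fin l) ℝ) (a : Fin l ⊕ Fin l → ℤ) : ℝ :=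
  -(1/2) * inner ℝ (snd' (lp' M a)) (fst' (lp' M a)) + (1/2) * ∑ i, (a (Sum.inl i) : ℝ) * a (Sum.inr i)

lemma th_cocycle (M : Matrix (Fin l ⊕ Fin l) (Fin l ⊕ Fin l) ℝ) (hM : Mᵀ * JJ l * M = JJ l) (a b : Fin l ⊕ Fin l → ℤ) :
    ∃ n : ℤ, th M (a + b) = th M a + th M b - inner ℝ (snd' (lp' M b)) (fst' (lp' M a)) + n := by
  refine ⟨∑ i, a (Sum.inl i) * b (Sum.inr i), ?_⟩
  have hs := symp_form M hM a b
  unfold th
  rw [lp'_add, fst'_add, snd'_add]
  simp only [inner_add_left, inner_add_right]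
  simp only [inner_eq_sum]
  simp only [fst', snd']
  push_cast
  simp only [Pi.add_apply, Finset.sum_sub_distrib, Int.cast_add, add_mul, mul_add, Finset.sum_add_distrib] at hs ⊢
  have e1 : ∑ i : Fin l, lp' M a (Sum.inr i) * lp' M b (Sum.inl i) = ∑ i : Fin l, lp' M b (Sum.inl i) * lp' M a (Sum.inr i) :=
    Finset.sum_congr rfl (fun i _ => mul_comm _ _)
  have e2 : ∑ i : Fin l, lp' M a (Sum.inl i) * lp' M b (Sum.inr i) = ∑ i : Fin l, lp' M b (Sum.inr i) * lp' M a (Sum.inl i) :=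
    Finset.sum_congr rfl (fun i _ => mul_comm _ _)
  have e3 : ∑ i : Fin l, (a (Sum.inr i) : ℝ) * b (Sum.inl i) = ∑ i : Fin l, (b (Sum.inl i) : ℝ) * a (Sum.inr i) :=
    Finset.sum_congr rfl (fun i _ => mul_comm _ _)
  linarith

/-- time-frequency shift on `L²` -/
noncomputable def tf (m n : EuclideanSpace ℝ (Fin l)) (f : Lp ℂ 2 (volume : Measure (EuclideanSpace ℝ (Fin l)))) :
    Lp ℂ 2 (volume : Measure (EuclideanSpace ℝ (Fin l))) := mo n (tr m f)

lemma tr_mo (m n : EuclideanSpace ℝ (Fin l)) (f : Lp ℂ 2 (volume : Measure (EuclideanSpace ℝ (Fin l)))) :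
    tr m (mo n f) = chr (-(inner ℝ n m)) • mo n (tr m f) := by
  rw [mo_tr, smul_smul, chr_neg_mul, one_smul]

lemma tf_tf (m n m' n' : EuclideanSpace ℝ (Fin l)) (f : Lp ℂ 2 (volume : Measure (EuclideanSpace ℝ (Fin l)))) :
    tf m n (tf m' n' f) = chr (-(inner ℝ n' m)) • tf (m + m') (n + n') f := by
  unfold tf
  rw [tr_mo, map_smul, mo_mo, tr_tr]

/-- the (corrected) lattice representation -/
noncomputable def rho (M : Matrix (Fin l ⊕ Fin l) (Fin l ⊕ Fin l) ℝ) (a : Fin l ⊕ Fin l → ℤ) :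
    Lp ℂ 2 (volume : Measure (EuclideanSpace ℝ (Fin l))) →L[ℂ] Lp ℂ 2 (volume : Measure (EuclideanSpace ℝ (Fin l))) :=
  chr (th M a) • ((mo (snd' (lp' M a))).toContinuousLinearEquiv :
    Lp ℂ 2 (volume : Measure (EuclideanSpace ℝ (Fin l))) →L[ℂ] Lp ℂ 2 (volume : Measure (EuclideanSpace ℝ (Fin l)))).comp
    ((tr (fst' (lp' M a))).toContinuousLinearEquiv :
    Lp ℂ 2 (volume : Measure (EuclideanSpace ℝ (Fin l))) →L[ℂ] Lp ℂ 2 (volume : Measure (EuclideanSpace ℝ (Fin l))))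

lemma rho_apply' (M : Matrix (Fin l ⊕ Fin l) (Fin l ⊕ Fin l) ℝ) (a : Fin l ⊕ Fin l → ℤ)
    (f : Lp ℂ 2 (volume : Measure (EuclideanSpace ℝ (Fin l)))) :
    rho M a f = chr (th M a) • tf (fst' (lp' M a)) (snd' (lp' M a)) f := rfl

lemma rho_rho (M : Matrix (Fin l ⊕ Fin l) (Fin l ⊕ Fin l) ℝ) (hM : Mᵀ * JJ l * M = JJ l) (a b : Fin l ⊕ Fin l → ℤ)
    (f : Lp ℂ 2 (volume : Measure (EuclideanSpace ℝ (Fin l)))) :
    rho M a (rho M b f) = rho M (a + b) f := by
  rw [rho_apply', rho_apply', rho_apply']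
  have h1 : ∀ c : ℂ, tf (fst' (lp' M a)) (snd' (lp' M a)) (c • tf (fst' (lp' M b)) (snd' (lp' M b)) f) =
      c • tf (fst' (lp' M a)) (snd' (lp' M a)) (tf (fst' (lp' M b)) (snd' (lp' M b)) f) := by
    intro c
    unfold tf
    simp
  rw [h1, tf_tf, ← fst'_add, ← snd'_add, ← lp'_add, smul_smul, smul_smul]
  congr 1
  obtain ⟨n, hn⟩ := th_cocycle M hM a b
  rw [hn, chr_add, chr_int, mul_one, sub_eq_add_neg, chr_add, chr_add]

/-- Hilbert basis from the Riesz basis, reindexed and with corrected phases -/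
lemma exists_V (M : Matrix (Fin l ⊕ Fin l) (Fin l ⊕ Fin l) ℝ) {ι : Type*} (ε : (Fin l ⊕ Fin l → ℤ) ≃ ι)
    (bb : HilbertBasis ι ℂ (Lp ℂ 2 (volume : Measure (EuclideanSpace ℝ (Fin l)))))
    (T : Lp ℂ 2 (volume : Measure (EuclideanSpace ℝ (Fin l))) ≃L[ℂ] Lp ℂ 2 (volume : Measure (EuclideanSpace ℝ (Fin l)))) :
    ∃ V : Lp ℂ 2 (volume : Measure (UnitAddTorus (Fin l ⊕ Fin l))) ≃L[ℂ] Lp ℂ 2 (volume : Measure (EuclideanSpace ℝ (Fin l))),
      ∀ a, V (UnitAddTorus.mFourierLp 2 a) = chr (th M a) • T (bb (ε a)) := by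
  let v : (Fin l ⊕ Fin l → ℤ) → Lp ℂ 2 (volume : Measure (EuclideanSpace ℝ (Fin l))) := fun a => chr (th M a) • bb (ε a)
  have hv : Orthonormal ℂ v := by
    constructor
    · intro a
      simp only [v, norm_smul, norm_chr, bb.orthonormal.1, mul_one]
    · intro a b hab
      simp only [v]
      rw [inner_smul_left, inner_smul_right, bb.orthonormal.2 (fun h => hab (ε.injective h))]
      simp
  have hsp : ⊤ ≤ (span ℂ (range v)).topologicalClosure := by
    rw [← bb.dense_span]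
    apply Submodule.topologicalClosure_mono
    rw [span_le]
    rintro _ ⟨i, rfl⟩
    have h1 : bb i = (chr (th M (ε.symm i)))⁻¹ • v (ε.symm i) := by
      simp only [v, Equiv.apply_symm_apply]
      rw [smul_smul, inv_mul_cancel₀ (chr_ne _), one_smul]
    rw [h1]
    exact Submodule.smul_mem _ _ (subset_span ⟨_, rfl⟩)
  let b' := HilbertBasis.mk hv hsp
  let Φ := (UnitAddTorus.mFourierBasis (d := Fin l ⊕ Fin l)).repr.trans b'.repr.symm
  refine ⟨Φ.toContinuousLinearEquiv.trans T, ?_⟩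
  intro a
  classical
  have h1 : UnitAddTorus.mFourierLp 2 a = UnitAddTorus.mFourierBasis (d := Fin l ⊕ Fin l) a := by
    rw [UnitAddTorus.coe_mFourierBasis]
  have h2 : Φ (UnitAddTorus.mFourierLp 2 a) = v a := by
    rw [h1]
    simp only [Φ, LinearIsometryEquiv.trans_apply]
    rw [HilbertBasis.repr_self]
    have h3 : b' a = v a := by simp [b']
    rw [← h3, ← b'.repr_self, LinearIsometryEquiv.symm_apply_apply]
  change T (Φ (UnitAddTorus.mFourierLp 2 a)) = _
  rw [h2]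
  simp only [v, map_smul]

/-- the representation data attached to a Gabor Riesz basis over a symplectic lattice -/
noncomputable def gaborRep (M : Matrix (Fin l ⊕ Fin l) (Fin l ⊕ Fin l) ℝ) (hM : Mᵀ * JJ l * M = JJ l)
    (g : Lp ℂ 2 (volume : Measure (EuclideanSpace ℝ (Fin l))))
    (V : Lp ℂ 2 (volume : Measure (UnitAddTorus (Fin l ⊕ Fin l))) ≃L[ℂ] Lp ℂ 2 (volume : Measure (EuclideanSpace ℝ (Fin l))))
    (hV : ∀ a, V (UnitAddTorus.mFourierLp 2 a) = rho M a g) :
    Rep (volume : Measure (UnitAddTorus (Fin l ⊕ Fin l))) (Fin l ⊕ Fin l → ℤ) (Lp ℂ 2 (volume : Measure (EuclideanSpace ℝ (Fin l)))) where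
  E := fun a z => UnitAddTorus.mFourier a z
  e := fun a => UnitAddTorus.mFourierLp 2 a
  V := V
  ρ := rho M
  hE1 := mFourier_norm_apply
  hEadd := fun a b z => UnitAddTorus.mFourier_add
  he := fun a => UnitAddTorus.coeFn_mFourierLp 2 a
  htot := UnitAddTorus.span_mFourierLp_closure_eq_top (by simp)
  hρ := by
    intro a b
    rw [hV, hV, rho_rho M hM]

lemma th_zero (M : Matrix (Fin l ⊕ Fin l) (Fin l ⊕ Fin l) ℝ) : th M 0 = 0 := by
  have h0 : lp' M 0 = 0 := by
    unfold lp'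
    ext i
    simp [Matrix.mulVec, dotProduct]
  have h1 : fst' (0 : Fin l ⊕ Fin l → ℝ) = 0 := by ext i; simp [fst']
  unfold th
  rw [h0, h1]
  simp

lemma rho_zero (M : Matrix (Fin l ⊕ Fin l) (Fin l ⊕ Fin l) ℝ)
    (g : Lp ℂ 2 (volume : Measure (EuclideanSpace ℝ (Fin l)))) : rho M 0 g = g := by
  have h0 : lp' M 0 = 0 := by
    unfold lp'
    ext i
    simp [Matrix.mulVec, dotProduct]
  have h1 : fst' (0 : Fin l ⊕ Fin l → ℝ) = 0 := by ext i; simp [fst']
  have h2 : snd' (0 : Fin l ⊕ Fin l → ℝ) = 0 := by ext i; simp [snd']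
  rw [rho_apply', th_zero, chr_zero, one_smul, h0, h1, h2]
  unfold tf
  have h3 : tr (0 : EuclideanSpace ℝ (Fin l)) g = g := trL_zero g
  have h4 : mo (0 : EuclideanSpace ℝ (Fin l)) g = g := moL_zero g
  rw [h3, h4]

section Shifts

variable (M : Matrix (Fin l ⊕ Fin l) (Fin l ⊕ Fin l) ℝ) (hM : Mᵀ * JJ l * M = JJ l)
    (g : Lp ℂ 2 (volume : Measure (EuclideanSpace ℝ (Fin l))))
    (V : Lp ℂ 2 (volume : Measure (UnitAddTorus (Fin l ⊕ Fin l))) ≃L[ℂ] Lp ℂ 2 (volume : Measure (EuclideanSpace ℝ (Fin l))))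
    (hV : ∀ a, V (UnitAddTorus.mFourierLp 2 a) = rho M a g) (k : Fin l)

lemma gaborRep_g : (gaborRep M hM g V hV).g = g := by
  change V (UnitAddTorus.mFourierLp 2 0) = g
  rw [hV, rho_zero]

/-- coordinate vector -/
noncomputable def ek (k : Fin l) : EuclideanSpace ℝ (Fin l) := EuclideanSpace.single k 1

lemma inner_ek (x : EuclideanSpace ℝ (Fin l)) : inner ℝ (ek k) x = x k := by
  unfold ek
  rw [EuclideanSpace.inner_single_left]
  simp

/-- modulation shift -/
noncomputable def moShift (t : ℝ) : Shift (gaborRep M hM g V hV) where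
  U := mo (t • ek k)
  T := trT (fun j => t * M (Sum.inl k) j)
  hT := trT_mp _
  χ := fun a => chr (∑ j, (a j : ℝ) * (t * M (Sum.inl k) j))
  hχ := fun a => norm_chr _
  hE := by
    intro a z
    exact mFourier_add_tv a z _
  hU := by
    intro a f
    change mo (t • ek k) (rho M a f) = _ • rho M a (mo (t • ek k) f)
    rw [rho_apply', rho_apply', map_smul, smul_comm]
    congr 1
    unfold tf
    rw [mo_mo, add_comm, ← mo_mo, mo_tr, map_smul]
    congr 2
    rw [inner_smul_left, inner_ek]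
    simp only [conj_trivial, fst', lp', Matrix.mulVec, dotProduct]
    rw [Finset.mul_sum]
    apply Finset.sum_congr rfl
    intro j _
    ring

/-- translation shift -/
noncomputable def trShift (t : ℝ) : Shift (gaborRep M hM g V hV) where
  U := tr (t • ek k)
  T := trT (fun j => -(t * M (Sum.inr k) j))
  hT := trT_mp _
  χ := fun a => chr (∑ j, (a j : ℝ) * (-(t * M (Sum.inr k) j)))
  hχ := fun a => norm_chr _
  hE := by
    intro a z
    exact mFourier_add_tv a z _
  hU := by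
    intro a f
    change tr (t • ek k) (rho M a f) = _ • rho M a (tr (t • ek k) f)
    rw [rho_apply', rho_apply', map_smul, smul_comm]
    congr 1
    unfold tf
    rw [tr_mo, tr_tr, add_comm, ← tr_tr]
    congr 2
    rw [inner_smul_right, real_inner_comm, inner_ek]
    simp only [snd', lp', Matrix.mulVec, dotProduct]
    rw [Finset.mul_sum, ← Finset.sum_neg_distrib]
    apply Finset.sum_congr rfl
    intro j _
    ring

end Shifts

end Gabor

end Pool.Agent.Helper67.BLT
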