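import Pool.Agent.Helper67.BLT.C2

set_option autoImplicit false
open MeasureTheory Set Filter Submodule FourierTransform
open scoped ENNReal Topology ComplexConjugate Matrix

namespace Pool.Agent.Helper67.BLT

noncomputable local instance instMS' : MeasureSpace UnitAddCircle := ⟨AddCircle.haarAddCircle⟩

local instance instHaar' : Measure.IsAddHaarMeasure (volume : Measure UnitAddCircle) :=
  inferInstanceAs (Measure.IsAddHaarMeasure AddCircle.haarAddCircle)

local instance instProb' : IsProbabilityMeasure (volume : Measure UnitAddCircle) :=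
  inferInstanceAs (IsProbabilityMeasure AddCircle.haarAddCircle)

variable {l : ℕ}

lemma norm_fourier_sub (f g : Lp ℂ 2 (volume : Measure (EuclideanSpace ℝ (Fin l)))) : ‖𝓕 f - 𝓕 g‖ = ‖f - g‖ := by
  have h1 : 𝓕 f - 𝓕 g = 𝓕 (f - g) := ((Lp.fourierTransformₗᵢ (EuclideanSpace ℝ (Fin l)) ℂ).map_sub f g).symm
  rw [h1, Lp.norm_fourier_eq]

/-- The theorem in terms of the lattice data. -/
theorem main_blt (M : Matrix (Fin l ⊕ Fin l) (Fin l ⊕ Fin l) ℝ) (hMJ : Mᵀ * JJ l * M = JJ l) {ι : Type*}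
    (ε : (Fin l ⊕ Fin l → ℤ) ≃ ι)
    (bb : HilbertBasis ι ℂ (Lp ℂ 2 (volume : Measure (EuclideanSpace ℝ (Fin l)))))
    (T : Lp ℂ 2 (volume : Measure (EuclideanSpace ℝ (Fin l))) ≃L[ℂ] Lp ℂ 2 (volume : Measure (EuclideanSpace ℝ (Fin l))))
    (g : Lp ℂ 2 (volume : Measure (EuclideanSpace ℝ (Fin l))))
    (hT : ∀ a, T (bb (ε a)) = mo (snd' (lp' M a)) (tr (fst' (lp' M a)) g)) (k : Fin l) :
    (∀ p q : ℝ, 1 < p → 1 / p + 1 / q = 1 → wt (ek k) p g < ⊤ → wt (ek k) q (𝓕 g) < ⊤ → False) ∧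
    (∀ r : ℝ, 0 < r → (∀ᵐ x, (g : EuclideanSpace ℝ (Fin l) → ℂ) x ≠ 0 → |inner ℝ (ek k) x| ≤ r) →
      wt (ek k) 1 (𝓕 g) < ⊤ → False) ∧
    (∀ r : ℝ, 0 < r → (∀ᵐ x, ((𝓕 g : Lp ℂ 2 (volume : Measure (EuclideanSpace ℝ (Fin l)))) : EuclideanSpace ℝ (Fin l) → ℂ) x ≠ 0 →
      |inner ℝ (ek k) x| ≤ r) → wt (ek k) 1 g < ⊤ → False) := by
  obtain ⟨V, hV0⟩ := exists_V M ε bb T
  have hV : ∀ a, V (UnitAddTorus.mFourierLp 2 a) = rho M a g := by
    intro a
    rw [hV0, hT]
    rfl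
  have hb : inner ℝ (ek k) (ek k) = (1:ℝ) := by
    rw [inner_ek]; simp [ek]
  set R := gaborRep M hMJ g V hV with hR
  have hRg : R.g = g := gaborRep_g M hMJ g V hV
  let Fo := Lp.fourierTransformₗᵢ (EuclideanSpace ℝ (Fin l)) ℂ
  have hFo : ∀ f : Lp ℂ 2 (volume : Measure (EuclideanSpace ℝ (Fin l))), Fo f = 𝓕 f := fun f => rfl
  have hFoi : ∀ f : Lp ℂ 2 (volume : Measure (EuclideanSpace ℝ (Fin l))), Fo.symm f = 𝓕⁻ f := fun f => rfl
  let R' := R.map Fo
  have hR'g : R'.g = 𝓕 g := by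
    change Fo R.g = _
    rw [hRg]
    rfl
  -- the two pairs of shifts
  let W : ℝ → Shift R := fun t => moShift M hMJ g V hV k t
  let S : ℝ → Shift R := fun t => trShift M hMJ g V hV k t
  have hW : ∀ t f, (W t).U f = mo (t • ek k) f := fun t f => rfl
  have hS : ∀ t f, (S t).U f = tr (t • ek k) f := fun t f => rfl
  let W' : ℝ → Shift R' := fun t => (S (-t)).map Fo
  let S' : ℝ → Shift R' := fun t => (W t).map Fo
  have hW' : ∀ t f, (W' t).U f = mo (t • ek k) f := by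
    intro t f
    change Fo (tr ((-t) • ek k) (Fo.symm f)) = _
    rw [hFo, hFoi, fourier_tr, FourierInvPair.fourier_fourierInv_eq]
    simp
  have hS' : ∀ t f, (S' t).U f = tr (t • ek k) f := by
    intro t f
    change Fo (mo (t • ek k) (Fo.symm f)) = _
    rw [hFo, hFoi, fourier_mo, FourierInvPair.fourier_fourierInv_eq]
  -- transfer of norms
  have htr1 : ∀ t : ℝ, ‖tr (t • ek k) g - g‖ = ‖mo ((-t) • ek k) (𝓕 g) - 𝓕 g‖ := by
    intro t
    rw [← norm_fourier_sub, fourier_tr, neg_smul]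
  have htr2 : ∀ t : ℝ, ‖tr (t • ek k) (𝓕 g) - 𝓕 g‖ = ‖mo (t • ek k) g - g‖ := by
    intro t
    rw [← fourier_mo, norm_fourier_sub]
  refine ⟨?_, ?_, ?_⟩
  · intro p q hp hpq hA' hB'
    have hp0 : 0 < p := by linarith
    have hq1 : 1 < q := by
      have h1 : 1 / p < 1 := by rw [div_lt_one hp0]; exact hp
      have h2 : 0 < 1 / q := by linarith
      have h3 : 0 < q := by
        rwa [one_div_pos] at h2
      have h4 : 1 / q < 1 := by
        have : 0 < 1 / p := by positivity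
        linarith
      rw [div_lt_one h3] at h4
      exact h4
    have hq0 : 0 < q := by linarith
    have hmul : p * q = p + q := by
      field_simp at hpq
      linarith
    rcases le_total 2 p with h2 | h2
    · have hq2 : q ≤ 2 := by nlinarith
      obtain ⟨C, hC0, hC⟩ := E1 (ek k) q hq0 hq2 (𝓕 g) hB'
      refine no_power R (ek k) hb W S hW hS p q h2 hpq hq1 (by rw [hRg]; exact hA') C hC0 ?_
      intro t
      rw [hRg, htr1]
      have := hC (-t)
      rwa [abs_neg] at this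
    · have hq2 : 2 ≤ q := by nlinarith
      obtain ⟨C, hC0, hC⟩ := E1 (ek k) p hp0 h2 g hA'
      refine no_power R' (ek k) hb W' S' hW' hS' q p hq2 (by rw [add_comm]; exact hpq) hp
        (by rw [hR'g]; exact hB') C hC0 ?_
      intro t
      rw [hR'g, htr2]
      exact hC t
  · intro r hr hsr hB
    refine no_endpoint R (ek k) hb W S hW hS r hr (by rw [hRg]; exact hsr) ?_
    rw [hRg]
    have h1 := E2 (-(ek k)) (𝓕 g) (by
      have : wt (-(ek k)) 1 (𝓕 g) = wt (ek k) 1 (𝓕 g) := by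
        unfold wt
        simp only [inner_neg_left, abs_neg]
      rw [this]; exact hB)
    refine h1.congr ?_
    intro t
    rw [htr1, smul_neg, neg_smul]
  · intro r hr hsr hB
    refine no_endpoint R' (ek k) hb W' S' hW' hS' r hr (by rw [hR'g]; exact hsr) ?_
    rw [hR'g]
    refine (E2 (ek k) g hB).congr ?_
    intro t
    rw [htr2]

end Pool.Agent.Helper67.BLT
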